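import Pool.Agent.helper45.Ball2.GM

/-!
Module B2-GLF: functions of a linear fractional map of the ball to the disc are in `GBp d p`.

PROOF.  Let `N z = a + ip α z`, `D z = 1 - ip β z`, `φ z = N z / D z`; `D z ≠ 0` for `∑ |z i|^2 ≤ 1`
(`|ip β z| ≤ |β| < 1`).
`lf_struct` (`|φ p| = 1`, `λ = φ p`): put `L z = λ D z - N z = κ' - ip γ z`.  `L p = 0`, so
`κ' = ip γ p`; `L z ≠ 0` on `Bn d` since `|φ z| < 1`.  If `∑ |γ i|^2 > |κ'|^2` then
`z = κ' γ / ∑ |γ i|^2 ∈ Bn d` and `L z = 0`, a contradiction; so `|γ|^2 ≤ |ip γ p|^2`, and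
`∑ |γ i - conj κ' p i|^2 = |γ|^2 - 2 |κ'|^2 + |κ'|^2 ≤ 0`, `γ i = conj κ' p i`,
`L z = κ' (1 - ip p z)`, `κ' = L 0 ≠ 0`.
So `T z = (λ + φ z) / (λ - φ z) = (λ D z + N z) / L z = (m₀ + ip μ z) / (1 - ip p z)` for some
`m₀`, `μ`.  With `z i = w p i + (1 - w) Z i` (`w = ip p z`, `Z = bZ p z`) this is
`x₁ S + x₂ + ip μ' Z`, `x₁ = (m₀ + m₁) / 2`, `x₂ = (m₀ - m₁) / 2`, `m₁ = ip μ p`,
`μ' i = μ i - (ip p μ) p i` (`ip p μ' = 0`, `ip μ' Z = ip μ Z` as `ip p Z = 0`).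
`re T z > 0` on `Bn d`; by `Geo_mem`, `Geo_S`, `Geo_Z` every `(Z, s)` with `ip p Z = 0`,
`∑ |Z i|^2 < re s` occurs.  Take `Z = 0`, `s = 1 + i t`, `t → ±∞`: `im x₁ = 0`; `s = t → ∞`:
`κ = re x₁ ≥ 0`.  If `κ = 0`: with `Z = - t μ'`, `s` with large real part, `t → ∞`: `μ' = 0`; take
`c = 0`, `x = x₂` (`re x₂ ≥ 0`).  If `κ > 0`: put `c = - μ' / (2 κ)`, `ip μ' Z = - 2 κ ip c Z`,
`T = κ (S - 2 ip c Z + |c|^2) + x`, `x = x₂ - κ |c|^2`; `Z = c`, `s = |c|^2 + ε`, `ε → 0` gives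
`re x ≥ 0` (`bPhi p c = S - |c|^2 = ε` there).
`GBp_lf`: if `|φ p| < 1` then `h ∘ φ` is continuous at `p`: `GBp_cont` with the value `h (φ p)`.
If `|φ p| = 1` (`|φ p| ≤ 1` by continuity): `φ z = λ (T - 1) / (T + 1)`,
`T = κ bPhi p c z + x`, so `h (φ z) = h' (bPhi p c z)` with
`h' t = h (λ (κ t + x - 1) / (κ t + x + 1))`; if `κ > 0`, or `κ = 0` and `re x > 0`, `h'` is in
`HR`; `κ = 0` and `re x = 0` is impossible, `re T > 0`.  `GBp_phi`.
-/

noncomputable section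

open Set Metric

namespace Cor

/-- linear fractional maps of the ball to the disc -/
def LFr (d : ℕ) (φ : (Fin d → ℂ) → ℂ) : Prop :=
  ∃ (a : ℂ) (α β : Fin d → ℂ), ∑ i, ‖β i‖ ^ 2 < 1 ∧ (∀ z, φ z = (a + ip α z) / (1 - ip β z)) ∧
    ∀ z ∈ Bn d, ‖φ z‖ < 1

/-- conjugate linearity in the first variable -/
theorem GLF_smul_left {d : ℕ} (a : ℂ) (p z : Fin d → ℂ) :
    ip (fun i => a * p i) z = (starRingEnd ℂ) a * ip p z := by
  unfold ip
  rw [Finset.mul_sum]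
  refine Finset.sum_congr rfl fun i _ => ?_
  rw [map_mul]
  ring

theorem GLF_add_left {d : ℕ} (p q z : Fin d → ℂ) :
    ip (fun i => p i + q i) z = ip p z + ip q z := by
  unfold ip
  rw [← Finset.sum_add_distrib]
  refine Finset.sum_congr rfl fun i _ => ?_
  rw [map_add]
  ring

theorem GLF_sub_left {d : ℕ} (p q z : Fin d → ℂ) :
    ip (fun i => p i - q i) z = ip p z - ip q z := by
  unfold ip
  rw [← Finset.sum_sub_distrib]
  refine Finset.sum_congr rfl fun i _ => ?_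
  rw [map_sub]
  ring

theorem GLF_self {d : ℕ} (p : Fin d → ℂ) : ip p p = ((∑ i, ‖p i‖ ^ 2 : ℝ) : ℂ) := by
  unfold ip
  rw [Complex.ofReal_sum]
  refine Finset.sum_congr rfl fun i _ => ?_
  rw [Complex.mul_conj, Complex.normSq_eq_norm_sq]

theorem GLF_zero_mem (d : ℕ) : (0 : Fin d → ℂ) ∈ Bn d := by
  show ∑ i, ‖(0 : Fin d → ℂ) i‖ ^ 2 < 1
  simp

/-- the denominator does not vanish on the closed ball -/
theorem GLF_den {d : ℕ} {β z : Fin d → ℂ} (hβ : ∑ i, ‖β i‖ ^ 2 < 1) (hz : ∑ i, ‖z i‖ ^ 2 ≤ 1) :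
    1 - ip β z ≠ 0 := by
  intro h
  have h1 : ip β z = 1 := by linear_combination -h
  have h2 := ip_le β z
  rw [h1, norm_one] at h2
  have h3 : 0 ≤ ∑ i, ‖β i‖ ^ 2 := Finset.sum_nonneg fun i _ => by positivity
  have h4 : 0 ≤ ∑ i, ‖z i‖ ^ 2 := Finset.sum_nonneg fun i _ => by positivity
  nlinarith

theorem GLF_diffAt {d : ℕ} {φ : (Fin d → ℂ) → ℂ} {a : ℂ} {α β : Fin d → ℂ}
    (hβ : ∑ i, ‖β i‖ ^ 2 < 1) (he : ∀ z, φ z = (a + ip α z) / (1 - ip β z)) {z : Fin d → ℂ}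
    (hz : ∑ i, ‖z i‖ ^ 2 ≤ 1) : DifferentiableAt ℂ φ z := by
  have h0 : φ = fun z => (a + ip α z) * (1 - ip β z)⁻¹ := by
    funext z
    rw [he z, div_eq_mul_inv]
  rw [h0]
  have h1 : DifferentiableAt ℂ (fun z : Fin d → ℂ => ip α z) z := (RB_ip_diff α) z
  have h2 : DifferentiableAt ℂ (fun z : Fin d → ℂ => ip β z) z := (RB_ip_diff β) z
  exact (h1.const_add a).mul ((h2.const_sub 1).inv (GLF_den hβ hz))

/-- positivity of the Cayley transform -/
theorem GLF_pos {l w : ℂ} (hl : ‖l‖ = 1) (hw : ‖w‖ < 1) : 0 < ((l + w) / (l - w)).re := by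
  have hne : l - w ≠ 0 := by
    intro h
    have h1 : l = w := by linear_combination h
    rw [h1] at hl
    linarith
  have hN : 0 < Complex.normSq (l - w) := Complex.normSq_pos.mpr hne
  rw [Complex.div_re, ← add_div]
  refine div_pos ?_ hN
  have h1 : l.re ^ 2 + l.im ^ 2 = 1 := by
    rw [← Geo_nsq, hl]
    norm_num
  have h2 : w.re ^ 2 + w.im ^ 2 < 1 := by
    rw [← Geo_nsq]
    nlinarith [norm_nonneg w]
  simp only [Complex.add_re, Complex.sub_re, Complex.add_im, Complex.sub_im]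
  nlinarith

/-- rigidity of the linear form -/
theorem GLF_rigid {d : ℕ} {p γ : Fin d → ℂ} {κ' : ℂ} (hp : ∑ i, ‖p i‖ ^ 2 = 1)
    (h0 : κ' = ip γ p) (hne : ∀ z ∈ Bn d, κ' - ip γ z ≠ 0) :
    κ' ≠ 0 ∧ ∀ z, κ' - ip γ z = κ' * (1 - ip p z) := by
  have hk : κ' ≠ 0 := by
    have h1 := hne 0 (GLF_zero_mem d)
    have h2 : ip γ 0 = 0 := by
      unfold ip
      simp
    rwa [h2, sub_zero] at h1
  refine ⟨hk, ?_⟩
  have hG0 : 0 ≤ ∑ i, ‖γ i‖ ^ 2 := Finset.sum_nonneg fun i _ => by positivity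
  have hkn : 0 < ‖κ'‖ ^ 2 := by
    have := norm_pos_iff.mpr hk
    positivity
  have hle : ∑ i, ‖γ i‖ ^ 2 ≤ ‖κ'‖ ^ 2 := by
    by_contra hcon
    rw [not_le] at hcon
    set G := ∑ i, ‖γ i‖ ^ 2 with hG
    have hGpos : 0 < G := lt_trans hkn hcon
    have hz : (fun i => (κ' / (G : ℂ)) * γ i) ∈ Bn d := by
      show ∑ i, ‖(κ' / (G : ℂ)) * γ i‖ ^ 2 < 1
      have h1 : ∀ i, ‖(κ' / (G : ℂ)) * γ i‖ ^ 2 = ‖κ'‖ ^ 2 / G ^ 2 * ‖γ i‖ ^ 2 := by
        intro i
        rw [norm_mul, norm_div, Complex.norm_real, Real.norm_eq_abs, abs_of_pos hGpos, mul_pow,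
          div_pow]
      rw [Finset.sum_congr rfl fun i _ => h1 i, ← Finset.mul_sum, ← hG]
      have h2 : ‖κ'‖ ^ 2 / G ^ 2 * G = ‖κ'‖ ^ 2 / G := by
        field_simp
      rw [h2, div_lt_one hGpos]
      exact hcon
    refine hne _ hz ?_
    rw [RB_ip_smul, GLF_self, ← hG]
    have hGc : (G : ℂ) ≠ 0 := by exact_mod_cast hGpos.ne'
    field_simp
    ring
  have hγ : ∀ i, γ i = (starRingEnd ℂ) κ' * p i := by
    have h1 := RB_expand γ (fun i => (starRingEnd ℂ) κ' * p i)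
    have h2 : ∑ i, ‖(starRingEnd ℂ) κ' * p i‖ ^ 2 = ‖κ'‖ ^ 2 := by
      have h3 : ∀ i, ‖(starRingEnd ℂ) κ' * p i‖ ^ 2 = ‖κ'‖ ^ 2 * ‖p i‖ ^ 2 := by
        intro i
        rw [norm_mul, mul_pow, RCLike.norm_conj]
      rw [Finset.sum_congr rfl fun i _ => h3 i, ← Finset.mul_sum, hp, mul_one]
    have h3 : (ip (fun i => (starRingEnd ℂ) κ' * p i) γ).re = ‖κ'‖ ^ 2 := by
      rw [GLF_smul_left, Complex.conj_conj, Geo_symm γ p, ← h0, Complex.mul_conj,
        Complex.ofReal_re, Complex.normSq_eq_norm_sq]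
    rw [h2, h3] at h1
    have h4 : ∑ i, ‖γ i - (starRingEnd ℂ) κ' * p i‖ ^ 2 ≤ 0 := by linarith
    have h5 : ∑ i, ‖γ i - (starRingEnd ℂ) κ' * p i‖ ^ 2 = 0 :=
      le_antisymm h4 (Finset.sum_nonneg fun i _ => by positivity)
    rw [Finset.sum_eq_zero_iff_of_nonneg (fun i _ => by positivity)] at h5
    intro i
    have h6 := h5 i (Finset.mem_univ i)
    have h7 : ‖γ i - (starRingEnd ℂ) κ' * p i‖ = 0 := by
      exact pow_eq_zero_iff (two_ne_zero) |>.mp h6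
    rw [norm_eq_zero] at h7
    linear_combination h7
  intro z
  have h1 : ip γ z = κ' * ip p z := by
    have h2 : γ = fun i => (starRingEnd ℂ) κ' * p i := funext hγ
    rw [h2, GLF_smul_left, Complex.conj_conj]
  rw [h1]
  ring

/-- from positivity on all points of the Siegel domain to the normal form -/
theorem GLF_normal {d : ℕ} {p μ : Fin d → ℂ} (hp : ∑ i, ‖p i‖ ^ 2 = 1) (hμ : ip p μ = 0)
    (x₁ x₂ : ℂ) (hpos : ∀ (Z : Fin d → ℂ) (s : ℂ), ip p Z = 0 → ∑ i, ‖Z i‖ ^ 2 < s.re →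
      0 < (x₁ * s + x₂ + ip μ Z).re) :
    ∃ (κ : ℝ) (x : ℂ) (c : Fin d → ℂ), 0 ≤ κ ∧ 0 ≤ x.re ∧ ∀ (Z : Fin d → ℂ) (s : ℂ),
      x₁ * s + x₂ + ip μ Z = κ * (s - 2 * ip c Z + ∑ i, (‖c i‖ : ℂ) ^ 2) + x := by
  have hz0 : ip p (0 : Fin d → ℂ) = 0 := by
    unfold ip
    simp
  have hμ0 : ip μ (0 : Fin d → ℂ) = 0 := by
    unfold ip
    simp
  have hs0 : ∑ i, ‖(0 : Fin d → ℂ) i‖ ^ 2 = 0 := by simp
  -- the imaginary part of x₁
  have him : x₁.im = 0 := by
    by_contra hne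
    have h1 := hpos 0 ⟨1, (x₁.re + x₂.re + 1) / x₁.im⟩ hz0 (by rw [hs0]; exact one_pos)
    rw [hμ0, add_zero, Complex.add_re, Complex.mul_re] at h1
    have h2 : x₁.im * ((x₁.re + x₂.re + 1) / x₁.im) = x₁.re + x₂.re + 1 := by
      field_simp
    simp only at h1
    rw [h2] at h1
    linarith
  have hx₁ : x₁ = (x₁.re : ℂ) := by
    apply Complex.ext
    · simp
    · rw [him]
      simp
  set κ := x₁.re with hκ
  have hκ0 : 0 ≤ κ := by
    by_contra hneg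
    rw [not_le] at hneg
    have hnn : 0 < -κ := by linarith
    have ht : 0 < |x₂.re| / (-κ) + 1 := by positivity
    have h1 := hpos 0 ((|x₂.re| / (-κ) + 1 : ℝ) : ℂ) hz0 (by
      rw [hs0, Complex.ofReal_re]
      exact ht)
    rw [hμ0, add_zero, Complex.add_re, hx₁, ← Complex.ofReal_mul, Complex.ofReal_re] at h1
    have h2 : κ * (|x₂.re| / (-κ) + 1) = -|x₂.re| + κ := by
      have h3 : κ ≠ 0 := hneg.ne
      field_simp
    rw [h2] at h1
    have h4 := le_abs_self x₂.re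
    linarith
  have hx₂ : 0 ≤ x₂.re := by
    refine le_of_forall_pos_lt_add fun ε hε => ?_
    have ht : 0 < ε / (κ + 1) := by positivity
    have h1 := hpos 0 ((ε / (κ + 1) : ℝ) : ℂ) hz0 (by
      rw [hs0, Complex.ofReal_re]
      exact ht)
    rw [hμ0, add_zero, Complex.add_re, hx₁, ← Complex.ofReal_mul, Complex.ofReal_re] at h1
    have h2 : κ * (ε / (κ + 1)) ≤ ε := by
      rw [mul_div_assoc', div_le_iff₀ (by linarith)]
      nlinarith
    linarith
  rcases hκ0.eq_or_lt with hk | hk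
  · -- κ = 0
    have hμz : ∀ i, μ i = 0 := by
      have hM : ∑ i, ‖μ i‖ ^ 2 = 0 := by
        by_contra hne
        have hMpos : 0 < ∑ i, ‖μ i‖ ^ 2 :=
          lt_of_le_of_ne (Finset.sum_nonneg fun i _ => by positivity) (Ne.symm hne)
        set M := ∑ i, ‖μ i‖ ^ 2 with hM
        set t : ℝ := (x₂.re + 1) / M with ht
        have h1 := hpos (fun i => (-(t : ℂ)) * μ i) ((t ^ 2 * M + 1 : ℝ) : ℂ)
          (by rw [RB_ip_smul, hμ, mul_zero])
          (by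
            have h2 : ∀ i, ‖(-(t : ℂ)) * μ i‖ ^ 2 = t ^ 2 * ‖μ i‖ ^ 2 := by
              intro i
              rw [norm_mul, norm_neg, Complex.norm_real, Real.norm_eq_abs, mul_pow, sq_abs]
            rw [Finset.sum_congr rfl fun i _ => h2 i, ← Finset.mul_sum, ← hM, Complex.ofReal_re]
            linarith)
        rw [RB_ip_smul, GLF_self, ← hM, hx₁, ← hk] at h1
        rw [Complex.ofReal_zero, zero_mul, zero_add, ← Complex.ofReal_neg, ← Complex.ofReal_mul,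
          Complex.add_re, Complex.ofReal_re] at h1
        have h3 : -t * M = -(x₂.re + 1) := by
          rw [ht]
          field_simp
        rw [h3] at h1
        linarith
      rw [Finset.sum_eq_zero_iff_of_nonneg (fun i _ => by positivity)] at hM
      intro i
      have h6 := hM i (Finset.mem_univ i)
      have h7 : ‖μ i‖ = 0 := pow_eq_zero_iff (two_ne_zero) |>.mp h6
      exact norm_eq_zero.mp h7
    refine ⟨0, x₂, 0, le_rfl, hx₂, fun Z s => ?_⟩
    have h1 : ip μ Z = 0 := by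
      unfold ip
      exact Finset.sum_eq_zero fun i _ => by rw [hμz i, map_zero, mul_zero]
    rw [h1, hx₁, ← hk]
    simp
  · -- κ > 0
    have hkc : (κ : ℂ) ≠ 0 := by exact_mod_cast hk.ne'
    set c : Fin d → ℂ := fun i => (-(1 / (2 * κ) : ℝ) : ℂ) * μ i with hc
    have hcZ : ∀ Z, ip c Z = -(1 / (2 * (κ : ℂ))) * ip μ Z := by
      intro Z
      rw [hc, GLF_smul_left]
      congr 1
      rw [map_neg, Complex.conj_ofReal]
      push_cast
      ring
    have hmu : ∀ Z, ip μ Z = -2 * κ * ip c Z := by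
      intro Z
      rw [hcZ]
      field_simp
    have hsum : (∑ i, (‖c i‖ : ℂ) ^ 2) = ((∑ i, ‖c i‖ ^ 2 : ℝ) : ℂ) := by
      push_cast
      rfl
    set C2 := ∑ i, ‖c i‖ ^ 2 with hC2
    refine ⟨κ, x₂ - κ * (C2 : ℂ), c, hk.le, ?_, fun Z s => ?_⟩
    · refine le_of_forall_pos_lt_add fun ε hε => ?_
      have h1 := hpos c ((C2 + ε / (κ + 1) : ℝ) : ℂ)
        (by rw [hc, RB_ip_smul, hμ, mul_zero])
        (by
          rw [Complex.ofReal_re, ← hC2]
          have : 0 < ε / (κ + 1) := by positivity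
          linarith)
      have h2 : x₁ * ((C2 + ε / (κ + 1) : ℝ) : ℂ) + x₂ + ip μ c =
          ((κ * (ε / (κ + 1)) - κ * C2 : ℝ) : ℂ) + x₂ := by
        rw [hmu c, GLF_self, ← hC2, hx₁]
        push_cast
        ring
      rw [h2, Complex.add_re, Complex.ofReal_re] at h1
      have h3 : κ * (ε / (κ + 1)) ≤ ε := by
        rw [mul_div_assoc', div_le_iff₀ (by linarith)]
        nlinarith
      have h4 : (x₂ - κ * (C2 : ℂ)).re = x₂.re - κ * C2 := by
        rw [Complex.sub_re, ← Complex.ofReal_mul, Complex.ofReal_re]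
      rw [h4]
      linarith
    · rw [hsum, hmu Z, hx₁]
      ring

theorem lf_struct {d : ℕ} {p : Fin d → ℂ} (hp : ∑ i, ‖p i‖ ^ 2 = 1) {φ : (Fin d → ℂ) → ℂ}
    (hφ : LFr d φ) (h1 : ‖φ p‖ = 1) : ∃ (κ : ℝ) (x : ℂ) (c : Fin d → ℂ), 0 ≤ κ ∧ 0 ≤ x.re ∧
      ∀ z ∈ Bn d, (φ p + φ z) / (φ p - φ z) = κ * bPhi p c z + x := by
  obtain ⟨a, α, β, hβ, he, hb⟩ := hφ
  set l := φ p with hl
  have hDp : 1 - ip β p ≠ 0 := GLF_den hβ hp.le
  have hD : ∀ z ∈ Bn d, 1 - ip β z ≠ 0 := fun z hz => GLF_den hβ (le_of_lt hz)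
  have hl0 : l ≠ 0 := by
    intro h0
    rw [h0, norm_zero] at h1
    norm_num at h1
  -- the linear form
  set γ : Fin d → ℂ := fun i => (starRingEnd ℂ) l * β i + α i with hγ
  have hγz : ∀ z, ip γ z = l * ip β z + ip α z := by
    intro z
    rw [hγ, GLF_add_left (fun i => (starRingEnd ℂ) l * β i) α z, GLF_smul_left, Complex.conj_conj]
  have hL : ∀ z, l * (1 - ip β z) - (a + ip α z) = (l - a) - ip γ z := by
    intro z
    rw [hγz]
    ring
  have hLp : l - a = ip γ p := by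
    have h2 : l * (1 - ip β p) = a + ip α p := by
      rw [hl, he p]
      field_simp
    have h3 := hL p
    rw [h2, sub_self] at h3
    linear_combination -h3
  have hLne : ∀ z ∈ Bn d, (l - a) - ip γ z ≠ 0 := by
    intro z hz h0
    rw [← hL z] at h0
    have h2 : φ z = l := by
      rw [he z, div_eq_iff (hD z hz)]
      linear_combination -h0
    have h3 := hb z hz
    rw [h2, h1] at h3
    exact lt_irrefl _ h3
  obtain ⟨hk0, hLz⟩ := GLF_rigid hp hLp hLne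
  set κ' := l - a with hκ'
  -- the numerator
  set μ₀ : Fin d → ℂ := fun i => α i - (starRingEnd ℂ) l * β i with hμ₀
  have hμ₀z : ∀ z, ip μ₀ z = ip α z - l * ip β z := by
    intro z
    rw [hμ₀, GLF_sub_left α (fun i => (starRingEnd ℂ) l * β i) z, GLF_smul_left,
      Complex.conj_conj]
  set μ₁ : Fin d → ℂ := fun i => ((starRingEnd ℂ) κ')⁻¹ * μ₀ i with hμ₁
  have hμ₁z : ∀ z, ip μ₁ z = κ'⁻¹ * ip μ₀ z := by
    intro z
    rw [hμ₁, GLF_smul_left, map_inv₀, Complex.conj_conj]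
  set m₀ : ℂ := (l + a) / κ' with hm₀
  set m₁ : ℂ := ip μ₁ p with hm₁
  have hT : ∀ z ∈ Bn d, (l + φ z) / (l - φ z) = (m₀ + ip μ₁ z) / (1 - ip p z) := by
    intro z hz
    have hw := Geo_ne hp hz
    have h2 := hD z hz
    have h3 : l - φ z = κ' * (1 - ip p z) / (1 - ip β z) := by
      rw [← hLz z, ← hL z, he z]
      field_simp
    have h4 : l + φ z = κ' * (m₀ + ip μ₁ z) / (1 - ip β z) := by
      have h5 : κ' * (m₀ + ip μ₁ z) = (l + a) + (ip α z - l * ip β z) := by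
        rw [hμ₁z, hμ₀z, hm₀]
        field_simp
      rw [h5, he z]
      field_simp
      ring
    rw [h3, h4]
    field_simp
  set μ' : Fin d → ℂ := fun i => μ₁ i - ip p μ₁ * p i with hμ'
  have hμ'p : ip p μ' = 0 := by
    rw [hμ', RB_ip_sub p μ₁ (fun i => ip p μ₁ * p i), RB_ip_smul p p (ip p μ₁), RB_ip_self hp,
      mul_one, sub_self]
  have hμ'Z : ∀ Z, ip p Z = 0 → ip μ' Z = ip μ₁ Z := by
    intro Z hZ
    rw [hμ', GLF_sub_left μ₁ (fun i => ip p μ₁ * p i) Z, GLF_smul_left (ip p μ₁) p Z, hZ,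
      mul_zero, sub_zero]
  set x₁ := (m₀ + m₁) / 2 with hx₁
  set x₂ := (m₀ - m₁) / 2 with hx₂
  have hTz : ∀ z ∈ Bn d, (l + φ z) / (l - φ z) = x₁ * bS p z + x₂ + ip μ' (bZ p z) := by
    intro z hz
    have hw := Geo_ne hp hz
    rw [hT z hz, hμ'Z _ (Geo_perp hp)]
    have h2 : ip μ₁ (bZ p z) = (ip μ₁ z - ip p z * m₁) / (1 - ip p z) := by
      have h3 : bZ p z = fun i => (1 - ip p z)⁻¹ * (z i - ip p z * p i) := by
        funext i
        unfold bZ
        rw [div_eq_inv_mul]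
      rw [h3, RB_ip_smul, RB_ip_sub μ₁ z (fun i => ip p z * p i), RB_ip_smul, ← hm₁,
        div_eq_inv_mul]
    rw [h2]
    unfold bS
    rw [hx₁, hx₂]
    field_simp
    ring
  obtain ⟨κ, x, c, h2, h3, h4⟩ := GLF_normal hp hμ'p x₁ x₂ (by
    intro Z s hZ hs
    have hmem := Geo_mem hp hZ hs
    have hs0 : 0 < s.re := lt_of_le_of_lt (Finset.sum_nonneg fun i _ => by positivity) hs
    have h2 := hTz _ hmem
    rw [Geo_S hp hZ hs0, Geo_Z hp hZ hs0] at h2
    rw [← h2]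
    exact GLF_pos h1 (hb _ hmem))
  refine ⟨κ, x, c, h2, h3, fun z hz => ?_⟩
  rw [hTz z hz, h4]
  rfl

theorem GLF_congr {d : ℕ} {p : Fin d → ℂ} (hp : ∑ i, ‖p i‖ ^ 2 = 1) {u v : (Fin d → ℂ) → ℂ}
    (h : ∀ z ∈ Bn d, u z = v z) (hv : GBp d p v) : GBp d p u := by
  obtain ⟨⟨hd, C, hC⟩, h1, h2⟩ := hv
  have hz0 : ip p (0 : Fin d → ℂ) = 0 := by
    unfold ip
    simp
  refine ⟨⟨hd.congr h, C, fun z hz => by rw [h z hz]; exact hC z hz⟩, fun ε hε => ?_,
    fun c hc Y ε hε => ?_⟩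
  · obtain ⟨Y, hY⟩ := h1 ε hε
    refine ⟨Y, fun z hz hYz => ?_⟩
    have h3 : 0 < (bS p z).re :=
      lt_of_le_of_lt (Finset.sum_nonneg fun i _ => by positivity) (Geo_re hp hz)
    have h4 : bpt p 0 (bS p z) ∈ Bn d := Geo_mem hp hz0 (by simpa using h3)
    rw [h z hz, h _ h4]
    exact hY z hz hYz
  · obtain ⟨η, R, hη, hR⟩ := h2 c hc Y ε hε
    refine ⟨η, R, hη, fun z hz a1 a2 a3 => ?_⟩
    have h3 : ∑ i, ‖c i‖ ^ 2 < (bPhi p c z + ∑ i, (‖c i‖ : ℂ) ^ 2).re := by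
      rw [Complex.add_re, Geo_csum]
      have h4 : 0 < (bPhi p c z).re := Geo_phi_mem hp hz c
      linarith
    have h4 := Geo_mem hp hc h3
    rw [h z hz, h _ h4]
    exact hR z hz a1 a2 a3

theorem GLF_ball {w : ℂ} (hw : 0 < w.re) : ‖(w - 1) / (w + 1)‖ < 1 := by
  have hne : w + 1 ≠ 0 := Geo_s1 hw
  have hpos : 0 < ‖w + 1‖ := norm_pos_iff.mpr hne
  rw [norm_div, div_lt_one hpos]
  refine lt_of_pow_lt_pow_left₀ 2 hpos.le ?_
  rw [Geo_nsq, Geo_nsq]
  simp only [Complex.add_re, Complex.sub_re, Complex.add_im, Complex.sub_im, Complex.one_re,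
    Complex.one_im]
  nlinarith

theorem GBp_lf {d : ℕ} {p : Fin d → ℂ} (hp : ∑ i, ‖p i‖ ^ 2 = 1) {φ : (Fin d → ℂ) → ℂ}
    (hφ : LFr d φ) {h : ℂ → ℂ} (hh : H1 h) : GBp d p (fun z => h (φ z)) := by
  obtain ⟨hh1, C, hh2⟩ := hh
  have hφ' := hφ
  obtain ⟨a, α, β, hβ, he, hb⟩ := hφ
  have hb' : ∀ z ∈ Bn d, φ z ∈ ball (0 : ℂ) 1 := fun z hz => mem_ball_zero_iff.mpr (hb z hz)
  have hφd : DifferentiableOn ℂ φ (Bn d) := fun z hz =>
    (GLF_diffAt hβ he (le_of_lt hz)).differentiableWithinAt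
  have hcp : ContinuousAt φ p := (GLF_diffAt hβ he hp.le).continuousAt
  have hu : HInf (Bn d) (fun z => h (φ z)) :=
    ⟨hh1.comp hφd hb', C, fun z hz => hh2 _ (hb' z hz)⟩
  have hle : ‖φ p‖ ≤ 1 := by
    by_contra hcon
    rw [not_le] at hcon
    have h1 : ∀ᶠ z in nhds p, 1 < ‖φ z‖ := hcp.norm.eventually (lt_mem_nhds hcon)
    obtain ⟨r, hr, hr1⟩ := Metric.eventually_nhds_iff.mp h1
    set t : ℝ := 1 - min (r / 2) (1 / 2) with ht
    have hm0 : 0 < min (r / 2) (1 / 2) := lt_min (by linarith) (by norm_num)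
    have hm1 : min (r / 2) (1 / 2) ≤ 1 / 2 := min_le_right _ _
    have hm2 : min (r / 2) (1 / 2) ≤ r / 2 := min_le_left _ _
    have hmem : (fun i => (t : ℂ) * p i) ∈ Bn d := by
      apply RB_slice hp
      rw [Complex.norm_real, Real.norm_eq_abs, abs_of_pos (by linarith)]
      linarith
    have hdist : dist (fun i => (t : ℂ) * p i) p < r := by
      apply RB_dist hr
      have h2 : ∀ i, ‖(t : ℂ) * p i - p i‖ ^ 2 = (1 - t) ^ 2 * ‖p i‖ ^ 2 := by
        intro i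
        have h3 : (t : ℂ) * p i - p i = ((t - 1 : ℝ) : ℂ) * p i := by
          push_cast
          ring
        rw [h3, norm_mul, Complex.norm_real, Real.norm_eq_abs, mul_pow, sq_abs]
        ring
      rw [Finset.sum_congr rfl fun i _ => h2 i, ← Finset.mul_sum, hp, mul_one]
      have h3 : 1 - t = min (r / 2) (1 / 2) := by
        rw [ht]
        ring
      rw [h3]
      nlinarith
    have h2 := hr1 hdist
    have h3 := hb _ hmem
    linarith
  rcases hle.lt_or_eq with hlt | heq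
  · refine GBp_cont hp hu (h (φ p)) fun ε hε => ?_
    have hch : ContinuousAt h (φ p) := by
      have h1 : ball (0 : ℂ) 1 ∈ nhds (φ p) :=
        isOpen_ball.mem_nhds (mem_ball_zero_iff.mpr hlt)
      exact (hh1.differentiableAt h1).continuousAt
    have hc : ContinuousAt (fun z => h (φ z)) p := ContinuousAt.comp (f := φ) (g := h) hch hcp
    obtain ⟨δ, hδ, hδ1⟩ := Metric.continuousAt_iff.mp hc ε hε
    refine ⟨δ ^ 2, by positivity, fun z hz hzp => ?_⟩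
    have h1 := hδ1 (RB_dist hδ hzp)
    rw [dist_eq_norm] at h1
    exact h1.le
  · obtain ⟨κ, x, c, hκ, hx, hT⟩ := lf_struct hp hφ' heq
    set l := φ p with hl
    have hl0 : l ≠ 0 := by
      intro h0
      rw [h0, norm_zero] at heq
      norm_num at heq
    have hwpos : ∀ t ∈ RHP, 0 < ((κ : ℂ) * t + x).re := by
      intro t ht
      have ht' : 0 < t.re := ht
      rw [Complex.add_re, Complex.re_ofReal_mul]
      rcases hκ.eq_or_lt with hk | hk
      · rcases hx.eq_or_lt with hx0 | hx0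
        · exfalso
          have h1 := GLF_pos heq (hb 0 (GLF_zero_mem d))
          rw [hT 0 (GLF_zero_mem d), ← hk, Complex.add_re, Complex.re_ofReal_mul, zero_mul,
            ← hx0] at h1
          simp at h1
        · rw [← hk, zero_mul, zero_add]
          exact hx0
      · have := mul_pos hk ht'
        linarith
    have hmaps : ∀ t ∈ RHP, l * (((κ : ℂ) * t + x - 1) / ((κ : ℂ) * t + x + 1)) ∈
        ball (0 : ℂ) 1 := by
      intro t ht
      rw [mem_ball_zero_iff, norm_mul, heq, one_mul]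
      exact GLF_ball (hwpos t ht)
    have hHR : HR (fun t => h (l * (((κ : ℂ) * t + x - 1) / ((κ : ℂ) * t + x + 1)))) := by
      refine ⟨?_, C, fun t ht => hh2 _ (hmaps t ht)⟩
      refine hh1.comp ?_ hmaps
      have h1 : DifferentiableOn ℂ (fun t : ℂ => (κ : ℂ) * t + x - 1) RHP := by fun_prop
      have h2 : DifferentiableOn ℂ (fun t : ℂ => (κ : ℂ) * t + x + 1) RHP := by fun_prop
      exact (h1.fun_div h2 fun t ht => Geo_s1 (hwpos t ht)).const_mul l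
    refine GLF_congr hp (fun z hz => ?_) (GBp_phi hp c hHR)
    show h (φ z) = h (l * (((κ : ℂ) * bPhi p c z + x - 1) / ((κ : ℂ) * bPhi p c z + x + 1)))
    have h1 := hT z hz
    have hne : l - φ z ≠ 0 := by
      intro h0
      have h2 : φ z = l := by linear_combination -h0
      have h3 := hb z hz
      rw [h2, heq] at h3
      exact lt_irrefl _ h3
    rw [← h1]
    congr 1
    have h3 : (l + φ z) / (l - φ z) - 1 = 2 * φ z / (l - φ z) := by
      field_simp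
      ring
    have h4 : (l + φ z) / (l - φ z) + 1 = 2 * l / (l - φ z) := by
      field_simp
      ring
    rw [h3, h4]
    field_simp

end Cor
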