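import Pool.Agent.helper45.Ball2.Leib
import Pool.Agent.helper45.Ball.Lim
import Pool.Agent.helper45.Cor.Disc

/-!
Module B2-FH: Bezout equation on the Siegel domain for one arbitrary function, functions of `z l`
and the functions `z i * exp (I * z l)`, `i ≠ l`.

PROOF.  First scale: let `M ≥ 1` be a bound for `|G|`, all `|g j|`; replace `G`, `g j` by `G / M`,
`g j / M`, and `v i = z i * exp (I * z l)` by `v i / M` (note `|v i|^2 ≤ y e^{-2y} ≤ 1`,
`y = im (z l)`); the lower bound becomes `δ / M`; so assume `|G|, |g j|, |v i| ≤ 1` and rename `δ`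
(`δ ≤ m + d + 1`).  Put `δ' = δ / (4 (m + d + 1))`, so `δ' ≤ 1/4`.
Choose `y₀ > 0`, `y₁` with `sqrt (2 y₀) ≤ δ'` and `sqrt y e^{-y} ≤ δ'` for `y ≥ y₁ / 2`; put
`a₁ = e^{-y₁}`, `a₀ = e^{-y₀}`, `0 < a₁ < a₀ < 1`.
Apply `sgLoc` with `k = 1 + m + d` functions (`G`, `g j`, `v i`, for `i = l` take the zero
function), `r = m + 1`, `h = g j` and `h = E`, `E t = exp (I * t)`, `ρ` small
(`ρ ≤ δ'`, `ρ ≤ (e^{-y₁/2} - e^{-y₁}) / 2`, `ρ ≤ (e^{-y₀} - e^{-2 y₀}) / 2`, `ρ ≤ e^{-2 y₁} / 2`),
and `K` large.  Let `c` be given, `W` the set of the `z ∈ Sg l` with `|g j (z l) - c j| < ρ` for all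
`j` and `|E (z l) - c_E| < ρ`.
(1) `|c j| ≥ 2 δ'` for some `j`: `|g j| ≥ δ'` on `W`, local solution `1 / g j`.
(2) Otherwise `|g j| < 3 δ'` on `W` for all `j`.
(2a) `|c_E| ≤ (e^{-y₁/2} + e^{-y₁}) / 2`: then `|E| < e^{-y₁/2}`, `y > y₁ / 2` on `W`, `|v i| ≤ δ'`,
so `|G| ≥ δ - 3 (m + d) δ' ≥ δ'`: local solution `1 / G`.
(2b) `|c_E| ≥ (e^{-y₀} + e^{-2y₀}) / 2`: `|E| > e^{-2 y₀}`, `y < 2 y₀`, `|v i| ≤ sqrt y ≤ δ'`:
local solution `1 / G`.
(2c) Otherwise `e^{-y₀} > |E| > e^{-y₁}` on `W`, `y₀ < y < y₁`.  At the points `lax l z` (their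
coordinate `l` is the same, so they lie in `W` too) all `v i` vanish, so `|G (lax l z)| ≥ δ'` for
`z ∈ W`.  Local solution: `1 / G (lax l z)` in the place of `G`, and
`- Q i z / (G (lax l z) * exp (I * z l))` in the place of `v i` (`leib`), `0` for the `g j`.
Bounds: `1 / δ'` and `(C / sqrt y₀) e^{y₁} / δ'`.
`z ↦ lax l z` maps `Sg l` to `Sg l` and is linear.
-/

noncomputable section

open Set Finset

namespace Cor

/-- the function `z i * exp (I * z l)`, zero for `i = l` -/
def FH_v {d : ℕ} (l i : Fin d) (z : Fin d → ℂ) : ℂ :=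
  if i = l then 0 else z i * Complex.exp (Complex.I * z l)

theorem FH_v_sum {d : ℕ} (l : Fin d) (z : Fin d → ℂ) (f : Fin d → ℂ) :
    ∑ i, FH_v l i z * f i =
      ∑ i ∈ Finset.univ.erase l, z i * Complex.exp (Complex.I * z l) * f i := by
  rw [← Finset.sum_erase (a := l) Finset.univ (f := fun i => FH_v l i z * f i)
    (by simp [FH_v])]
  refine Finset.sum_congr rfl fun i hi => ?_
  rw [FH_v, if_neg (Finset.ne_of_mem_erase hi)]

theorem FH_exp_norm (t : ℂ) : ‖Complex.exp (Complex.I * t)‖ = Real.exp (-t.im) := by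
  rw [Complex.norm_exp]
  congr 1
  simp

theorem FH_im_pos {d : ℕ} {l : Fin d} {z : Fin d → ℂ} (hz : z ∈ Sg l) : 0 < (z l).im := Sg_HP hz

theorem FH_coord_le {d : ℕ} {l i : Fin d} (hi : i ≠ l) {z : Fin d → ℂ} (hz : z ∈ Sg l) :
    ‖z i‖ ≤ Real.sqrt (z l).im := by
  have h1 : ∑ i ∈ Finset.univ.erase l, ‖z i‖ ^ 2 < (z l).im := hz
  have h2 : ‖z i‖ ^ 2 ≤ ∑ i ∈ Finset.univ.erase l, ‖z i‖ ^ 2 :=
    Finset.single_le_sum (f := fun i => ‖z i‖ ^ 2) (fun i _ => by positivity)
      (Finset.mem_erase.2 ⟨hi, Finset.mem_univ i⟩)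
  exact Real.le_sqrt_of_sq_le (h2.trans h1.le)

theorem FH_v_le' {d : ℕ} {l i : Fin d} {z : Fin d → ℂ} (hz : z ∈ Sg l) :
    ‖z i * Complex.exp (Complex.I * z l)‖ ≤ Real.sqrt (z l).im * Real.exp (-(z l).im) ∨ i = l := by
  by_cases hi : i = l
  · exact Or.inr hi
  · left
    rw [norm_mul, FH_exp_norm]
    exact mul_le_mul_of_nonneg_right (FH_coord_le hi hz) (Real.exp_pos _).le

theorem FH_v_le {d : ℕ} {l i : Fin d} {z : Fin d → ℂ} (hz : z ∈ Sg l) :
    ‖FH_v l i z‖ ≤ Real.sqrt (z l).im * Real.exp (-(z l).im) := by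
  unfold FH_v
  split_ifs with h
  · rw [norm_zero]
    positivity
  · exact (FH_v_le' hz).resolve_right h

theorem FH_sqrt_le {y : ℝ} (hy : 0 ≤ y) :
    Real.sqrt y * Real.exp (-y) ≤ Real.exp (-(y / 2)) := by
  have h1 : Real.sqrt y ≤ Real.exp (y / 2) := by
    apply Real.sqrt_le_iff.2 ⟨(Real.exp_pos _).le, ?_⟩
    rw [← Real.exp_nat_mul]
    have h2 := Real.add_one_le_exp y
    have h3 : ((2 : ℕ) : ℝ) * (y / 2) = y := by push_cast; ring
    rw [h3]
    linarith
  calc Real.sqrt y * Real.exp (-y) ≤ Real.exp (y / 2) * Real.exp (-y) :=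
        mul_le_mul_of_nonneg_right h1 (Real.exp_pos _).le
    _ = Real.exp (-(y / 2)) := by rw [← Real.exp_add]; congr 1; ring

theorem FH_v_diff {d : ℕ} (l i : Fin d) : Differentiable ℂ (FH_v l i) := by
  by_cases h : i = l
  · have h1 : FH_v l i = fun _ => 0 := by
      funext z
      rw [FH_v, if_pos h]
    rw [h1]
    exact differentiable_const _
  · have h1 : FH_v l i = fun z => z i * Complex.exp (Complex.I * z l) := by
      funext z
      rw [FH_v, if_neg h]
    rw [h1]
    exact (differentiable_apply i).mul ((differentiable_apply l).const_mul _).cexp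

theorem FH_lax_l {d : ℕ} (l : Fin d) (z : Fin d → ℂ) : lax l z l = z l := if_pos rfl

theorem FH_lax_mem {d : ℕ} {l : Fin d} {z : Fin d → ℂ} (hz : z ∈ Sg l) : lax l z ∈ Sg l := by
  show ∑ i ∈ Finset.univ.erase l, ‖lax l z i‖ ^ 2 < (lax l z l).im
  rw [FH_lax_l, Finset.sum_eq_zero]
  · exact FH_im_pos hz
  · intro i hi
    rw [lax, if_neg (Finset.ne_of_mem_erase hi)]
    simp

theorem FH_lax_diff {d : ℕ} (l : Fin d) : Differentiable ℂ (lax l) := by
  rw [differentiable_pi]
  intro i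
  by_cases hi : i = l
  · have h1 : (fun s : Fin d → ℂ => lax l s i) = fun s => s l := by
      funext s
      rw [lax, if_pos hi]
    rw [h1]
    exact differentiable_apply l
  · have h1 : (fun s : Fin d → ℂ => lax l s i) = fun _ => 0 := by
      funext s
      rw [lax, if_neg hi]
    rw [h1]
    exact differentiable_const _

/-- the region of a local solution -/
def FH_W {d m : ℕ} (l : Fin d) (g : Fin m → ℂ → ℂ) (ρ : ℝ) (c : Fin m → ℂ) (cE : ℂ) :
    Set (Fin d → ℂ) :=
  {z | z ∈ Sg l ∧ (∀ j, ‖g j (z l) - c j‖ < ρ) ∧ ‖Complex.exp (Complex.I * z l) - cE‖ < ρ}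

theorem FH_loc {d : ℕ} (l : Fin d) {m : ℕ} {G : (Fin d → ℂ) → ℂ}
    (hGd : DifferentiableOn ℂ G (Sg l)) (g : Fin m → ℂ → ℂ)
    (hgd : ∀ j, DifferentiableOn ℂ (g j) HP) {e y0 y1 ρ C : ℝ} (he : 0 < e) (hC : 0 ≤ C)
    (hy0 : 0 < y0)
    (hb : ∀ z ∈ Sg l, 4 * ((m : ℝ) + d + 1) * e ≤ ‖G z‖ + ∑ j, ‖g j (z l)‖ +
      ∑ i ∈ Finset.univ.erase l, ‖z i * Complex.exp (Complex.I * z l)‖)
    (h0 : Real.sqrt (2 * y0) ≤ e)
    (h1 : ∀ y, y1 / 2 ≤ y → 0 ≤ y → Real.sqrt y * Real.exp (-y) ≤ e)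
    (hρe : ρ ≤ e) (hρ1 : ρ ≤ (Real.exp (-(y1 / 2)) - Real.exp (-y1)) / 2)
    (hρ0 : ρ ≤ (Real.exp (-y0) - Real.exp (-(2 * y0))) / 2)
    {Q : Fin d → (Fin d → ℂ) → ℂ} (hQd : ∀ i, DifferentiableOn ℂ (Q i) (Sg l))
    (hQ : ∀ i, ∀ z ∈ Sg l, ‖Q i z‖ ≤ C / Real.sqrt (z l).im)
    (hQe : ∀ z ∈ Sg l, G z - G (lax l z) = ∑ i ∈ Finset.univ.erase l, z i * Q i z)
    (c : Fin m → ℂ) (cE : ℂ) :
    ∃ (A : (Fin d → ℂ) → ℂ) (B : Fin m → (Fin d → ℂ) → ℂ) (D : Fin d → (Fin d → ℂ) → ℂ),
      DifferentiableOn ℂ A (FH_W l g ρ c cE) ∧ (∀ j, DifferentiableOn ℂ (B j) (FH_W l g ρ c cE)) ∧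
      (∀ i, DifferentiableOn ℂ (D i) (FH_W l g ρ c cE)) ∧
      ∀ z ∈ FH_W l g ρ c cE, ‖A z‖ ≤ 1 / e + C / Real.sqrt y0 * Real.exp y1 / e ∧
        (∀ j, ‖B j z‖ ≤ 1 / e + C / Real.sqrt y0 * Real.exp y1 / e) ∧
        (∀ i, ‖D i z‖ ≤ 1 / e + C / Real.sqrt y0 * Real.exp y1 / e) ∧
        G z * A z + ∑ j, g j (z l) * B j z + ∑ i, FH_v l i z * D i z = 1 := by
  have hK1 : 1 / e ≤ 1 / e + C / Real.sqrt y0 * Real.exp y1 / e := by
    have : 0 ≤ C / Real.sqrt y0 * Real.exp y1 / e := by positivity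
    linarith
  have hK2 : C / Real.sqrt y0 * Real.exp y1 / e ≤ 1 / e + C / Real.sqrt y0 * Real.exp y1 / e := by
    have : 0 ≤ 1 / e := by positivity
    linarith
  have hK0 : 0 ≤ 1 / e + C / Real.sqrt y0 * Real.exp y1 / e := by positivity
  have hWS : FH_W l g ρ c cE ⊆ Sg l := fun z hz => hz.1
  have hgz : ∀ j, DifferentiableOn ℂ (fun z : Fin d → ℂ => g j (z l)) (FH_W l g ρ c cE) := fun j =>
    (hgd j).comp (differentiable_apply l).differentiableOn (fun z hz => Sg_HP (hWS hz))
  by_cases hj : ∃ j, 2 * e ≤ ‖c j‖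
  · obtain ⟨j0, hj0⟩ := hj
    have hlow : ∀ z ∈ FH_W l g ρ c cE, e ≤ ‖g j0 (z l)‖ := by
      intro z hz
      have h2 := hz.2.1 j0
      have h3 : ‖c j0‖ - ‖g j0 (z l)‖ ≤ ‖g j0 (z l) - c j0‖ := by
        rw [norm_sub_rev]
        exact norm_sub_norm_le _ _
      linarith
    have hne : ∀ z ∈ FH_W l g ρ c cE, g j0 (z l) ≠ 0 := fun z hz h => by
      have := hlow z hz
      rw [h, norm_zero] at this
      linarith
    refine ⟨fun _ => 0, fun j z => if j = j0 then (g j0 (z l))⁻¹ else 0, fun _ _ => 0,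
      differentiableOn_const _, fun j => ?_, fun _ => differentiableOn_const _, fun z hz =>
      ⟨?_, fun j => ?_, fun _ => ?_, ?_⟩⟩
    · by_cases hjj : j = j0
      · simp only [hjj, if_true]
        exact (hgz j0).inv hne
      · simp only [hjj, if_false]
        exact differentiableOn_const _
    · rw [norm_zero]
      exact hK0
    · dsimp only
      split_ifs
      · rw [norm_inv]
        refine le_trans ?_ hK1
        rw [one_div]
        exact inv_anti₀ he (hlow z hz)
      · rw [norm_zero]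
        exact hK0
    · rw [norm_zero]
      exact hK0
    · simp [hne z hz]
  · push Not at hj
    have hg3 : ∀ z ∈ FH_W l g ρ c cE, ∀ j, ‖g j (z l)‖ ≤ 3 * e := by
      intro z hz j
      have h2 := hz.2.1 j
      have h3 : ‖g j (z l)‖ - ‖c j‖ ≤ ‖g j (z l) - c j‖ := norm_sub_norm_le _ _
      have := hj j
      linarith
    -- a lower bound for `G`
    have hGlow : ∀ z ∈ FH_W l g ρ c cE, Real.sqrt (z l).im * Real.exp (-(z l).im) ≤ e →
        e ≤ ‖G z‖ := by
      intro z hz hv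
      have h2 := hb z (hWS hz)
      have h3 : ∑ j, ‖g j (z l)‖ ≤ m * (3 * e) := by
        calc ∑ j, ‖g j (z l)‖ ≤ ∑ _j : Fin m, 3 * e := Finset.sum_le_sum fun j _ => hg3 z hz j
          _ = m * (3 * e) := by simp
      have h4 : ∑ i ∈ Finset.univ.erase l, ‖z i * Complex.exp (Complex.I * z l)‖ ≤ d * e := by
        calc ∑ i ∈ Finset.univ.erase l, ‖z i * Complex.exp (Complex.I * z l)‖
            ≤ ∑ _i ∈ Finset.univ.erase l, e := Finset.sum_le_sum fun i hi =>
              ((FH_v_le' (hWS hz)).resolve_right (Finset.ne_of_mem_erase hi)).trans hv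
          _ = ((Finset.univ.erase l).card : ℝ) * e := by simp
          _ ≤ d * e := by
              refine mul_le_mul_of_nonneg_right ?_ he.le
              have h5 : (Finset.univ.erase l).card ≤ d := by
                rw [Finset.card_erase_of_mem (Finset.mem_univ l), Finset.card_fin]
                exact Nat.sub_le _ _
              exact_mod_cast h5
      have h6 : 0 ≤ (m : ℝ) * e := by positivity
      have h7 : 0 ≤ (d : ℝ) * e := by positivity
      nlinarith
    have hGsol : (∀ z ∈ FH_W l g ρ c cE, Real.sqrt (z l).im * Real.exp (-(z l).im) ≤ e) →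
        ∃ (A : (Fin d → ℂ) → ℂ) (B : Fin m → (Fin d → ℂ) → ℂ) (D : Fin d → (Fin d → ℂ) → ℂ),
        DifferentiableOn ℂ A (FH_W l g ρ c cE) ∧
        (∀ j, DifferentiableOn ℂ (B j) (FH_W l g ρ c cE)) ∧
        (∀ i, DifferentiableOn ℂ (D i) (FH_W l g ρ c cE)) ∧
        ∀ z ∈ FH_W l g ρ c cE, ‖A z‖ ≤ 1 / e + C / Real.sqrt y0 * Real.exp y1 / e ∧
          (∀ j, ‖B j z‖ ≤ 1 / e + C / Real.sqrt y0 * Real.exp y1 / e) ∧
          (∀ i, ‖D i z‖ ≤ 1 / e + C / Real.sqrt y0 * Real.exp y1 / e) ∧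
          G z * A z + ∑ j, g j (z l) * B j z + ∑ i, FH_v l i z * D i z = 1 := by
      intro hv
      have hne : ∀ z ∈ FH_W l g ρ c cE, G z ≠ 0 := fun z hz h => by
        have := hGlow z hz (hv z hz)
        rw [h, norm_zero] at this
        linarith
      refine ⟨fun z => (G z)⁻¹, fun _ _ => 0, fun _ _ => 0, (hGd.mono hWS).inv hne,
        fun _ => differentiableOn_const _, fun _ => differentiableOn_const _, fun z hz =>
        ⟨?_, fun j => ?_, fun _ => ?_, ?_⟩⟩
      · rw [norm_inv]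
        refine le_trans ?_ hK1
        rw [one_div]
        exact inv_anti₀ he (hGlow z hz (hv z hz))
      · rw [norm_zero]
        exact hK0
      · rw [norm_zero]
        exact hK0
      · simp [hne z hz]
    have hE : ∀ z ∈ FH_W l g ρ c cE, |Real.exp (-(z l).im) - ‖cE‖| < ρ := by
      intro z hz
      refine lt_of_le_of_lt ?_ hz.2.2
      rw [← FH_exp_norm]
      exact abs_norm_sub_norm_le _ _
    by_cases h2a : ‖cE‖ ≤ (Real.exp (-(y1 / 2)) + Real.exp (-y1)) / 2
    · apply hGsol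
      intro z hz
      have h2 := (abs_lt.1 (hE z hz)).2
      have h3 : Real.exp (-(z l).im) < Real.exp (-(y1 / 2)) := by linarith
      have h4 := Real.exp_lt_exp.1 h3
      exact h1 _ (by linarith) (FH_im_pos (hWS hz)).le
    · by_cases h2b : (Real.exp (-y0) + Real.exp (-(2 * y0))) / 2 ≤ ‖cE‖
      · apply hGsol
        intro z hz
        have h2 := (abs_lt.1 (hE z hz)).1
        have h3 : Real.exp (-(2 * y0)) < Real.exp (-(z l).im) := by linarith
        have h4 := Real.exp_lt_exp.1 h3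
        have h5 : 0 < (z l).im := FH_im_pos (hWS hz)
        calc Real.sqrt (z l).im * Real.exp (-(z l).im) ≤ Real.sqrt (z l).im * 1 := by
              refine mul_le_mul_of_nonneg_left ?_ (Real.sqrt_nonneg _)
              rw [Real.exp_le_one_iff]
              linarith
          _ ≤ Real.sqrt (2 * y0) := by
              rw [mul_one]
              exact Real.sqrt_le_sqrt (by linarith)
          _ ≤ e := h0
      · push Not at h2a h2b
        have hy0' : ∀ z ∈ FH_W l g ρ c cE, y0 < (z l).im := by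
          intro z hz
          have h2 := (abs_lt.1 (hE z hz)).2
          have h3 : Real.exp (-(z l).im) < Real.exp (-y0) := by linarith
          have h4 := Real.exp_lt_exp.1 h3
          linarith
        have hy1' : ∀ z ∈ FH_W l g ρ c cE, (z l).im < y1 := by
          intro z hz
          have h2 := (abs_lt.1 (hE z hz)).1
          have h3 : Real.exp (-y1) < Real.exp (-(z l).im) := by linarith
          have h4 := Real.exp_lt_exp.1 h3
          linarith
        have hlaxW : ∀ z ∈ FH_W l g ρ c cE, lax l z ∈ FH_W l g ρ c cE := by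
          intro z hz
          refine ⟨FH_lax_mem hz.1, fun j => ?_, ?_⟩
          · rw [FH_lax_l]
            exact hz.2.1 j
          · rw [FH_lax_l]
            exact hz.2.2
        have hGl : ∀ z ∈ FH_W l g ρ c cE, e ≤ ‖G (lax l z)‖ := by
          intro z hz
          have hz' := hlaxW z hz
          have h2 := hb _ (hWS hz')
          have h3 : ∑ j, ‖g j (lax l z l)‖ ≤ m * (3 * e) := by
            calc ∑ j, ‖g j (lax l z l)‖ ≤ ∑ _j : Fin m, 3 * e :=
                  Finset.sum_le_sum fun j _ => hg3 _ hz' j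
              _ = m * (3 * e) := by simp
          have h4 : ∑ i ∈ Finset.univ.erase l,
              ‖lax l z i * Complex.exp (Complex.I * lax l z l)‖ = 0 := by
            refine Finset.sum_eq_zero fun i hi => ?_
            rw [lax, if_neg (Finset.ne_of_mem_erase hi), zero_mul, norm_zero]
          rw [h4] at h2
          have h6 : 0 ≤ (m : ℝ) * e := by positivity
          have h7 : 0 ≤ (d : ℝ) * e := by positivity
          nlinarith
        have hne : ∀ z ∈ FH_W l g ρ c cE, G (lax l z) ≠ 0 := fun z hz h => by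
          have := hGl z hz
          rw [h, norm_zero] at this
          linarith
        have hGlax : DifferentiableOn ℂ (fun z => G (lax l z)) (FH_W l g ρ c cE) :=
          hGd.comp (FH_lax_diff l).differentiableOn (fun z hz => FH_lax_mem (hWS hz))
        have hden : ∀ z ∈ FH_W l g ρ c cE,
            G (lax l z) * Complex.exp (Complex.I * z l) ≠ 0 := fun z hz =>
          mul_ne_zero (hne z hz) (Complex.exp_ne_zero _)
        refine ⟨fun z => (G (lax l z))⁻¹, fun _ _ => 0,
          fun i z => - Q i z / (G (lax l z) * Complex.exp (Complex.I * z l)), hGlax.inv hne,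
          fun _ => differentiableOn_const _, fun i => ?_, fun z hz =>
          ⟨?_, fun j => ?_, fun i => ?_, ?_⟩⟩
        · have hnum : DifferentiableOn ℂ (fun z => - Q i z) (FH_W l g ρ c cE) :=
            ((hQd i).mono hWS).neg
          have hexp : DifferentiableOn ℂ
              (fun z : Fin d → ℂ => Complex.exp (Complex.I * z l)) (FH_W l g ρ c cE) :=
            ((differentiable_apply l).const_mul _).cexp.differentiableOn
          have hdenD : DifferentiableOn ℂ
              (fun z => G (lax l z) * Complex.exp (Complex.I * z l)) (FH_W l g ρ c cE) :=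
            hGlax.mul hexp
          exact (hnum.mul (hdenD.inv hden)).congr (fun z _ => div_eq_mul_inv _ _)
        · rw [norm_inv]
          refine le_trans ?_ hK1
          rw [one_div]
          exact inv_anti₀ he (hGl z hz)
        · rw [norm_zero]
          exact hK0
        · refine le_trans ?_ hK2
          rw [norm_div, norm_neg, norm_mul, FH_exp_norm]
          have h2 := hQ i z (hWS hz)
          have h3 := hGl z hz
          have h4 : C / Real.sqrt (z l).im ≤ C / Real.sqrt y0 := by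
            refine div_le_div_of_nonneg_left hC (Real.sqrt_pos.2 hy0) ?_
            exact Real.sqrt_le_sqrt (hy0' z hz).le
          have h5 : Real.exp (-y1) ≤ Real.exp (-(z l).im) :=
            Real.exp_le_exp.2 (by linarith [hy1' z hz])
          have h6 : e * Real.exp (-y1) ≤ ‖G (lax l z)‖ * Real.exp (-(z l).im) :=
            mul_le_mul h3 h5 (Real.exp_pos _).le (by positivity)
          calc ‖Q i z‖ / (‖G (lax l z)‖ * Real.exp (-(z l).im))
              ≤ (C / Real.sqrt y0) / (e * Real.exp (-y1)) :=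
                div_le_div₀ (by positivity) (h2.trans h4) (by positivity) h6
            _ = C / Real.sqrt y0 * Real.exp y1 / e := by
                rw [Real.exp_neg]
                field_simp
        · have h2 := hQe z (hWS hz)
          have h3 := hne z hz
          have h4 := Complex.exp_ne_zero (Complex.I * z l)
          rw [FH_v_sum l z (fun i => - Q i z / (G (lax l z) * Complex.exp (Complex.I * z l)))]
          have h5 : ∑ i ∈ Finset.univ.erase l, z i * Complex.exp (Complex.I * z l) *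
              (- Q i z / (G (lax l z) * Complex.exp (Complex.I * z l))) =
              - (G z - G (lax l z)) / G (lax l z) := by
            rw [h2, neg_div, Finset.sum_div, ← Finset.sum_neg_distrib]
            refine Finset.sum_congr rfl fun i _ => ?_
            field_simp
          rw [h5]
          simp only [mul_zero, Finset.sum_const_zero, add_zero]
          field_simp
          ring

/-- the case of functions bounded by one -/
theorem FH_core {d : ℕ} (l : Fin d) {m : ℕ} {G : (Fin d → ℂ) → ℂ}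
    (hGd : DifferentiableOn ℂ G (Sg l)) (hG1 : ∀ z ∈ Sg l, ‖G z‖ ≤ 1)
    (g : Fin m → ℂ → ℂ) (hg : ∀ j, Unit1 (g j))
    {δ : ℝ} (hδ : 0 < δ)
    (hb : ∀ z ∈ Sg l, δ ≤ ‖G z‖ + ∑ j, ‖g j (z l)‖ +
      ∑ i ∈ Finset.univ.erase l, ‖z i * Complex.exp (Complex.I * z l)‖) :
    ∃ (A : (Fin d → ℂ) → ℂ) (B : Fin m → (Fin d → ℂ) → ℂ) (D : Fin d → (Fin d → ℂ) → ℂ),
      HInf (Sg l) A ∧ (∀ j, HInf (Sg l) (B j)) ∧ (∀ i, HInf (Sg l) (D i)) ∧
      ∀ z ∈ Sg l, G z * A z + ∑ j, g j (z l) * B j z + ∑ i, FH_v l i z * D i z = 1 := by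
  obtain ⟨C, hC, hleib⟩ := leib l
  obtain ⟨Q, hQd, hQ, hQe⟩ := hleib G hGd hG1
  have hmd : 0 < (m : ℝ) + d + 1 := by positivity
  set e : ℝ := δ / (4 * ((m : ℝ) + d + 1)) with he_def
  have he : 0 < e := by positivity
  have hδe : δ = 4 * ((m : ℝ) + d + 1) * e := by
    rw [he_def]
    field_simp
  set y0 : ℝ := e ^ 2 / 2 with hy0_def
  have hy0 : 0 < y0 := by positivity
  have h0 : Real.sqrt (2 * y0) ≤ e := by
    rw [hy0_def, mul_div_cancel₀ _ (two_ne_zero), Real.sqrt_sq he.le]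
  set y1 : ℝ := 4 * |Real.log e| + 1 with hy1_def
  have hy1 : 0 < y1 := by positivity
  have h1 : ∀ y, y1 / 2 ≤ y → 0 ≤ y → Real.sqrt y * Real.exp (-y) ≤ e := by
    intro y hy hy'
    refine (FH_sqrt_le hy').trans ?_
    rw [← Real.exp_log he, Real.exp_le_exp]
    have := neg_abs_le (Real.log e)
    have h3 : 0 ≤ |Real.log e| := abs_nonneg _
    linarith
  set ρ : ℝ := min e (min ((Real.exp (-(y1 / 2)) - Real.exp (-y1)) / 2)
    ((Real.exp (-y0) - Real.exp (-(2 * y0))) / 2)) with hρ_def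
  have hρ : 0 < ρ := by
    refine lt_min he (lt_min ?_ ?_)
    · have : Real.exp (-y1) < Real.exp (-(y1 / 2)) := Real.exp_lt_exp.2 (by linarith)
      linarith
    · have : Real.exp (-(2 * y0)) < Real.exp (-y0) := Real.exp_lt_exp.2 (by linarith)
      linarith
  have hρe : ρ ≤ e := min_le_left _ _
  have hρ1 : ρ ≤ (Real.exp (-(y1 / 2)) - Real.exp (-y1)) / 2 :=
    (min_le_right _ _).trans (min_le_left _ _)
  have hρ0 : ρ ≤ (Real.exp (-y0) - Real.exp (-(2 * y0))) / 2 :=
    (min_le_right _ _).trans (min_le_right _ _)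
  set K : ℝ := 1 / e + C / Real.sqrt y0 * Real.exp y1 / e with hK_def
  have hK : 0 ≤ K := by positivity
  obtain ⟨C', hC', hsg⟩ := sgLoc l (1 + m + d) (m + 1) hρ hK
  -- the functions
  set F : Fin (1 + m + d) → (Fin d → ℂ) → ℂ :=
    Fin.append (Fin.append (fun _ : Fin 1 => G) (fun j z => g j (z l))) (fun i => FH_v l i) with hF
  have hFd : ∀ j, DifferentiableOn ℂ (F j) (Sg l) := by
    intro j
    refine Fin.addCases (fun j => ?_) (fun i => ?_) j
    · rw [hF, Fin.append_left]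
      refine Fin.addCases (fun j => ?_) (fun i => ?_) j
      · rw [Fin.append_left]
        exact hGd
      · rw [Fin.append_right]
        exact (hg i).1.comp (differentiable_apply l).differentiableOn (fun z hz => Sg_HP hz)
    · rw [hF, Fin.append_right]
      exact (FH_v_diff l i).differentiableOn
  have hF1 : ∀ j, ∀ z ∈ Sg l, ‖F j z‖ ≤ 1 := by
    intro j
    refine Fin.addCases (fun j => ?_) (fun i => ?_) j
    · rw [hF, Fin.append_left]
      refine Fin.addCases (fun j => ?_) (fun i => ?_) j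
      · rw [Fin.append_left]
        exact hG1
      · rw [Fin.append_right]
        exact fun z hz => (hg i).2 _ (Sg_HP hz)
    · rw [hF, Fin.append_right]
      intro z hz
      refine (FH_v_le hz).trans ((FH_sqrt_le (FH_im_pos hz).le).trans ?_)
      rw [Real.exp_le_one_iff]
      have := FH_im_pos hz
      linarith
  have hsum : ∀ (X : Fin (1 + m + d) → ℂ) (z : Fin d → ℂ), ∑ j, F j z * X j =
      G z * X (Fin.castAdd d (Fin.castAdd m 0)) +
        ∑ j, g j (z l) * X (Fin.castAdd d (Fin.natAdd 1 j)) +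
        ∑ i, FH_v l i z * X (Fin.natAdd (1 + m) i) := by
    intro X z
    rw [Fin.sum_univ_add, Fin.sum_univ_add, hF]
    simp only [Fin.append_left, Fin.append_right, Fin.sum_univ_one]
  obtain ⟨A, hAd, hA⟩ := hsg F hFd hF1
    (Fin.append g (fun _ : Fin 1 => fun t => Complex.exp (Complex.I * t))) (by
      intro i
      refine Fin.addCases (fun j => ?_) (fun i => ?_) i
      · rw [Fin.append_left]
        exact hg j
      · rw [Fin.append_right]
        refine ⟨((differentiable_id.const_mul _).cexp).differentiableOn, fun t ht => ?_⟩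
        rw [FH_exp_norm, Real.exp_le_one_iff]
        have ht' : 0 < t.im := ht
        linarith) (by
      intro c
      obtain ⟨A, B, D, hAd, hBd, hDd, hABD⟩ := FH_loc l hGd g (fun j => (hg j).1) he hC hy0
        (by rw [← hδe]; exact hb) h0 h1 hρe hρ1 hρ0 hQd hQ hQe
        (fun j => c (Fin.castAdd 1 j)) (c (Fin.natAdd m 0))
      have hW : {z | z ∈ Sg l ∧ ∀ i, ‖(Fin.append g
          (fun _ : Fin 1 => fun t => Complex.exp (Complex.I * t))) i (z l) - c i‖ < ρ} ⊆
          FH_W l g ρ (fun j => c (Fin.castAdd 1 j)) (c (Fin.natAdd m 0)) := by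
        rintro z ⟨hz, hz'⟩
        refine ⟨hz, fun j => ?_, ?_⟩
        · have := hz' (Fin.castAdd 1 j)
          rw [Fin.append_left] at this
          exact this
        · have := hz' (Fin.natAdd m 0)
          rw [Fin.append_right] at this
          exact this
      refine ⟨Fin.append (Fin.append (fun _ : Fin 1 => A) B) D, fun j => ?_, fun z hz hz' => ?_⟩
      · refine Fin.addCases (fun j => ?_) (fun i => ?_) j
        · rw [Fin.append_left]
          refine Fin.addCases (fun j => ?_) (fun i => ?_) j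
          · rw [Fin.append_left]
            exact hAd.mono hW
          · rw [Fin.append_right]
            exact (hBd i).mono hW
        · rw [Fin.append_right]
          exact (hDd i).mono hW
      · obtain ⟨hA1, hB1, hD1, heq⟩ := hABD z (hW ⟨hz, hz'⟩)
        refine ⟨fun j => ?_, ?_⟩
        · refine Fin.addCases (fun j => ?_) (fun i => ?_) j
          · rw [Fin.append_left]
            refine Fin.addCases (fun j => ?_) (fun i => ?_) j
            · rw [Fin.append_left]
              exact hA1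
            · rw [Fin.append_right]
              exact hB1 i
          · rw [Fin.append_right]
            exact hD1 i
        · rw [hsum]
          simp only [Fin.append_left, Fin.append_right]
          exact heq)
  refine ⟨A (Fin.castAdd d (Fin.castAdd m 0)), fun j => A (Fin.castAdd d (Fin.natAdd 1 j)),
    fun i => A (Fin.natAdd (1 + m) i), ⟨hAd _, C', fun z hz => (hA z hz).1 _⟩,
    fun j => ⟨hAd _, C', fun z hz => (hA z hz).1 _⟩,
    fun i => ⟨hAd _, C', fun z hz => (hA z hz).1 _⟩, fun z hz => ?_⟩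
  rw [← hsum (fun j => A j z) z]
  exact (hA z hz).2

theorem fh {d : ℕ} (l : Fin d) {m : ℕ} {G : (Fin d → ℂ) → ℂ} (hG : HInf (Sg l) G)
    (g : Fin m → ℂ → ℂ) (hg : ∀ j, DifferentiableOn ℂ (g j) HP ∧ ∃ C : ℝ, ∀ t ∈ HP, ‖g j t‖ ≤ C)
    {δ : ℝ} (hδ : 0 < δ)
    (hb : ∀ z ∈ Sg l, δ ≤ ‖G z‖ + ∑ j, ‖g j (z l)‖ +
      ∑ i ∈ Finset.univ.erase l, ‖z i * Complex.exp (Complex.I * z l)‖) :
    ∃ (A : (Fin d → ℂ) → ℂ) (B : Fin m → (Fin d → ℂ) → ℂ) (D : Fin d → (Fin d → ℂ) → ℂ),
      HInf (Sg l) A ∧ (∀ j, HInf (Sg l) (B j)) ∧ (∀ i, HInf (Sg l) (D i)) ∧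
      ∀ z ∈ Sg l, G z * A z + ∑ j, g j (z l) * B j z +
        ∑ i ∈ Finset.univ.erase l, z i * Complex.exp (Complex.I * z l) * D i z = 1 := by
  obtain ⟨hGd, C0, hC0⟩ := hG
  choose Cg hCg using fun j => (hg j).2
  set M : ℝ := 1 + |C0| + ∑ j, |Cg j| with hM_def
  have hsumnn : 0 ≤ ∑ j, |Cg j| := Finset.sum_nonneg fun j _ => abs_nonneg _
  have hM1 : 1 ≤ M := by
    have := abs_nonneg C0
    linarith
  have hM0 : 0 < M := by linarith
  have hMne : (M : ℂ) ≠ 0 := by exact_mod_cast hM0.ne'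
  have hnM : ‖(M : ℂ)⁻¹‖ = M⁻¹ := by rw [norm_inv, Complex.norm_real, Real.norm_of_nonneg hM0.le]
  have hle : ∀ x : ℂ, ‖x‖ ≤ M → ‖(M : ℂ)⁻¹ * x‖ ≤ 1 := by
    intro x hx
    rw [norm_mul, hnM, inv_mul_le_iff₀ hM0, mul_one]
    exact hx
  have hGM : ∀ z ∈ Sg l, ‖G z‖ ≤ M := by
    intro z hz
    have h1 := hC0 z hz
    have h2 := le_abs_self C0
    linarith
  have hgM : ∀ j, ∀ t ∈ HP, ‖g j t‖ ≤ M := by
    intro j t ht
    have h1 := hCg j t ht
    have h2 := le_abs_self (Cg j)
    have h3 : |Cg j| ≤ ∑ j, |Cg j| :=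
      Finset.single_le_sum (f := fun j => |Cg j|) (fun j _ => abs_nonneg _) (Finset.mem_univ j)
    have h4 := abs_nonneg C0
    linarith
  obtain ⟨A, B, D, hA, hB, hD, heq⟩ := FH_core l (G := fun z => (M : ℂ)⁻¹ * G z)
    (hGd.const_mul _) (fun z hz => hle _ (hGM z hz)) (fun j t => (M : ℂ)⁻¹ * g j t)
    (fun j => ⟨(hg j).1.const_mul _, fun t ht => hle _ (hgM j t ht)⟩)
    (δ := M⁻¹ * δ) (by positivity) (by
      intro z hz
      have h1 := hb z hz
      have h2 : M⁻¹ * δ ≤ M⁻¹ * (‖G z‖ + ∑ j, ‖g j (z l)‖ +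
          ∑ i ∈ Finset.univ.erase l, ‖z i * Complex.exp (Complex.I * z l)‖) :=
        mul_le_mul_of_nonneg_left h1 (by positivity)
      refine h2.trans ?_
      have h3 : 0 ≤ ∑ i ∈ Finset.univ.erase l, ‖z i * Complex.exp (Complex.I * z l)‖ :=
        Finset.sum_nonneg fun i _ => norm_nonneg _
      have h4 : M⁻¹ * ∑ i ∈ Finset.univ.erase l, ‖z i * Complex.exp (Complex.I * z l)‖ ≤
          ∑ i ∈ Finset.univ.erase l, ‖z i * Complex.exp (Complex.I * z l)‖ :=
        mul_le_of_le_one_left h3 (inv_le_one_of_one_le₀ hM1)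
      have h5 : ∑ j, ‖(M : ℂ)⁻¹ * g j (z l)‖ = M⁻¹ * ∑ j, ‖g j (z l)‖ := by
        rw [Finset.mul_sum]
        refine Finset.sum_congr rfl fun j _ => ?_
        rw [norm_mul, hnM]
      rw [h5, norm_mul, hnM]
      linarith)
  have hsc : ∀ f : (Fin d → ℂ) → ℂ, HInf (Sg l) f → HInf (Sg l) (fun z => (M : ℂ)⁻¹ * f z) := by
    rintro f ⟨hf, Cf, hCf⟩
    refine ⟨hf.const_mul _, M⁻¹ * Cf, fun z hz => ?_⟩
    rw [norm_mul, hnM]
    exact mul_le_mul_of_nonneg_left (hCf z hz) (by positivity)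
  refine ⟨fun z => (M : ℂ)⁻¹ * A z, fun j z => (M : ℂ)⁻¹ * B j z, D, hsc A hA,
    fun j => hsc (B j) (hB j), hD, fun z hz => ?_⟩
  have h1 := heq z hz
  rw [FH_v_sum l z (fun i => D i z)] at h1
  rw [← h1]
  congr 1
  congr 1
  · ring
  · refine Finset.sum_congr rfl fun j _ => ?_
    ring

end Cor
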