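import Pool.Agent.helper45.Ball2.Geo
import Pool.Agent.helper45.Ball2.FH

/-!
Module B2-BFH: the result of FH.lean transported to the ball, for the geodesic with parameters
`p`, `c`.

PROOF.  There is `l : Fin d` (`d = 0` is impossible since `∑ |p i|^2 = 1`).  Let `U` be as in
`Rot_exists l hp`.  The map
`Ξ z = fun i => if i = l then I * bPhi p c z else U (fun j => bZ p z j - c j) i`
sends `Bn d` to `Sg l`: `(U (Z - c)) l = ip p (Z - c) = 0`, so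
`∑_{i ≠ l} |Ξ z i|^2 = ∑ |Z i - c i|^2 < re (bPhi p c z) = im (Ξ z l)` (`Geo_phi_re`).
Inverse: for `ξ ∈ Sg l` let `Z = c + U.symm (ξ with the coordinate l replaced by 0)`
(`ip p Z = 0`), `s = - I * ξ l + 2 ip c Z - ∑ |c i|^2`, `Ξ' ξ = bpt p Z s`; then
`re s > ∑ |Z i|^2` because `∑ |Z i - c i|^2 < im (ξ l)`; `Geo_mem`, `Geo_S`, `Geo_Z` give
`Ξ' ξ ∈ Bn d`, `bS = s`, `bZ = Z`, `bPhi p c (Ξ' ξ) = - I * ξ l`, `Ξ (Ξ' ξ) = ξ`, and
`Ξ' (Ξ z) = z` (`Geo_self`).  Apply `fh l` to `G ∘ Ξ'`, `t ↦ g j (- I * t)` and `δ / d`: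
`∑ i, |(Z i - c i) e| ≤ d * ∑_{i ≠ l} |ξ i e|`, since each `|Z i - c i|` is at most
`(∑ |ξ i|^2)^{1/2} ≤ ∑_{i ≠ l} |ξ i|`.  Compose the solution with `Ξ`;
`∑_{i ≠ l} Ξ z i * e * D i = ∑ j, (Z j - c j) * e * ∑_{i ≠ l} (U e_j) i * D i`.
-/

noncomputable section

open Set Metric

namespace Cor

/-- `ip` is additive in the second variable -/
theorem BFH_ip_sub {d : ℕ} (p z w : Fin d → ℂ) :
    ip p (fun j => z j - w j) = ip p z - ip p w := by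
  unfold ip
  rw [← Finset.sum_sub_distrib]
  exact Finset.sum_congr rfl fun i _ => by ring

theorem BFH_ip_add {d : ℕ} (p z w : Fin d → ℂ) :
    ip p (fun j => z j + w j) = ip p z + ip p w := by
  unfold ip
  rw [← Finset.sum_add_distrib]
  exact Finset.sum_congr rfl fun i _ => by ring

/-- the square of the norm of a difference -/
theorem BFH_sq {d : ℕ} (c z : Fin d → ℂ) :
    ∑ i, ‖z i - c i‖ ^ 2 = ∑ i, ‖z i‖ ^ 2 - 2 * (ip c z).re + ∑ i, ‖c i‖ ^ 2 := by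
  unfold ip
  rw [Complex.re_sum, Finset.mul_sum, ← Finset.sum_sub_distrib, ← Finset.sum_add_distrib]
  refine Finset.sum_congr rfl fun i _ => ?_
  rw [← Complex.normSq_eq_norm_sq, ← Complex.normSq_eq_norm_sq, ← Complex.normSq_eq_norm_sq,
    Complex.normSq_sub]
  ring

/-- the map to the Siegel domain -/
def BFH_X {d : ℕ} (l : Fin d) (p c : Fin d → ℂ) (U : (Fin d → ℂ) ≃L[ℂ] (Fin d → ℂ))
    (z : Fin d → ℂ) : Fin d → ℂ :=
  fun i => if i = l then Complex.I * bPhi p c z else U (fun j => bZ p z j - c j) i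

/-- the coordinate `l` is replaced by zero -/
def BFH_0 {d : ℕ} (l : Fin d) (ξ : Fin d → ℂ) : Fin d → ℂ := fun i => if i = l then 0 else ξ i

/-- the other coordinates of the inverse -/
def BFH_Z {d : ℕ} (l : Fin d) (c : Fin d → ℂ) (U : (Fin d → ℂ) ≃L[ℂ] (Fin d → ℂ))
    (ξ : Fin d → ℂ) : Fin d → ℂ := fun j => U.symm (BFH_0 l ξ) j + c j

/-- the first coordinate of the inverse -/
def BFH_s {d : ℕ} (l : Fin d) (c : Fin d → ℂ) (U : (Fin d → ℂ) ≃L[ℂ] (Fin d → ℂ))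
    (ξ : Fin d → ℂ) : ℂ :=
  -Complex.I * ξ l + 2 * ip c (BFH_Z l c U ξ) - ∑ i, (‖c i‖ : ℂ) ^ 2

/-- the inverse -/
def BFH_Y {d : ℕ} (l : Fin d) (p c : Fin d → ℂ) (U : (Fin d → ℂ) ≃L[ℂ] (Fin d → ℂ))
    (ξ : Fin d → ℂ) : Fin d → ℂ := bpt p (BFH_Z l c U ξ) (BFH_s l c U ξ)

theorem BFH_re_sum {d : ℕ} (c : Fin d → ℂ) :
    (∑ i, (‖c i‖ : ℂ) ^ 2).re = ∑ i, ‖c i‖ ^ 2 := by
  rw [Complex.re_sum]
  refine Finset.sum_congr rfl fun i _ => ?_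
  rw [← Complex.ofReal_pow, Complex.ofReal_re]

variable {d : ℕ} {l : Fin d} {p c : Fin d → ℂ} {U : (Fin d → ℂ) ≃L[ℂ] (Fin d → ℂ)}

theorem BFH_Ul (hp : ∑ i, ‖p i‖ ^ 2 = 1) (hc : ip p c = 0) (hU2 : ∀ z, U z l = ip p z)
    (z : Fin d → ℂ) : U (fun j => bZ p z j - c j) l = 0 := by
  rw [hU2, BFH_ip_sub, Geo_perp hp, hc, sub_zero]

theorem BFH_sum0 (l : Fin d) (ξ : Fin d → ℂ) :
    ∑ i, ‖BFH_0 l ξ i‖ ^ 2 = ∑ i ∈ Finset.univ.erase l, ‖ξ i‖ ^ 2 := by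
  rw [← Finset.add_sum_erase _ _ (Finset.mem_univ l)]
  have h1 : ‖BFH_0 l ξ l‖ ^ 2 = 0 := by
    rw [BFH_0, if_pos rfl, norm_zero]
    ring
  rw [h1, zero_add]
  refine Finset.sum_congr rfl fun i hi => ?_
  rw [BFH_0, if_neg (Finset.ne_of_mem_erase hi)]

theorem BFH_X_mem (hp : ∑ i, ‖p i‖ ^ 2 = 1) (hc : ip p c = 0)
    (hU1 : ∀ z, ∑ i, ‖U z i‖ ^ 2 = ∑ i, ‖z i‖ ^ 2) (hU2 : ∀ z, U z l = ip p z)
    {z : Fin d → ℂ} (hz : z ∈ Bn d) : BFH_X l p c U z ∈ Sg l := by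
  show ∑ i ∈ Finset.univ.erase l, ‖BFH_X l p c U z i‖ ^ 2 < (BFH_X l p c U z l).im
  have h1 : ∑ i ∈ Finset.univ.erase l, ‖BFH_X l p c U z i‖ ^ 2 = ∑ i, ‖bZ p z i - c i‖ ^ 2 := by
    rw [← hU1, ← Finset.add_sum_erase _ _ (Finset.mem_univ l), BFH_Ul hp hc hU2, norm_zero]
    rw [show (0 : ℝ) ^ 2 = 0 by ring, zero_add]
    refine Finset.sum_congr rfl fun i hi => ?_
    rw [BFH_X, if_neg (Finset.ne_of_mem_erase hi)]
  have h2 : (BFH_X l p c U z l).im = (bPhi p c z).re := by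
    rw [BFH_X, if_pos rfl, Complex.I_mul_im]
  rw [h1, h2]
  exact Geo_phi_re hp hz c

theorem BFH_ipZ (hc : ip p c = 0) (hU2 : ∀ z, U z l = ip p z) (ξ : Fin d → ℂ) :
    ip p (BFH_Z l c U ξ) = 0 := by
  unfold BFH_Z
  rw [BFH_ip_add, hc, add_zero, ← hU2, U.apply_symm_apply, BFH_0, if_pos rfl]

theorem BFH_s_re (hU1 : ∀ z, ∑ i, ‖U z i‖ ^ 2 = ∑ i, ‖z i‖ ^ 2) {ξ : Fin d → ℂ}
    (hξ : ξ ∈ Sg l) : ∑ i, ‖BFH_Z l c U ξ i‖ ^ 2 < (BFH_s l c U ξ).re := by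
  have h1 := BFH_sq c (BFH_Z l c U ξ)
  have h2 : ∑ i, ‖BFH_Z l c U ξ i - c i‖ ^ 2 = ∑ i ∈ Finset.univ.erase l, ‖ξ i‖ ^ 2 := by
    rw [← BFH_sum0 l ξ, ← U.apply_symm_apply (BFH_0 l ξ), hU1]
    refine Finset.sum_congr rfl fun i _ => ?_
    rw [BFH_Z, add_sub_cancel_right]
  have h3 : ∑ i ∈ Finset.univ.erase l, ‖ξ i‖ ^ 2 < (ξ l).im := hξ
  have h4 : (BFH_s l c U ξ).re = (ξ l).im + 2 * (ip c (BFH_Z l c U ξ)).re - ∑ i, ‖c i‖ ^ 2 := by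
    rw [BFH_s, Complex.sub_re, Complex.add_re, BFH_re_sum]
    congr 2
    · rw [neg_mul, Complex.neg_re, Complex.I_mul_re, neg_neg]
    · rw [Complex.mul_re]
      simp
  rw [h4]
  linarith

theorem BFH_s_pos (hU1 : ∀ z, ∑ i, ‖U z i‖ ^ 2 = ∑ i, ‖z i‖ ^ 2) {ξ : Fin d → ℂ}
    (hξ : ξ ∈ Sg l) : 0 < (BFH_s l c U ξ).re :=
  lt_of_le_of_lt (Finset.sum_nonneg fun i _ => by positivity) (BFH_s_re hU1 hξ)

theorem BFH_Y_mem (hp : ∑ i, ‖p i‖ ^ 2 = 1) (hc : ip p c = 0)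
    (hU1 : ∀ z, ∑ i, ‖U z i‖ ^ 2 = ∑ i, ‖z i‖ ^ 2) (hU2 : ∀ z, U z l = ip p z)
    {ξ : Fin d → ℂ} (hξ : ξ ∈ Sg l) : BFH_Y l p c U ξ ∈ Bn d :=
  Geo_mem hp (BFH_ipZ hc hU2 ξ) (BFH_s_re hU1 hξ)

theorem BFH_Y_Z (hp : ∑ i, ‖p i‖ ^ 2 = 1) (hc : ip p c = 0)
    (hU1 : ∀ z, ∑ i, ‖U z i‖ ^ 2 = ∑ i, ‖z i‖ ^ 2) (hU2 : ∀ z, U z l = ip p z)
    {ξ : Fin d → ℂ} (hξ : ξ ∈ Sg l) : bZ p (BFH_Y l p c U ξ) = BFH_Z l c U ξ :=
  Geo_Z hp (BFH_ipZ hc hU2 ξ) (BFH_s_pos hU1 hξ)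

theorem BFH_Y_phi (hp : ∑ i, ‖p i‖ ^ 2 = 1) (hc : ip p c = 0)
    (hU1 : ∀ z, ∑ i, ‖U z i‖ ^ 2 = ∑ i, ‖z i‖ ^ 2) (hU2 : ∀ z, U z l = ip p z)
    {ξ : Fin d → ℂ} (hξ : ξ ∈ Sg l) : bPhi p c (BFH_Y l p c U ξ) = -Complex.I * ξ l := by
  rw [bPhi, BFH_Y_Z hp hc hU1 hU2 hξ]
  have h1 : bS p (BFH_Y l p c U ξ) = BFH_s l c U ξ :=
    Geo_S hp (BFH_ipZ hc hU2 ξ) (BFH_s_pos hU1 hξ)
  rw [h1, BFH_s]
  ring

theorem BFH_YX (hp : ∑ i, ‖p i‖ ^ 2 = 1) (hc : ip p c = 0) (hU2 : ∀ z, U z l = ip p z)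
    {z : Fin d → ℂ} (hz : z ∈ Bn d) : BFH_Y l p c U (BFH_X l p c U z) = z := by
  have h1 : BFH_0 l (BFH_X l p c U z) = U (fun j => bZ p z j - c j) := by
    funext i
    rw [BFH_0]
    by_cases h : i = l
    · rw [if_pos h, h, BFH_Ul hp hc hU2]
    · rw [if_neg h, BFH_X, if_neg h]
  have h2 : BFH_Z l c U (BFH_X l p c U z) = bZ p z := by
    funext j
    rw [BFH_Z, h1, U.symm_apply_apply, sub_add_cancel]
  have h3 : BFH_s l c U (BFH_X l p c U z) = bS p z := by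
    rw [BFH_s, h2, BFH_X, if_pos rfl, bPhi]
    linear_combination (-(bS p z - 2 * ip c (bZ p z) + ∑ i, (‖c i‖ : ℂ) ^ 2)) * Complex.I_mul_I
  rw [BFH_Y, h2, h3]
  exact Geo_self hp hz

theorem BFH_dX (hp : ∑ i, ‖p i‖ ^ 2 = 1) : DifferentiableOn ℂ (BFH_X l p c U) (Bn d) := by
  have h1 : DifferentiableOn ℂ (fun z : Fin d → ℂ => U (fun j => bZ p z j - c j)) (Bn d) :=
    U.differentiable.comp_differentiableOn
      (differentiableOn_pi.2 fun j => (Geo_dZ hp j).sub_const (c j))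
  refine differentiableOn_pi.2 fun i => ?_
  unfold BFH_X
  by_cases h : i = l
  · simp only [if_pos h]
    exact (Geo_dphi hp c).const_mul _
  · simp only [if_neg h]
    exact differentiableOn_pi.1 h1 i

theorem BFH_dZ (j : Fin d) : Differentiable ℂ (fun ξ => BFH_Z l c U ξ j) := by
  have h0 : Differentiable ℂ (BFH_0 l) := by
    refine differentiable_pi.2 fun i => ?_
    unfold BFH_0
    by_cases h : i = l
    · simp only [if_pos h]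
      exact differentiable_const _
    · simp only [if_neg h]
      exact differentiable_apply i
  have h1 : Differentiable ℂ (fun ξ => U.symm (BFH_0 l ξ)) := U.symm.differentiable.comp h0
  exact (differentiable_pi.1 h1 j).add_const (c j)

theorem BFH_ds : Differentiable ℂ (BFH_s l c U) := by
  have h1 : Differentiable ℂ (fun ξ => ip c (BFH_Z l c U ξ)) := by
    unfold ip
    exact Differentiable.fun_sum fun i _ => (BFH_dZ i).mul_const _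
  have h0 : Differentiable ℂ (fun ξ : Fin d → ℂ => ξ l) := differentiable_apply l
  exact ((h0.const_mul (-Complex.I)).add (h1.const_mul 2)).sub_const _

theorem BFH_dY (hU1 : ∀ z, ∑ i, ‖U z i‖ ^ 2 = ∑ i, ‖z i‖ ^ 2) :
    DifferentiableOn ℂ (BFH_Y l p c U) (Sg l) := by
  refine differentiableOn_pi.2 fun i => ?_
  show DifferentiableOn ℂ (fun ξ => ((BFH_s l c U ξ - 1) * p i + 2 * BFH_Z l c U ξ i) /
    (BFH_s l c U ξ + 1)) (Sg l)
  have h1 : Differentiable ℂ (BFH_s l c U) := BFH_ds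
  have h2 : DifferentiableOn ℂ (fun ξ => (BFH_s l c U ξ - 1) * p i + 2 * BFH_Z l c U ξ i)
      (Sg l) := (((h1.sub_const (1 : ℂ)).mul_const (p i)).add
        ((BFH_dZ i).const_mul (2 : ℂ))).differentiableOn
  have h3 : DifferentiableOn ℂ (fun ξ => BFH_s l c U ξ + 1) (Sg l) :=
    (h1.add_const (1 : ℂ)).differentiableOn
  have h4 : ∀ ξ ∈ Sg l, BFH_s l c U ξ + 1 ≠ 0 := by
    intro ξ hξ h0
    have h5 := BFH_s_pos (c := c) hU1 hξ
    have h6 := congrArg Complex.re h0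
    rw [Complex.add_re, Complex.one_re, Complex.zero_re] at h6
    linarith
  simp only [div_eq_mul_inv]
  exact h2.mul (h3.inv h4)

/-- the norms of the other coordinates -/
theorem BFH_le (hU1 : ∀ z, ∑ i, ‖U z i‖ ^ 2 = ∑ i, ‖z i‖ ^ 2) (ξ : Fin d → ℂ) (j : Fin d) :
    ‖BFH_Z l c U ξ j - c j‖ ≤ ∑ i ∈ Finset.univ.erase l, ‖ξ i‖ := by
  have h0 : 0 ≤ ∑ i ∈ Finset.univ.erase l, ‖ξ i‖ := Finset.sum_nonneg fun i _ => norm_nonneg _
  refine (sq_le_sq₀ (norm_nonneg _) h0).1 ?_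
  rw [BFH_Z, add_sub_cancel_right]
  calc ‖U.symm (BFH_0 l ξ) j‖ ^ 2 ≤ ∑ i, ‖U.symm (BFH_0 l ξ) i‖ ^ 2 :=
        Finset.single_le_sum (f := fun i => ‖U.symm (BFH_0 l ξ) i‖ ^ 2)
          (fun i _ => by positivity) (Finset.mem_univ j)
    _ = ∑ i ∈ Finset.univ.erase l, ‖ξ i‖ ^ 2 := by
        rw [← hU1, U.apply_symm_apply, BFH_sum0]
    _ ≤ (∑ i ∈ Finset.univ.erase l, ‖ξ i‖) ^ 2 :=
        Finset.sum_sq_le_sq_sum_of_nonneg fun i _ => norm_nonneg _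

theorem BFH_comp (hp : ∑ i, ‖p i‖ ^ 2 = 1) (hc : ip p c = 0)
    (hU1 : ∀ z, ∑ i, ‖U z i‖ ^ 2 = ∑ i, ‖z i‖ ^ 2) (hU2 : ∀ z, U z l = ip p z)
    {f : (Fin d → ℂ) → ℂ} (hf : HInf (Sg l) f) : HInf (Bn d) (fun z => f (BFH_X l p c U z)) := by
  obtain ⟨C, hC⟩ := hf.2
  exact ⟨hf.1.comp (BFH_dX hp) fun z hz => BFH_X_mem hp hc hU1 hU2 hz, C, fun z hz =>
    hC _ (BFH_X_mem hp hc hU1 hU2 hz)⟩

theorem BFH_sum {s : Set (Fin d → ℂ)} {J : Finset (Fin d)} {a : Fin d → ℂ}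
    {f : Fin d → (Fin d → ℂ) → ℂ} (hf : ∀ i, HInf s (f i)) :
    HInf s (fun z => ∑ i ∈ J, a i * f i z) := by
  choose hd C hC using hf
  refine ⟨DifferentiableOn.fun_sum fun i _ => (hd i).const_mul (a i),
    ∑ i ∈ J, ‖a i‖ * C i, fun z hz => ?_⟩
  refine (norm_sum_le _ _).trans (Finset.sum_le_sum fun i _ => ?_)
  rw [norm_mul]
  exact mul_le_mul_of_nonneg_left (hC i z hz) (norm_nonneg _)

theorem bfh {d : ℕ} {p c : Fin d → ℂ} (hp : ∑ i, ‖p i‖ ^ 2 = 1) (hc : ip p c = 0) {m : ℕ}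
    {G : (Fin d → ℂ) → ℂ} (hG : HInf (Bn d) G) (g : Fin m → ℂ → ℂ) (hg : ∀ j, HR (g j))
    {δ : ℝ} (hδ : 0 < δ)
    (hb : ∀ z ∈ Bn d, δ ≤ ‖G z‖ + ∑ j, ‖g j (bPhi p c z)‖ +
      ∑ i, ‖(bZ p z i - c i) * Complex.exp (-bPhi p c z)‖) :
    ∃ (A : (Fin d → ℂ) → ℂ) (B : Fin m → (Fin d → ℂ) → ℂ) (D : Fin d → (Fin d → ℂ) → ℂ),
      HInf (Bn d) A ∧ (∀ j, HInf (Bn d) (B j)) ∧ (∀ i, HInf (Bn d) (D i)) ∧
      ∀ z ∈ Bn d, G z * A z + ∑ j, g j (bPhi p c z) * B j z +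
        ∑ i, (bZ p z i - c i) * Complex.exp (-bPhi p c z) * D i z = 1 := by
  rcases Nat.eq_zero_or_pos d with hd | hd
  · subst hd
    rw [Finset.univ_eq_empty, Finset.sum_empty] at hp
    exact absurd hp zero_ne_one
  obtain ⟨l⟩ : Nonempty (Fin d) := ⟨⟨0, hd⟩⟩
  obtain ⟨U, hU1, hU2⟩ := Rot_exists l hp
  have hdr : (1 : ℝ) ≤ d := by exact_mod_cast hd
  have hneg : ∀ t ∈ HP, -Complex.I * t ∈ RHP := by
    intro t ht
    show 0 < (-Complex.I * t).re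
    rw [neg_mul, Complex.neg_re, Complex.I_mul_re, neg_neg]
    exact ht
  obtain ⟨A, B, D, hA, hB, hD, hsol⟩ := fh l (m := m) (G := fun ξ => G (BFH_Y l p c U ξ))
    ⟨hG.1.comp (BFH_dY hU1) fun ξ hξ => BFH_Y_mem hp hc hU1 hU2 hξ, by
      obtain ⟨C, hC⟩ := hG.2
      exact ⟨C, fun ξ hξ => hC _ (BFH_Y_mem hp hc hU1 hU2 hξ)⟩⟩
    (fun j t => g j (-Complex.I * t)) (fun j => ⟨(hg j).1.comp
      ((differentiable_id.const_mul (-Complex.I)).differentiableOn) hneg, by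
        obtain ⟨C, hC⟩ := (hg j).2
        exact ⟨C, fun t ht => hC _ (hneg t ht)⟩⟩)
    (δ := δ / d) (by positivity) (by
      intro ξ hξ
      have h1 := hb _ (BFH_Y_mem hp hc hU1 hU2 hξ)
      rw [BFH_Y_phi hp hc hU1 hU2 hξ, BFH_Y_Z hp hc hU1 hU2 hξ] at h1
      have h2 : ∑ i, ‖(BFH_Z l c U ξ i - c i) * Complex.exp (-(-Complex.I * ξ l))‖ ≤
          d * ∑ i ∈ Finset.univ.erase l, ‖ξ i * Complex.exp (Complex.I * ξ l)‖ := by
        have h3 : ∀ i ∈ (Finset.univ : Finset (Fin d)),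
            ‖(BFH_Z l c U ξ i - c i) * Complex.exp (-(-Complex.I * ξ l))‖ ≤
            ∑ i ∈ Finset.univ.erase l, ‖ξ i * Complex.exp (Complex.I * ξ l)‖ := by
          intro i _
          rw [neg_mul, neg_neg, norm_mul]
          simp only [norm_mul]
          rw [← Finset.sum_mul]
          exact mul_le_mul_of_nonneg_right (BFH_le hU1 ξ i) (norm_nonneg _)
        have h4 := Finset.sum_le_card_nsmul _ _ _ h3
        rw [Finset.card_univ, Fintype.card_fin, nsmul_eq_mul] at h4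
        exact h4
      rw [div_le_iff₀ (by linarith)]
      have h5 : 0 ≤ ‖G (BFH_Y l p c U ξ)‖ + ∑ j, ‖g j (-Complex.I * ξ l)‖ :=
        add_nonneg (norm_nonneg _) (Finset.sum_nonneg fun _ _ => norm_nonneg _)
      nlinarith)
  refine ⟨fun z => A (BFH_X l p c U z), fun j z => B j (BFH_X l p c U z),
    fun j z => ∑ i ∈ Finset.univ.erase l, U (Pi.single j 1) i * D i (BFH_X l p c U z),
    BFH_comp hp hc hU1 hU2 hA, fun j => BFH_comp hp hc hU1 hU2 (hB j),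
    fun j => BFH_sum (f := fun i z => D i (BFH_X l p c U z))
      (fun i => BFH_comp hp hc hU1 hU2 (hD i)), fun z hz => ?_⟩
  have h1 := hsol _ (BFH_X_mem hp hc hU1 hU2 hz)
  simp only [BFH_YX hp hc hU2 hz] at h1
  have hXl : BFH_X l p c U z l = Complex.I * bPhi p c z := by rw [BFH_X, if_pos rfl]
  have h2 : -Complex.I * BFH_X l p c U z l = bPhi p c z := by
    rw [hXl]
    linear_combination (-bPhi p c z) * Complex.I_mul_I
  have h3 : Complex.I * BFH_X l p c U z l = -bPhi p c z := by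
    rw [hXl]
    linear_combination (bPhi p c z) * Complex.I_mul_I
  rw [h2, h3] at h1
  refine Eq.trans ?_ h1
  congr 1
  have h4 : ∀ i ∈ Finset.univ.erase l, BFH_X l p c U z i =
      ∑ j, (bZ p z j - c j) * U (Pi.single j 1) i := by
    intro i hi
    rw [BFH_X, if_neg (Finset.ne_of_mem_erase hi)]
    conv_lhs => rw [pi_eq_sum_univ' (fun j => bZ p z j - c j)]
    rw [map_sum, Finset.sum_apply]
    refine Finset.sum_congr rfl fun j _ => ?_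
    rw [map_smul, Pi.smul_apply, smul_eq_mul]
  calc ∑ j, (bZ p z j - c j) * Complex.exp (-bPhi p c z) *
        ∑ i ∈ Finset.univ.erase l, U (Pi.single j 1) i * D i (BFH_X l p c U z)
      = ∑ j, ∑ i ∈ Finset.univ.erase l, (bZ p z j - c j) * U (Pi.single j 1) i *
          Complex.exp (-bPhi p c z) * D i (BFH_X l p c U z) := by
        refine Finset.sum_congr rfl fun j _ => ?_
        rw [Finset.mul_sum]
        exact Finset.sum_congr rfl fun i _ => by ring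
    _ = ∑ i ∈ Finset.univ.erase l, BFH_X l p c U z i * Complex.exp (-bPhi p c z) *
          D i (BFH_X l p c U z) := by
        rw [Finset.sum_comm]
        refine Finset.sum_congr rfl fun i hi => ?_
        rw [h4 i hi, Finset.sum_mul, Finset.sum_mul]

end Cor
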