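import Pool.Agent.helper45.Ball.RB
import Pool.Agent.helper45.Ball.Ch

/-!
Corona problem on the ball, second part (MP_a78379_an, Q1).  Definitions and coordinates at a
boundary point `p`.

`bS p z = (1 + ⟨z, p⟩) / (1 - ⟨z, p⟩)`, `bZ p z = (z - ⟨z, p⟩ p) / (1 - ⟨z, p⟩)`: Siegel coordinates
(`bS p z` has positive real part, `∑ |bZ p z|^2 < re (bS p z)`), `bpt p c s` is the point with the
coordinates `(c, s)`, `bPhi p c` is the coordinate of the retraction onto the complex geodesic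
`{bZ p z = c}`.
-/

noncomputable section

open Set Metric

namespace Cor

/-- the right half plane -/
def RHP : Set ℂ := {w | 0 < w.re}

/-- bounded holomorphic functions on the right half plane -/
def HR (h : ℂ → ℂ) : Prop := DifferentiableOn ℂ h RHP ∧ ∃ C : ℝ, ∀ w ∈ RHP, ‖h w‖ ≤ C

/-- first Siegel coordinate at `p` -/
def bS {d : ℕ} (p z : Fin d → ℂ) : ℂ := (1 + ip p z) / (1 - ip p z)

/-- the other Siegel coordinates at `p` -/
def bZ {d : ℕ} (p z : Fin d → ℂ) : Fin d → ℂ := fun i => (z i - ip p z * p i) / (1 - ip p z)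

/-- the point with Siegel coordinates `c`, `s` -/
def bpt {d : ℕ} (p c : Fin d → ℂ) (s : ℂ) : Fin d → ℂ :=
  fun i => ((s - 1) * p i + 2 * c i) / (s + 1)

/-- coordinate of the retraction onto the complex geodesic `bZ p z = c` -/
def bPhi {d : ℕ} (p c z : Fin d → ℂ) : ℂ := bS p z - 2 * ip c (bZ p z) + ∑ i, (‖c i‖ : ℂ) ^ 2

/-- functions with one dimensional behaviour at the boundary point `p` -/
def GBp (d : ℕ) (p : Fin d → ℂ) (u : (Fin d → ℂ) → ℂ) : Prop :=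
  HInf (Bn d) u ∧
  (∀ ε : ℝ, 0 < ε → ∃ Y : ℝ, ∀ z ∈ Bn d, Y ≤ (bS p z).re → ‖u z - u (bpt p 0 (bS p z))‖ ≤ ε) ∧
  ∀ c : Fin d → ℂ, ip p c = 0 → ∀ Y ε : ℝ, 0 < ε → ∃ η R : ℝ, 0 < η ∧ ∀ z ∈ Bn d,
    R ≤ ‖bS p z‖ → (bS p z).re ≤ Y → ∑ i, ‖bZ p z i - c i‖ ^ 2 < η →
      ‖u z - u (bpt p c (bPhi p c z + ∑ i, (‖c i‖ : ℂ) ^ 2))‖ ≤ ε

end Cor
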