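import Pool.Agent.helper45.Ball2.Geo
import Pool.Agent.helper45.Ball.RBc

/-!
Module B2-GC1: characters over a boundary point `p` that vanish on `exp (-bS p)`.

PROOF.  Note `bpt p 0 (bS p z) = fun i => ip p z * p i` for `z ∈ Bn d` (`(s - 1) / (s + 1) = ip p z`).
For `u ∈ GBp d p` let `φ_u t = u (t p)` (`H1`, as in `rb_cor`), `v_u z = φ_u (ip p z)`.
`φ_E t = exp (-(1 + t) / (1 - t))` is in `H1` and `φ_E (ip p z) = exp (-bS p z)`.
(1) `χ v_u = χ u`.  Let `a = χ u - χ v_u` and suppose `a ≠ 0`; let `Y` be from `GBp` for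
`ε = |a| / 4`.  `RBc_claim` with `G = u - v_u - a` (`χ G = 0`), `φ = φ_E`,
`r = min (|a| / 4) (e^{-|Y|})` gives `z` with `|G z| < |a| / 4` and `|exp (-bS p z)| < e^{-Y}`, so
`re (bS p z) > Y` and `|u z - v_u z| ≤ |a| / 4`: contradiction.
(2) `RBc_claim` with `G = F - χ F`, the functions `φ_E` and `φ_{u j}`, and small `r'`: a point `z`
with `|F z - χ F| < r`, `|v_{u j} z - χ (u j)| < r / 2`, `|exp (-bS p z)|` small, so
`|u j z - v_{u j} z| ≤ r / 2` (`GBp` with `ε = r / 4`), and `|1 - ip p z| < r / 4`, so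
`∑ |z_i - p_i|^2 < r` (`RB_near'`).
-/

noncomputable section

open Set Metric

namespace Cor

/-- `exp (-(1 + t) / (1 - t))` -/
def GC1_E (t : ℂ) : ℂ := Complex.exp (-((1 + t) / (1 - t)))

theorem GC1_ne {t : ℂ} (ht : ‖t‖ < 1) : 1 - t ≠ 0 := by
  intro h
  have h1 : t = 1 := (sub_eq_zero.1 h).symm
  rw [h1, norm_one] at ht
  exact lt_irrefl _ ht

theorem GC1_re {t : ℂ} (ht : ‖t‖ < 1) : 0 ≤ ((1 + t) / (1 - t)).re := by
  rw [Complex.div_re, ← add_div]
  apply div_nonneg _ (Complex.normSq_nonneg _)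
  have h1 : t.re ^ 2 + t.im ^ 2 = ‖t‖ ^ 2 := by
    rw [← Complex.normSq_eq_norm_sq, Complex.normSq_apply]
    ring
  have h2 : ‖t‖ ^ 2 ≤ 1 := by nlinarith [norm_nonneg t]
  simp only [Complex.add_re, Complex.sub_re, Complex.add_im, Complex.sub_im, Complex.one_re,
    Complex.one_im]
  nlinarith

theorem GC1_E_H1 : H1 GC1_E := by
  refine ⟨?_, 1, fun t ht => ?_⟩
  · intro t ht
    rw [mem_ball_zero_iff] at ht
    have h1 : DifferentiableAt ℂ (fun t : ℂ => (1 + t) / (1 - t)) t :=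
      ((differentiableAt_const 1).add differentiableAt_id).div
        ((differentiableAt_const 1).sub differentiableAt_id) (GC1_ne ht)
    exact (h1.neg.cexp).differentiableWithinAt
  · rw [mem_ball_zero_iff] at ht
    rw [GC1_E, Complex.norm_exp, Complex.neg_re]
    have h1 := GC1_re ht
    rw [Real.exp_le_one_iff]
    linarith

theorem GC1_E_ip {d : ℕ} (p z : Fin d → ℂ) :
    GC1_E (ip p z) = Complex.exp (-bS p z) := rfl

theorem GC1_bpt {d : ℕ} {p : Fin d → ℂ} (hp : ∑ i, ‖p i‖ ^ 2 = 1) {z : Fin d → ℂ}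
    (hz : z ∈ Bn d) : bpt p 0 (bS p z) = fun i => ip p z * p i := by
  have h1 : 1 - ip p z ≠ 0 := GC1_ne (ip_ball hp hz)
  have h2 : bS p z + 1 = 2 / (1 - ip p z) := by
    rw [bS]
    field_simp
    ring
  have h3 : bS p z - 1 = 2 * ip p z / (1 - ip p z) := by
    rw [bS]
    field_simp
    ring
  funext i
  rw [bpt, h2, h3]
  simp only [Pi.zero_apply, mul_zero, add_zero]
  field_simp

theorem GC1_phi {d : ℕ} {p : Fin d → ℂ} (hp : ∑ i, ‖p i‖ ^ 2 = 1) {u : (Fin d → ℂ) → ℂ}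
    (hu : HInf (Bn d) u) : H1 (fun t => u (fun i => t * p i)) := by
  obtain ⟨h1, C, hC⟩ := hu
  refine ⟨?_, C, fun t ht => hC _ (RB_slice hp (by rwa [mem_ball_zero_iff] at ht))⟩
  have h2 : DifferentiableOn ℂ (fun t : ℂ => (fun i => t * p i)) (ball 0 1) := by
    rw [differentiableOn_pi]
    intro i
    exact differentiableOn_id.mul_const (p i)
  exact h1.comp h2 fun t ht => RB_slice hp (by rwa [mem_ball_zero_iff] at ht)

theorem GC1_psi {d : ℕ} {p : Fin d → ℂ} (hp : ∑ i, ‖p i‖ ^ 2 = 1) {φ : ℂ → ℂ}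
    (hφ : H1 φ) : HInf (Bn d) (fun z => φ (ip p z)) := by
  obtain ⟨h1, C, hC⟩ := hφ
  have h3 : MapsTo (ip p) (Bn d) (ball 0 1) := fun z hz => by
    rw [mem_ball_zero_iff]
    exact ip_ball hp hz
  exact ⟨h1.comp (RBc_ip p).1 h3, C, fun z hz => hC _ (h3 hz)⟩

theorem GC1_exp {d : ℕ} {p z : Fin d → ℂ} {Y : ℝ}
    (h : ‖Complex.exp (-bS p z)‖ < Real.exp (-Y)) : Y ≤ (bS p z).re := by
  rw [Complex.norm_exp, Complex.neg_re, Real.exp_lt_exp] at h
  linarith

set_option synthInstance.maxHeartbeats 400000 in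
/-- the first step -/
theorem GC1_chi {d : ℕ} {p : Fin d → ℂ} (hp : ∑ i, ‖p i‖ ^ 2 = 1) (χ : HA (Bn d) →ₐ[ℂ] ℂ)
    (hχp : χ (HX (Bn d) (ip p)) = 1)
    (hE : χ (HX (Bn d) (fun z => Complex.exp (-bS p z))) = 0)
    {u : (Fin d → ℂ) → ℂ} (hu : GBp d p u) :
    χ (HX (Bn d) (fun z => u (fun i => ip p z * p i))) = χ (HX (Bn d) u) := by
  have hv : HInf (Bn d) (fun z => u (fun i => ip p z * p i)) :=
    GC1_psi hp (GC1_phi hp hu.1)
  by_contra hne
  have hsub : HInf (Bn d) (fun z => u z - u (fun i => ip p z * p i)) ∧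
      χ (HX (Bn d) (fun z => u z - u (fun i => ip p z * p i))) =
        χ (HX (Bn d) u) - χ (HX (Bn d) (fun z => u (fun i => ip p z * p i))) := by
    have hm := HInf_mul (HInf_const (Bn d) (-1)) hv
    have h0 : (fun z => u z - u (fun i => ip p z * p i)) =
        fun z => u z + (fun z => (-1 : ℂ) * u (fun i => ip p z * p i)) z := by
      funext z
      ring
    rw [h0]
    refine ⟨HInf_add hu.1 hm, ?_⟩
    have h3 : χ (HX (Bn d) u + HX (Bn d) (fun z => (-1 : ℂ) * u (fun i => ip p z * p i))) =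
        χ (HX (Bn d) u) + χ (HX (Bn d) (fun z => (-1 : ℂ) * u (fun i => ip p z * p i))) :=
      map_add χ _ _
    have h4 : χ (HX (Bn d) (fun _ => (-1 : ℂ)) * HX (Bn d) (fun z => u (fun i => ip p z * p i))) =
        χ (HX (Bn d) (fun _ => (-1 : ℂ))) * χ (HX (Bn d) (fun z => u (fun i => ip p z * p i))) :=
      map_mul χ _ _
    rw [HX_add hu.1 hm, h3, HX_mul (HInf_const (Bn d) (-1)) hv, h4, HX_const, AlgHom.commutes]
    simp [sub_eq_add_neg]
  set a : ℂ := χ (HX (Bn d) u) - χ (HX (Bn d) (fun z => u (fun i => ip p z * p i))) with ha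
  have ha0 : 0 < ‖a‖ := by
    rw [norm_pos_iff]
    intro h
    exact hne (sub_eq_zero.1 h).symm
  obtain ⟨Y, hY⟩ := hu.2.1 (‖a‖ / 4) (by positivity)
  obtain ⟨hG, hχG⟩ := RBc_sub χ hsub.1 a
  rw [hsub.2, sub_self] at hχG
  obtain ⟨z, hz, h1, -, h3⟩ := RBc_claim χ hp hχp (fun _ : Fin 1 => GC1_E)
    (fun _ => GC1_E_H1) (fun _ => 0) (fun _ => GC1_psi hp GC1_E_H1) (fun _ => hE) hG hχG
    (r := min (‖a‖ / 4) (Real.exp (-|Y|))) (lt_min (by positivity) (Real.exp_pos _))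
  have h4 := (h3 0).trans_le (min_le_right _ _)
  rw [sub_zero, GC1_E_ip] at h4
  have h5 := hY z hz ((le_abs_self Y).trans (GC1_exp h4))
  rw [GC1_bpt hp hz] at h5
  have h6 := h1.trans_le (min_le_left _ _)
  have h7 : ‖a‖ ≤ ‖u z - u (fun i => ip p z * p i)‖ +
      ‖u z - u (fun i => ip p z * p i) - a‖ := by
    have h8 : a = (u z - u (fun i => ip p z * p i)) - (u z - u (fun i => ip p z * p i) - a) := by
      ring
    conv_lhs => rw [h8]
    exact norm_sub_le _ _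
  linarith

theorem gc1 {d : ℕ} {p : Fin d → ℂ} (hp : ∑ i, ‖p i‖ ^ 2 = 1) (χ : HA (Bn d) →ₐ[ℂ] ℂ)
    (hχp : χ (HX (Bn d) (ip p)) = 1)
    (hE : χ (HX (Bn d) (fun z => Complex.exp (-bS p z))) = 0) {m : ℕ}
    (u : Fin m → (Fin d → ℂ) → ℂ) (hu : ∀ j, GBp d p (u j)) {F : (Fin d → ℂ) → ℂ}
    (hF : HInf (Bn d) F) {r : ℝ} (hr : 0 < r) :
    ∃ z ∈ Bn d, ∑ i, ‖z i - p i‖ ^ 2 < r ∧ ‖F z - χ (HX (Bn d) F)‖ < r ∧
      ∀ j, ‖u j z - χ (HX (Bn d) (u j))‖ < r := by
  choose Y hY using fun j => (hu j).2.1 (r / 4) (by positivity)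
  obtain ⟨hG, hχG⟩ := RBc_sub χ hF (χ (HX (Bn d) F))
  rw [sub_self] at hχG
  obtain ⟨z, hz, h1, h2, h3⟩ := RBc_claim χ hp hχp
    (Fin.cons GC1_E fun j t => u j (fun i => t * p i) : Fin (m + 1) → ℂ → ℂ)
    (fun j => by
      refine Fin.cases ?_ (fun i => ?_) j
      · exact GC1_E_H1
      · exact GC1_phi hp (hu i).1)
    (Fin.cons 0 fun j => χ (HX (Bn d) (u j)) : Fin (m + 1) → ℂ)
    (fun j => by
      refine Fin.cases ?_ (fun i => ?_) j
      · exact GC1_psi hp GC1_E_H1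
      · exact GC1_psi hp (GC1_phi hp (hu i).1))
    (fun j => by
      refine Fin.cases ?_ (fun i => ?_) j
      · exact hE
      · exact GC1_chi hp χ hχp hE (hu i)) hG hχG
    (r := min (r / 4) (Real.exp (-∑ j, |Y j|))) (lt_min (by positivity) (Real.exp_pos _))
  have h4 : ‖GC1_E (ip p z) - 0‖ < Real.exp (-∑ j, |Y j|) := (h3 0).trans_le (min_le_right _ _)
  rw [sub_zero, GC1_E_ip] at h4
  have h5 := GC1_exp h4
  have h6 : ∀ j, Y j ≤ (bS p z).re := by
    intro j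
    have h7 := Finset.single_le_sum (f := fun j => |Y j|) (fun _ _ => abs_nonneg _)
      (Finset.mem_univ j)
    exact (le_abs_self _).trans (h7.trans h5)
  refine ⟨z, hz, ?_, ?_, fun j => ?_⟩
  · have h7 := RB_near' hp hz
    have h8 := h2.trans_le (min_le_left _ _)
    linarith
  · have h8 := h1.trans_le (min_le_left _ _)
    linarith
  · have h7 := hY j z hz (h6 j)
    rw [GC1_bpt hp hz] at h7
    have h8 : ‖u j (fun i => ip p z * p i) - χ (HX (Bn d) (u j))‖ < r / 4 :=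
      (h3 (Fin.succ j)).trans_le (min_le_left _ _)
    have h9 : u j z - χ (HX (Bn d) (u j)) = (u j z - u j (fun i => ip p z * p i)) +
        (u j (fun i => ip p z * p i) - χ (HX (Bn d) (u j))) := by ring
    rw [h9]
    refine (norm_add_le _ _).trans_lt ?_
    linarith

end Cor
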