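import Pool.Agent.helper45.Ball2.BFH
import Pool.Agent.helper45.Ball.RBc

/-!
Module B2-GC2: characters over a boundary point `p` that do not vanish on `exp (-bS p)`.

PROOF.  Write `Z = bZ p z`, `S = bS p z`, `Φ = bPhi p c z`, `E = exp (-S)`, `E_c = exp (-Φ)`,
`|c|^2 = ∑ |c i|^2`.
`gc2_claim`: otherwise the functions `G`, `g j (Φ) - χ (g j ∘ Φ)`, `(Z i - c i) E_c` have absolute
values with sum `≥ r` on the ball; `bfh` gives a Bezout equation; `χ` vanishes on all of them: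
contradiction by `char_no`.
`gc2_c` (existence of `c`): `c i = χ (Z i E) / χ E` (`Geo_HV` with `c = 0`, `Geo_zero`).
 (a) `ip p c = χ (ip p Z * E) / χ E = 0` (`Geo_perp`).
 (b) `χ E_c ≠ 0`: `E^2 = E_c * M`, `M = exp (-S - 2 ip c Z + |c|^2)` is bounded because
 `re (S + 2 ip c Z - |c|^2) ≥ |Z|^2 - 2 |c| |Z| - |c|^2 ≥ -2 |c|^2`.
 (c) `χ ((Z i - c i) E_c) = 0`: `(Z i - c i) E_c E = ((Z i - c i) E) E_c`, and
 `χ ((Z i - c i) E) = χ (Z i E) - c i χ E = 0`, `χ E ≠ 0`.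
 (d) `χ ((1 + Φ)⁻¹) = 0`: `(1 + Φ)⁻¹ = (1 - ip p z) * ((S + 1) / (2 (1 + Φ)))` and the second factor
 is bounded: `|S + 1| ≤ |Φ + 1| + 2 |c| |Z| + |c|^2`, `|Z| ≤ |c| + sqrt (re Φ) ≤ |c| + |1 + Φ|`,
 `|1 + Φ| ≥ 1`.
`gc2`: for `u ∈ GBp d p` let `h_u t = u (bpt p c (t + |c|^2))` (`HR`, by `Geo_mem`),
`v_u z = h_u Φ`.
 (e) `χ v_u = χ u`: let `a = χ u - χ v_u`, suppose `a ≠ 0`; let `κ = |χ E_c| > 0`.  For
 `z ∈ Bn d` with `|E_c - χ E_c| ≤ κ / 2`, `|Z - c| ≤ 1`: `re Φ ≤ log (2 / κ)`,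
 `re S = re (Φ + 2 ip c Z - |c|^2) ≤ Y := log (2 / κ) + 2 |c| (|c| + 1)`.  Let `η`, `R` be from
 `GBp` for `c`, `Y`, `ε = |a| / 4`.  `gc2_claim` with `G = u - v_u - a`, the functions
 `t ↦ (1 + t)⁻¹`, `t ↦ exp (-t)` and a small `r` gives `z` with `|E_c - χ E_c| ≤ κ / 2`,
 `|Z i - c i| ≤ 2 r / κ`, `|1 + Φ| > 1 / r`, so `|S| ≥ 1 / r - 1 - 2 |c| (|c| + 1) - |c|^2 ≥ R`:
 `|u z - v_u z| ≤ |a| / 4`, contradiction to `|G z| < |a| / 4`.
 (f) `gc2_claim` with `G = F - χ F` and the functions `(1 + t)⁻¹`, `exp (-t)`, `h_{u j}` and small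
 `r`; `∑ |z_i - p_i|^2 ≤ 4 / |S + 1|` (`Geo_near`).
-/

noncomputable section

open Set Metric

namespace Cor

theorem gc2_claim {d : ℕ} {p c : Fin d → ℂ} (hp : ∑ i, ‖p i‖ ^ 2 = 1) (hc : ip p c = 0)
    (χ : HA (Bn d) →ₐ[ℂ] ℂ)
    (hV : ∀ i, χ (HX (Bn d) (fun z => (bZ p z i - c i) * Complex.exp (-bPhi p c z))) = 0) {m : ℕ}
    (g : Fin m → ℂ → ℂ) (hg : ∀ j, HR (g j)) {G : (Fin d → ℂ) → ℂ} (hG : HInf (Bn d) G)
    (hχG : χ (HX (Bn d) G) = 0) {r : ℝ} (hr : 0 < r) :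
    ∃ z ∈ Bn d, ‖G z‖ < r ∧
      (∀ j, ‖g j (bPhi p c z) - χ (HX (Bn d) (fun z => g j (bPhi p c z)))‖ < r) ∧
      ∀ i, ‖(bZ p z i - c i) * Complex.exp (-bPhi p c z)‖ < r := by
  by_contra hno
  push Not at hno
  set a : Fin m → ℂ := fun j => χ (HX (Bn d) (fun z => g j (bPhi p c z))) with ha
  have hgr : ∀ j, HR (fun t => g j t - a j) := by
    intro j
    obtain ⟨h1, C, hC⟩ := hg j
    exact ⟨h1.sub_const _, C + ‖a j‖, fun w hw => (norm_sub_le _ _).trans (by linarith [hC w hw])⟩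
  have hlow : ∀ z ∈ Bn d, r ≤ ‖G z‖ + ∑ j, ‖g j (bPhi p c z) - a j‖ +
      ∑ i, ‖(bZ p z i - c i) * Complex.exp (-bPhi p c z)‖ := by
    intro z hz
    by_contra hlt
    push Not at hlt
    have n1 : 0 ≤ ∑ j, ‖g j (bPhi p c z) - a j‖ := Finset.sum_nonneg fun _ _ => norm_nonneg _
    have n2 : 0 ≤ ∑ i, ‖(bZ p z i - c i) * Complex.exp (-bPhi p c z)‖ :=
      Finset.sum_nonneg fun _ _ => norm_nonneg _
    have n0 := norm_nonneg (G z)
    obtain ⟨i, hi⟩ := hno z hz (by linarith) (fun j => by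
      have h1 := Finset.single_le_sum (f := fun j => ‖g j (bPhi p c z) - a j‖)
        (fun _ _ => norm_nonneg _) (Finset.mem_univ j)
      linarith)
    have h1 := Finset.single_le_sum
      (f := fun i => ‖(bZ p z i - c i) * Complex.exp (-bPhi p c z)‖)
      (fun _ _ => norm_nonneg _) (Finset.mem_univ i)
    linarith
  obtain ⟨A, B, D, hA, hB, hD, hABD⟩ := bfh hp hc hG (fun j t => g j t - a j) hgr hr hlow
  refine char_no χ (κ := Option (Fin m ⊕ Fin d))
    (f := fun o => o.elim G (fun s => s.elim (fun j z => g j (bPhi p c z) - a j)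
      (fun i z => (bZ p z i - c i) * Complex.exp (-bPhi p c z))))
    (A := fun o => o.elim A (fun s => s.elim B D)) ?_ ?_ ?_ ?_
  · rintro (_ | (j | i))
    · exact hG
    · exact (RBc_sub χ (Geo_HR hp c (hg j)) (a j)).1
    · exact Geo_HV hp c i
  · rintro (_ | (j | i))
    · exact hχG
    · exact (RBc_sub χ (Geo_HR hp c (hg j)) (a j)).2.trans (sub_self _)
    · exact hV i
  · rintro (_ | (j | i))
    · exact hA
    · exact hB j
    · exact hD i
  · intro z hz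
    rw [Fintype.sum_option, Fintype.sum_sum_type, ← add_assoc]
    exact hABD z hz

theorem GC2_exp : HR (fun t => Complex.exp (-t)) := by
  refine ⟨fun t _ => (Complex.differentiable_exp.comp differentiable_neg t).differentiableWithinAt,
    1, fun w hw => ?_⟩
  have hw' : 0 < w.re := hw
  rw [Complex.norm_exp, Complex.neg_re, Real.exp_le_one_iff]
  linarith

theorem GC2_inv : HR (fun t => (1 + t)⁻¹) := by
  have h1 : ∀ w ∈ RHP, 1 ≤ ‖1 + w‖ := by
    intro w hw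
    have hw' : 0 < w.re := hw
    have h2 := Complex.re_le_norm (1 + w)
    rw [Complex.add_re, Complex.one_re] at h2
    linarith
  refine ⟨fun w hw => ?_, 1, fun w hw => ?_⟩
  · have h2 : (1 + w) ≠ 0 := by
      intro h0
      have := h1 w hw
      rw [h0, norm_zero] at this
      linarith
    exact (((differentiableAt_const 1).add differentiableAt_id).inv h2).differentiableWithinAt
  · rw [norm_inv]
    exact inv_le_one_of_one_le₀ (h1 w hw)

theorem GC2_HX {d : ℕ} (χ : HA (Bn d) →ₐ[ℂ] ℂ) {f g h k : (Fin d → ℂ) → ℂ} (hf : HInf (Bn d) f)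
    (hg : HInf (Bn d) g) (hh : HInf (Bn d) h) (hk : HInf (Bn d) k)
    (e : ∀ z ∈ Bn d, f z * g z = h z * k z) :
    χ (HX (Bn d) f) * χ (HX (Bn d) g) = χ (HX (Bn d) h) * χ (HX (Bn d) k) := by
  rw [← map_mul, ← map_mul, ← HX_mul hf hg, ← HX_mul hh hk, HX_congr e]

theorem GC2_ipc {d : ℕ} (c : Fin d → ℂ) : ip c c = ∑ i, (‖c i‖ : ℂ) ^ 2 := by
  unfold ip
  refine Finset.sum_congr rfl fun i _ => ?_
  rw [Complex.mul_conj, Complex.normSq_eq_norm_sq]
  push_cast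
  rfl

theorem GC2_ipsub {d : ℕ} (c x y : Fin d → ℂ) : ip c (fun i => x i - y i) = ip c x - ip c y := by
  unfold ip
  rw [← Finset.sum_sub_distrib]
  exact Finset.sum_congr rfl fun i _ => by ring

theorem GC2_S {d : ℕ} (p c z : Fin d → ℂ) :
    bS p z = bPhi p c z + 2 * ip c (fun i => bZ p z i - c i) + ∑ i, (‖c i‖ : ℂ) ^ 2 := by
  rw [GC2_ipsub, GC2_ipc]
  unfold bPhi
  ring

theorem GC2_ipn {d : ℕ} (p c z : Fin d → ℂ) :
    2 * ‖ip c (fun i => bZ p z i - c i)‖ ≤ ∑ i, ‖c i‖ ^ 2 + ∑ i, ‖bZ p z i - c i‖ ^ 2 := by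
  have h1 := ip_le c (fun i => bZ p z i - c i)
  have h2 : 0 ≤ ∑ i, ‖c i‖ ^ 2 := Finset.sum_nonneg fun _ _ => by positivity
  have h3 : 0 ≤ ∑ i, ‖bZ p z i - c i‖ ^ 2 := Finset.sum_nonneg fun _ _ => by positivity
  have h4 := norm_nonneg (ip c (fun i => bZ p z i - c i))
  nlinarith [sq_nonneg (∑ i, ‖c i‖ ^ 2 - ∑ i, ‖bZ p z i - c i‖ ^ 2)]

theorem GC2_cn {d : ℕ} (c : Fin d → ℂ) : ‖∑ i, (‖c i‖ : ℂ) ^ 2‖ = ∑ i, ‖c i‖ ^ 2 := by
  have h : ∑ i, (‖c i‖ : ℂ) ^ 2 = ((∑ i, ‖c i‖ ^ 2 : ℝ) : ℂ) := by push_cast; rfl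
  rw [h, Complex.norm_real, Real.norm_of_nonneg (Finset.sum_nonneg fun _ _ => by positivity)]

theorem GC2_dist {d : ℕ} (p c z : Fin d → ℂ) :
    ‖bS p z - bPhi p c z‖ ≤ 2 * ∑ i, ‖c i‖ ^ 2 + ∑ i, ‖bZ p z i - c i‖ ^ 2 := by
  have e : bS p z - bPhi p c z = 2 * ip c (fun i => bZ p z i - c i) + ∑ i, (‖c i‖ : ℂ) ^ 2 := by
    rw [GC2_S p c z]; ring
  rw [e]
  refine (norm_add_le _ _).trans ?_
  rw [norm_mul, GC2_cn]
  have h1 := GC2_ipn p c z
  have h2 : ‖(2 : ℂ)‖ = 2 := by norm_num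
  rw [h2]
  linarith

theorem gc2_c {d : ℕ} {p : Fin d → ℂ} (hp : ∑ i, ‖p i‖ ^ 2 = 1) (χ : HA (Bn d) →ₐ[ℂ] ℂ)
    (hχp : χ (HX (Bn d) (ip p)) = 1)
    (hE : χ (HX (Bn d) (fun z => Complex.exp (-bS p z))) ≠ 0) :
    ∃ c : Fin d → ℂ, ip p c = 0 ∧
      (∀ i, χ (HX (Bn d) (fun z => (bZ p z i - c i) * Complex.exp (-bPhi p c z))) = 0) ∧
      χ (HX (Bn d) (fun z => Complex.exp (-bPhi p c z))) ≠ 0 ∧
      χ (HX (Bn d) (fun z => (1 + bPhi p c z)⁻¹)) = 0 := by
  have hEH : HInf (Bn d) (fun z => Complex.exp (-bS p z)) := by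
    have := Geo_HR hp 0 GC2_exp
    simpa only [Geo_zero] using this
  have hZE : ∀ i, HInf (Bn d) (fun z => bZ p z i * Complex.exp (-bS p z)) := by
    intro i
    have := Geo_HV hp 0 i
    simpa only [Geo_zero, Pi.zero_apply, sub_zero] using this
  set e : ℂ := χ (HX (Bn d) (fun z => Complex.exp (-bS p z))) with he
  set c : Fin d → ℂ := fun i => χ (HX (Bn d) (fun z => bZ p z i * Complex.exp (-bS p z))) / e
    with hc
  have hce : ∀ i, χ (HX (Bn d) (fun z => bZ p z i * Complex.exp (-bS p z))) = c i * e := by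
    intro i
    rw [hc]
    field_simp
  have hc0 : ip p c = 0 := by
    have h1 : HX (Bn d) (fun z => ∑ i, bZ p z i * Complex.exp (-bS p z) *
        (starRingEnd ℂ) (p i)) = ∑ i, HX (Bn d) (fun z => bZ p z i * Complex.exp (-bS p z) *
        (starRingEnd ℂ) (p i)) :=
      HX_sum Finset.univ (fun i _ => HInf_mul (hZE i) (HInf_const _ _))
    have h2 : HX (Bn d) (fun z => ∑ i, bZ p z i * Complex.exp (-bS p z) *
        (starRingEnd ℂ) (p i)) = HX (Bn d) (fun _ => (0 : ℂ)) := by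
      refine HX_congr fun z hz => ?_
      have h3 := Geo_perp (z := z) hp
      unfold ip at h3
      calc ∑ i, bZ p z i * Complex.exp (-bS p z) * (starRingEnd ℂ) (p i) =
          (∑ i, bZ p z i * (starRingEnd ℂ) (p i)) * Complex.exp (-bS p z) := by
            rw [Finset.sum_mul]
            exact Finset.sum_congr rfl fun i _ => by ring
        _ = 0 := by rw [h3, zero_mul]
    rw [h2, HX_const, map_zero] at h1
    have h4 := congrArg χ h1
    rw [map_zero, map_sum] at h4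
    have h5 : ∀ i, χ (HX (Bn d) (fun z => bZ p z i * Complex.exp (-bS p z) *
        (starRingEnd ℂ) (p i))) = (c i * (starRingEnd ℂ) (p i)) * e := by
      intro i
      rw [HX_mul (hZE i) (HInf_const _ _), HX_const, map_mul, AlgHom.commutes, hce]
      show c i * e * (starRingEnd ℂ) (p i) = _
      ring
    rw [Finset.sum_congr rfl fun i _ => h5 i, ← Finset.sum_mul] at h4
    rcases mul_eq_zero.1 h4.symm with h6 | h6
    · exact h6
    · exact absurd h6 hE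
  have hEc : HInf (Bn d) (fun z => Complex.exp (-bPhi p c z)) := Geo_HR hp c GC2_exp
  have hEm : HInf (Bn d) (fun z => Complex.exp (-bPhi p (-c) z)) := Geo_HR hp (-c) GC2_exp
  -- the value of `E_c`
  have hne : χ (HX (Bn d) (fun z => Complex.exp (-bPhi p c z))) ≠ 0 := by
    intro h0
    have h1 := GC2_HX χ hEH hEH hEc
      (HInf_mul hEm (HInf_const _ (Complex.exp (2 * ∑ i, (‖c i‖ : ℂ) ^ 2)))) (fun z _ => by
        rw [← Complex.exp_add, ← Complex.exp_add, ← Complex.exp_add]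
        congr 1
        unfold bPhi
        have e1 : ip (-c) (bZ p z) = - ip c (bZ p z) := by
          unfold ip
          rw [← Finset.sum_neg_distrib]
          refine Finset.sum_congr rfl fun i _ => ?_
          rw [Pi.neg_apply, map_neg]
          ring
        have e2 : ∀ i, ‖(-c) i‖ = ‖c i‖ := fun i => by rw [Pi.neg_apply, norm_neg]
        simp only [e1, e2]
        ring)
    rw [h0, zero_mul] at h1
    exact hE (mul_self_eq_zero.1 h1)
  refine ⟨c, hc0, fun i => ?_, hne, ?_⟩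
  · have hZc : HInf (Bn d) (fun z => (bZ p z i - c i) * Complex.exp (-bS p z)) := by
      have h1 := HInf_add (hZE i) (HInf_mul (HInf_const (Bn d) (-c i)) hEH)
      have h2 : (fun z => (bZ p z i - c i) * Complex.exp (-bS p z)) =
          fun z => bZ p z i * Complex.exp (-bS p z) + -c i * Complex.exp (-bS p z) := by
        funext z; ring
      rw [h2]; exact h1
    have hZ0 : χ (HX (Bn d) (fun z => (bZ p z i - c i) * Complex.exp (-bS p z))) = 0 := by
      have h2 : (fun z => (bZ p z i - c i) * Complex.exp (-bS p z)) =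
          fun z => bZ p z i * Complex.exp (-bS p z) + (fun _ : Fin d → ℂ => -c i) z *
            (fun z => Complex.exp (-bS p z)) z := by
        funext z; ring
      rw [h2, HX_add (hZE i) (HInf_mul (HInf_const (Bn d) (-c i)) hEH), map_add,
        HX_mul (HInf_const (Bn d) (-c i)) hEH, map_mul, HX_const, AlgHom.commutes, hce]
      show c i * e + -c i * e = 0
      ring
    have h3 := GC2_HX χ (Geo_HV hp c i) hEH hZc hEc (fun z _ => by ring)
    rw [hZ0, zero_mul] at h3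
    exact (mul_eq_zero.1 h3).resolve_right hE
  · -- the value of `1 / (1 + Φ)`
    set C2 : ℝ := ∑ i, ‖c i‖ ^ 2 with hC2
    have hC20 : 0 ≤ C2 := Finset.sum_nonneg fun _ _ => by positivity
    have hN : HInf (Bn d) (fun z => (bS p z + 1) * (1 + bPhi p c z)⁻¹ * (1 / 2)) := by
      refine ⟨?_, 1 + C2, fun z hz => ?_⟩
      · exact (((Geo_dS hp).add_const 1).mul (Geo_HR hp c GC2_inv).1).mul_const _
      · have h1 := Geo_phi_re hp hz c
        have h2 : 0 ≤ ∑ i, ‖bZ p z i - c i‖ ^ 2 := Finset.sum_nonneg fun _ _ => by positivity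
        have h3 := GC2_dist p c z
        have h4 : 1 + (bPhi p c z).re ≤ ‖1 + bPhi p c z‖ := by
          have := Complex.re_le_norm (1 + bPhi p c z)
          rwa [Complex.add_re, Complex.one_re] at this
        have h5 : ‖bS p z + 1‖ ≤ (2 + 2 * C2) * ‖1 + bPhi p c z‖ := by
          have e1 : bS p z + 1 = (1 + bPhi p c z) + (bS p z - bPhi p c z) := by ring
          rw [e1]
          refine (norm_add_le _ _).trans ?_
          nlinarith [norm_nonneg (1 + bPhi p c z)]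
        have h6 : 0 < ‖1 + bPhi p c z‖ := by linarith
        rw [norm_mul, norm_mul, norm_inv, ← div_eq_mul_inv]
        have h7 : ‖(1 / 2 : ℂ)‖ = 1 / 2 := by norm_num
        rw [h7]
        have h8 : ‖bS p z + 1‖ / ‖1 + bPhi p c z‖ ≤ 2 + 2 * C2 := by
          rw [div_le_iff₀ h6]; exact h5
        linarith
    have hsub := RBc_sub χ (RBc_ip p) 1
    have h9 := GC2_HX χ (Geo_HR hp c GC2_inv) (HInf_const (Bn d) (-1)) hsub.1 hN (fun z hz => by
      have hw : ip p z ≠ 1 := by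
        intro h0
        have := ip_ball hp hz
        rw [h0, norm_one] at this
        exact lt_irrefl _ this
      have hw' : 1 - ip p z ≠ 0 := sub_ne_zero.2 (Ne.symm hw)
      have e1 : (ip p z - 1) * (bS p z + 1) = -2 := by
        unfold bS
        field_simp
        ring
      calc (1 + bPhi p c z)⁻¹ * -1 = (-2) * (1 + bPhi p c z)⁻¹ * (1 / 2) := by ring
        _ = (ip p z - 1) * (bS p z + 1) * (1 + bPhi p c z)⁻¹ * (1 / 2) := by rw [e1]
        _ = _ := by ring)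
    rw [hsub.2, hχp, sub_self, zero_mul, HX_const, AlgHom.commutes] at h9
    rcases mul_eq_zero.1 h9 with h10 | h10
    · exact h10
    · exfalso
      have : (-1 : ℂ) = 0 := h10
      norm_num at this


/-- a point of the ball near the character -/
theorem GC2_pt {d : ℕ} {p c : Fin d → ℂ} (hp : ∑ i, ‖p i‖ ^ 2 = 1) (hc : ip p c = 0)
    (χ : HA (Bn d) →ₐ[ℂ] ℂ)
    (hV : ∀ i, χ (HX (Bn d) (fun z => (bZ p z i - c i) * Complex.exp (-bPhi p c z))) = 0)
    (hE : χ (HX (Bn d) (fun z => Complex.exp (-bPhi p c z))) ≠ 0)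
    (hI : χ (HX (Bn d) (fun z => (1 + bPhi p c z)⁻¹)) = 0) :
    ∃ Y : ℝ, ∀ (m : ℕ) (g : Fin m → ℂ → ℂ), (∀ j, HR (g j)) → ∀ G : (Fin d → ℂ) → ℂ,
      HInf (Bn d) G → χ (HX (Bn d) G) = 0 → ∀ τ R : ℝ, 0 < τ → ∃ z ∈ Bn d, ‖G z‖ < τ ∧
      (∀ j, ‖g j (bPhi p c z) - χ (HX (Bn d) (fun z => g j (bPhi p c z)))‖ < τ) ∧
      ∑ i, ‖bZ p z i - c i‖ ^ 2 < τ ∧ R ≤ ‖bS p z‖ ∧ (bS p z).re ≤ Y := by
  set κ : ℝ := ‖χ (HX (Bn d) (fun z => Complex.exp (-bPhi p c z)))‖ with hκ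
  have hκ0 : 0 < κ := norm_pos_iff.2 hE
  set C2 : ℝ := ∑ i, ‖c i‖ ^ 2 with hC2
  have hC20 : 0 ≤ C2 := Finset.sum_nonneg fun _ _ => by positivity
  refine ⟨-Real.log (κ / 2) + (2 * C2 + 1), fun m g hg G hG hχG τ R hτ => ?_⟩
  set τ' : ℝ := min τ 1 with hτ'
  have hτ0 : 0 < τ' := lt_min hτ one_pos
  set q : ℝ := Real.sqrt (τ' / (d + 1)) with hq
  have hd0 : (0 : ℝ) < d + 1 := by positivity
  have hq0 : 0 < q := Real.sqrt_pos.2 (by positivity)
  have hq2 : q ^ 2 = τ' / (d + 1) := Real.sq_sqrt (by positivity)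
  set L : ℝ := |R| + 3 + 2 * C2 with hL
  have hL0 : 0 < L := by positivity
  set r : ℝ := min τ (min (κ / 2) (min (κ / 2 * q) (1 / L))) with hr
  have hr0 : 0 < r := lt_min hτ (lt_min (by positivity) (lt_min (by positivity) (by positivity)))
  have hr1 : r ≤ τ := min_le_left _ _
  have hr2 : r ≤ κ / 2 := (min_le_right _ _).trans (min_le_left _ _)
  have hr3 : r ≤ κ / 2 * q := (min_le_right _ _).trans ((min_le_right _ _).trans (min_le_left _ _))
  have hr4 : r ≤ 1 / L := (min_le_right _ _).trans ((min_le_right _ _).trans (min_le_right _ _))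
  obtain ⟨z, hz, h1, h2, h3⟩ := gc2_claim hp hc χ hV
    (Fin.cons (fun t => (1 + t)⁻¹) (Fin.cons (fun t => Complex.exp (-t)) g) :
      Fin (m + 2) → ℂ → ℂ) (by
      intro j
      refine Fin.cases GC2_inv (fun i => ?_) j
      refine Fin.cases GC2_exp (fun i => ?_) i
      exact hg i) hG hχG hr0
  have a1 : ‖(1 + bPhi p c z)⁻¹‖ < r := by
    have := h2 0
    simp only [Fin.cons_zero] at this
    rw [hI, sub_zero] at this
    exact this
  have a2 : ‖Complex.exp (-bPhi p c z) - χ (HX (Bn d) (fun z => Complex.exp (-bPhi p c z)))‖ < r :=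
    h2 (Fin.succ 0)
  have a3 : ∀ j, ‖g j (bPhi p c z) - χ (HX (Bn d) (fun z => g j (bPhi p c z)))‖ < r :=
    fun j => h2 (Fin.succ (Fin.succ j))
  have hexp : κ / 2 < ‖Complex.exp (-bPhi p c z)‖ := by
    have h4 := norm_sub_norm_le (χ (HX (Bn d) (fun z => Complex.exp (-bPhi p c z))))
      (Complex.exp (-bPhi p c z))
    rw [norm_sub_rev] at h4
    linarith
  have hZ : ∑ i, ‖bZ p z i - c i‖ ^ 2 < τ' := by
    have h4 : ∀ i, ‖bZ p z i - c i‖ ^ 2 ≤ τ' / (d + 1) := by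
      intro i
      have h5 := h3 i
      rw [norm_mul] at h5
      have h6 : ‖bZ p z i - c i‖ < q := by
        by_contra h7
        push Not at h7
        have : κ / 2 * q ≤ ‖bZ p z i - c i‖ * ‖Complex.exp (-bPhi p c z)‖ := by
          rw [mul_comm (κ / 2) q]
          exact mul_le_mul h7 hexp.le (by positivity) (norm_nonneg _)
        linarith
      rw [← hq2]
      exact pow_le_pow_left₀ (norm_nonneg _) h6.le 2
    calc ∑ i, ‖bZ p z i - c i‖ ^ 2 ≤ ∑ _i : Fin d, τ' / (d + 1) :=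
          Finset.sum_le_sum fun i _ => h4 i
      _ = d * (τ' / (d + 1)) := by
          rw [Finset.sum_const, Finset.card_univ, Fintype.card_fin, nsmul_eq_mul]
      _ < τ' := by
          rw [← mul_div_assoc, div_lt_iff₀ hd0]
          nlinarith
  have hdist := GC2_dist p c z
  have hZ1 : ∑ i, ‖bZ p z i - c i‖ ^ 2 < 1 := hZ.trans_le (min_le_right _ _)
  refine ⟨z, hz, h1.trans_le hr1, fun j => (a3 j).trans_le hr1, hZ.trans_le (min_le_left _ _),
    ?_, ?_⟩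
  · have hne : (1 + bPhi p c z) ≠ 0 := by
      intro h0
      have h4 := Geo_phi_re hp hz c
      have h5 : 0 ≤ ∑ i, ‖bZ p z i - c i‖ ^ 2 := Finset.sum_nonneg fun _ _ => by positivity
      have h6 := congrArg Complex.re h0
      rw [Complex.add_re, Complex.one_re, Complex.zero_re] at h6
      linarith
    have hpos : 0 < ‖1 + bPhi p c z‖ := norm_pos_iff.2 hne
    have h4 : L < ‖1 + bPhi p c z‖ := by
      rw [norm_inv] at a1
      have h5 := a1.trans_le hr4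
      rw [one_div] at h5
      exact (inv_lt_inv₀ hpos hL0).1 h5
    have h5 : ‖1 + bPhi p c z‖ ≤ 1 + ‖bS p z‖ + ‖bS p z - bPhi p c z‖ := by
      have e1 : 1 + bPhi p c z = 1 + bS p z - (bS p z - bPhi p c z) := by ring
      rw [e1]
      refine (norm_sub_le _ _).trans ?_
      have := norm_add_le (1 : ℂ) (bS p z)
      rw [norm_one] at this
      linarith
    have h6 := le_abs_self R
    linarith
  · have h4 : (bS p z).re ≤ (bPhi p c z).re + ‖bS p z - bPhi p c z‖ := by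
      have := Complex.re_le_norm (bS p z - bPhi p c z)
      rw [Complex.sub_re] at this
      linarith
    have h5 : (bPhi p c z).re ≤ -Real.log (κ / 2) := by
      rw [Complex.norm_exp, Complex.neg_re] at hexp
      have h6 := (Real.log_lt_iff_lt_exp (by positivity)).2 hexp
      linarith
    linarith

theorem GC2_hu {d : ℕ} {p c : Fin d → ℂ} (hp : ∑ i, ‖p i‖ ^ 2 = 1) (hc : ip p c = 0)
    {u : (Fin d → ℂ) → ℂ} (hu : HInf (Bn d) u) :
    HR (fun t => u (bpt p c (t + ∑ i, (‖c i‖ : ℂ) ^ 2))) := by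
  have hre : ∀ t ∈ RHP, ∑ i, ‖c i‖ ^ 2 < (t + ∑ i, (‖c i‖ : ℂ) ^ 2).re := by
    intro t ht
    have ht' : 0 < t.re := ht
    have h : ∑ i, (‖c i‖ : ℂ) ^ 2 = ((∑ i, ‖c i‖ ^ 2 : ℝ) : ℂ) := by push_cast; rfl
    rw [h, Complex.add_re, Complex.ofReal_re]
    linarith
  have hmem : ∀ t ∈ RHP, bpt p c (t + ∑ i, (‖c i‖ : ℂ) ^ 2) ∈ Bn d :=
    fun t ht => Geo_mem hp hc (hre t ht)
  obtain ⟨hd, C, hC⟩ := hu
  refine ⟨?_, C, fun t ht => hC _ (hmem t ht)⟩
  have h1 : DifferentiableOn ℂ (fun t : ℂ => bpt p c (t + ∑ i, (‖c i‖ : ℂ) ^ 2)) RHP := by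
    rw [differentiableOn_pi]
    intro i
    unfold bpt
    apply DifferentiableOn.div
    · fun_prop
    · fun_prop
    · intro t ht h0
      have h2 := hre t ht
      have h3 : 0 ≤ ∑ i, ‖c i‖ ^ 2 := Finset.sum_nonneg fun _ _ => by positivity
      have h4 := congrArg Complex.re h0
      rw [Complex.add_re, Complex.one_re, Complex.zero_re] at h4
      linarith
  exact hd.comp h1 hmem

theorem gc2 {d : ℕ} {p : Fin d → ℂ} (hp : ∑ i, ‖p i‖ ^ 2 = 1) (χ : HA (Bn d) →ₐ[ℂ] ℂ)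
    (hχp : χ (HX (Bn d) (ip p)) = 1)
    (hE : χ (HX (Bn d) (fun z => Complex.exp (-bS p z))) ≠ 0) {m : ℕ}
    (u : Fin m → (Fin d → ℂ) → ℂ) (hu : ∀ j, GBp d p (u j)) {F : (Fin d → ℂ) → ℂ}
    (hF : HInf (Bn d) F) {r : ℝ} (hr : 0 < r) :
    ∃ z ∈ Bn d, ∑ i, ‖z i - p i‖ ^ 2 < r ∧ ‖F z - χ (HX (Bn d) F)‖ < r ∧
      ∀ j, ‖u j z - χ (HX (Bn d) (u j))‖ < r := by
  obtain ⟨c, hc, hV, hEc, hI⟩ := gc2_c hp χ hχp hE
  obtain ⟨Y, hY⟩ := GC2_pt hp hc χ hV hEc hI
  set h : Fin m → ℂ → ℂ := fun j t => u j (bpt p c (t + ∑ i, (‖c i‖ : ℂ) ^ 2)) with hh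
  have hhR : ∀ j, HR (h j) := fun j => GC2_hu hp hc (hu j).1
  have hhH : ∀ j, HInf (Bn d) (fun z => h j (bPhi p c z)) := fun j => Geo_HR hp c (hhR j)
  -- the values of the character
  have hval : ∀ j, χ (HX (Bn d) (fun z => h j (bPhi p c z))) = χ (HX (Bn d) (u j)) := by
    intro j
    by_contra hne
    set a : ℂ := χ (HX (Bn d) (u j)) - χ (HX (Bn d) (fun z => h j (bPhi p c z))) with ha
    have ha0 : 0 < ‖a‖ := norm_pos_iff.2 (sub_ne_zero.2 (Ne.symm hne))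
    have hnH : HInf (Bn d) (fun z => (-1) * h j (bPhi p c z)) :=
      HInf_mul (HInf_const (Bn d) (-1)) (hhH j)
    have hdH : HInf (Bn d) (fun z => u j z + (-1) * h j (bPhi p c z)) :=
      HInf_add (hu j).1 hnH
    have hdχ : χ (HX (Bn d) (fun z => u j z + (-1) * h j (bPhi p c z))) = a := by
      rw [HX_add (hu j).1 hnH, map_add, HX_mul (HInf_const (Bn d) (-1)) (hhH j), map_mul,
        HX_const, AlgHom.commutes, ha]
      show _ + (-1 : ℂ) * _ = _
      ring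
    have hsub := RBc_sub χ hdH a
    rw [hdχ, sub_self] at hsub
    obtain ⟨η, R, hη, H⟩ := (hu j).2.2 c hc Y (‖a‖ / 4) (by positivity)
    obtain ⟨z, hz, h1, -, h3, h4, h5⟩ := hY 0 Fin.elim0 (fun j => j.elim0) _ hsub.1 hsub.2
      (min (‖a‖ / 4) η) R (lt_min (by positivity) hη)
    have h6 : ‖u j z - h j (bPhi p c z)‖ ≤ ‖a‖ / 4 :=
      H z hz h4 h5 (h3.trans_le (min_le_right _ _))
    have h7 := h1.trans_le (min_le_left _ _)
    have h8 : ‖a‖ ≤ ‖u j z + (-1) * h j (bPhi p c z) - a‖ + ‖u j z - h j (bPhi p c z)‖ := by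
      calc ‖a‖ = ‖-(u j z + (-1) * h j (bPhi p c z) - a) + (u j z - h j (bPhi p c z))‖ := by
            congr 1; ring
        _ ≤ _ := norm_add_le _ _
        _ = _ := by rw [norm_neg]
    linarith
  -- the point
  have hr4 : 0 < r / 4 := by positivity
  choose η R hη H using fun j => (hu j).2.2 c hc Y (r / 4) hr4
  obtain ⟨η', hη', hη'le⟩ : ∃ η' : ℝ, 0 < η' ∧ ∀ j, η' ≤ η j := by
    rcases isEmpty_or_nonempty (Fin m) with he | he
    · exact ⟨1, one_pos, fun j => he.elim j⟩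
    · obtain ⟨j, hj⟩ := Finite.exists_min η
      exact ⟨η j, hη j, hj⟩
  obtain ⟨R', hR'⟩ : ∃ R' : ℝ, ∀ j, R j ≤ R' := by
    rcases isEmpty_or_nonempty (Fin m) with he | he
    · exact ⟨1, fun j => he.elim j⟩
    · obtain ⟨j, hj⟩ := Finite.exists_max R
      exact ⟨R j, hj⟩
  have hsub := RBc_sub χ hF (χ (HX (Bn d) F))
  rw [sub_self] at hsub
  obtain ⟨z, hz, h1, h2, h3, h4, h5⟩ := hY m h hhR _ hsub.1 hsub.2
    (min (r / 4) η') (max R' (4 / r + 2)) (lt_min hr4 hη')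
  refine ⟨z, hz, ?_, ?_, fun j => ?_⟩
  · have h6 := Geo_near hp hz
    have h7 : 4 / r + 1 ≤ ‖bS p z + 1‖ := by
      have h8 := (le_max_right R' (4 / r + 2)).trans h4
      have h9 : ‖bS p z‖ ≤ ‖bS p z + 1‖ + 1 := by
        have := norm_sub_le (bS p z + 1) 1
        rwa [add_sub_cancel_right, norm_one] at this
      linarith
    have h10 : 0 < ‖bS p z + 1‖ := lt_of_lt_of_le (by positivity) h7
    refine h6.trans_lt ?_
    rw [div_lt_iff₀ h10]
    have h11 : r * (4 / r) = 4 := by field_simp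
    nlinarith
  · have := h1.trans_le (min_le_left _ _)
    linarith
  · have a1 := H j z hz (((hR' j).trans (le_max_left _ _)).trans h4) h5
      (h3.trans_le ((min_le_right _ _).trans (hη'le j)))
    have a2 := (h2 j).trans_le (min_le_left _ _)
    rw [hval j] at a2
    calc ‖u j z - χ (HX (Bn d) (u j))‖ = ‖(u j z - h j (bPhi p c z)) +
          (h j (bPhi p c z) - χ (HX (Bn d) (u j)))‖ := by congr 1; ring
      _ ≤ _ := norm_add_le _ _
      _ < r := by
        have a3 : ‖u j z - h j (bPhi p c z)‖ ≤ r / 4 := a1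
        linarith

end Cor
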