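import Pool.Agent.helper45.Ball2.GC1
import Pool.Agent.helper45.Ball2.GC2

/-!
Module B2-GF: the local corona theorem on the ball.

PROOF.  `GAlg_mono`: induction.  `gb_fin`: suppose there is no solution; `χ`, `p` and the case
`p ∈ Bn d` exactly as in `rb_cor` (Ball/RBc.lean).  Let `∑ |p i|^2 = 1`; `gc1` and `gc2` together
give for finitely many `u j ∈ GBp d p`, every `F` and `r > 0` a point `z` near `p` where `F` and the
`u j` are close to the values of `χ` (call this (*)).  Let `F` be as in `hloc p`,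
`ε = δ / (8 (k + 1))`, `g j`, `η j` as in `hloc` for `ε`.
`|χ (g j)| ≤ 2 ε`: apply (*) to the function `f j - g j` and no `u`: a point `z` with
`∑ |z_i - p_i|^2 < η j`, so `|f j z - g j z| ≤ ε`, and
`|(f j - g j) z - χ (f j - g j)| < ε`, `χ (f j) = 0`.
`Gel_ctrl` (Cor/Gel.lean) gives finite sets `S j` of functions in `GBp d p` and `ρ j > 0`; apply (*)
to `F`, the union of the `S j` and `r = min (ρ j, η j)`: a point `z` with `|g j z - χ (g j)| < ε`,
`|f j z - g j z| ≤ ε` for all `j`, so `∑ |f j z| ≤ 4 k ε < δ`: contradiction.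
-/

noncomputable section

open Set Metric

namespace Cor

theorem GAlg_mono {n : ℕ} {𝒢 𝒢' : ((Fin n → ℂ) → ℂ) → Prop} (h : ∀ u, 𝒢 u → 𝒢' u)
    {F g : (Fin n → ℂ) → ℂ} (hg : GAlg 𝒢 F g) : GAlg 𝒢' F g := by
  induction hg with
  | const c => exact GAlg.const c
  | base u hu => exact GAlg.base u (h u hu)
  | self => exact GAlg.self
  | add p q _ _ ihp ihq => exact GAlg.add p q ihp ihq
  | mul p q _ _ ihp ihq => exact GAlg.mul p q ihp ihq

/-- finitely many functions of the class and one arbitrary function -/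
theorem GFin_star {d : ℕ} {p : Fin d → ℂ} (hp : ∑ i, ‖p i‖ ^ 2 = 1) (χ : HA (Bn d) →ₐ[ℂ] ℂ)
    (hχp : χ (HX (Bn d) (ip p)) = 1) (S : Finset ((Fin d → ℂ) → ℂ)) (hS : ∀ u ∈ S, GBp d p u)
    {F : (Fin d → ℂ) → ℂ} (hF : HInf (Bn d) F) {r : ℝ} (hr : 0 < r) :
    ∃ z ∈ Bn d, ∑ i, ‖z i - p i‖ ^ 2 < r ∧ ‖F z - χ (HX (Bn d) F)‖ < r ∧
      ∀ u ∈ S, ‖u z - χ (HX (Bn d) u)‖ < r := by
  set e := S.equivFin with he
  have key : ∃ z ∈ Bn d, ∑ i, ‖z i - p i‖ ^ 2 < r ∧ ‖F z - χ (HX (Bn d) F)‖ < r ∧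
      ∀ j : Fin S.card, ‖((e.symm j : S) : (Fin d → ℂ) → ℂ) z -
        χ (HX (Bn d) ((e.symm j : S) : (Fin d → ℂ) → ℂ))‖ < r := by
    by_cases hE : χ (HX (Bn d) (fun z => Complex.exp (-bS p z))) = 0
    · exact gc1 hp χ hχp hE (fun j => ((e.symm j : S) : (Fin d → ℂ) → ℂ))
        (fun j => hS _ (e.symm j).2) hF hr
    · exact gc2 hp χ hχp hE (fun j => ((e.symm j : S) : (Fin d → ℂ) → ℂ))
        (fun j => hS _ (e.symm j).2) hF hr
  obtain ⟨z, hz, h1, h2, h3⟩ := key
  refine ⟨z, hz, h1, h2, fun u hu => ?_⟩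
  have h4 := h3 (e ⟨u, hu⟩)
  rw [Equiv.symm_apply_apply] at h4
  exact h4

theorem gb_fin {d k : ℕ} (f : Fin k → (Fin d → ℂ) → ℂ) (hf : ∀ j, HInf (Bn d) (f j))
    (hloc : ∀ p : Fin d → ℂ, ∑ i, ‖p i‖ ^ 2 = 1 → ∃ F : (Fin d → ℂ) → ℂ, HInf (Bn d) F ∧
      ∀ j, ∀ ε : ℝ, 0 < ε → ∃ g : (Fin d → ℂ) → ℂ, GAlg (GBp d p) F g ∧
        ∃ η : ℝ, 0 < η ∧ ∀ z ∈ Bn d, ∑ i, ‖z i - p i‖ ^ 2 < η → ‖f j z - g z‖ ≤ ε)
    {δ : ℝ} (hδ : 0 < δ) (hb : ∀ z ∈ Bn d, δ ≤ ∑ j, ‖f j z‖) :
    ∃ A : Fin k → (Fin d → ℂ) → ℂ, (∀ j, HInf (Bn d) (A j)) ∧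
      ∀ z ∈ Bn d, ∑ j, f j z * A j z = 1 := by
  classical
  by_contra hno
  obtain ⟨χ, hχn, hχf⟩ := exists_char (Bn_open d) f hf hno
  have hSle := RBc_norm χ hχn
  set p : Fin d → ℂ := fun i => χ (HX (Bn d) (fun z => z i)) with hp
  rcases hSle.lt_or_eq with hlt | heq
  · -- an interior point
    have hpB : p ∈ Bn d := hlt
    obtain ⟨j, hj⟩ : ∃ j, f j p ≠ 0 := by
      by_contra h0
      push Not at h0
      have h1 := hb p hpB
      simp only [h0, norm_zero, Finset.sum_const_zero] at h1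
      linarith
    obtain ⟨A, B, hA, hB, hAB⟩ := gl_point hpB (hf j) hj
    refine char_no χ (κ := Option (Fin d)) (f := fun o => o.elim (f j) (fun i z => z i - p i))
      (A := fun o => o.elim A B) ?_ ?_ ?_ ?_
    · rintro (_ | i)
      · exact hf j
      · exact (RBc_sub χ (RBc_coord i) (p i)).1
    · rintro (_ | i)
      · exact hχf j
      · exact (RBc_sub χ (RBc_coord i) (p i)).2.trans (sub_self _)
    · rintro (_ | i)
      · exact hA
      · exact hB i
    · intro z hz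
      rw [Fintype.sum_option]
      exact hAB z hz
  · -- a boundary point
    have hχp : χ (HX (Bn d) (ip p)) = 1 := by
      rw [RBc_ipc]
      have h1 : ∀ i, χ (HX (Bn d) (fun z => z i)) * (starRingEnd ℂ) (p i) =
          ((‖p i‖ ^ 2 : ℝ) : ℂ) := by
        intro i
        show p i * (starRingEnd ℂ) (p i) = _
        rw [Complex.mul_conj, Complex.normSq_eq_norm_sq]
      rw [Finset.sum_congr rfl fun i _ => h1 i, ← Complex.ofReal_sum, heq, Complex.ofReal_one]
    obtain ⟨F, hF, hFloc⟩ := hloc p heq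
    set ε : ℝ := δ / (8 * (k + 1)) with hε
    have hε0 : 0 < ε := by positivity
    choose g hg η hη0 hη using fun j => hFloc j ε hε0
    have hgH : ∀ j, HInf (Bn d) (g j) := fun j => GAlg_HInf (fun u hu => hu.1) hF (hg j)
    -- values of the character
    have hval : ∀ j, ‖χ (HX (Bn d) (g j))‖ ≤ 2 * ε := by
      intro j
      have hfg : (fun z => f j z - g j z) = fun z => f j z + (fun z => (-1 : ℂ) * g j z) z := by
        funext z
        ring
      have hneg : HInf (Bn d) (fun z => (-1 : ℂ) * g j z) :=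
        HInf_mul (HInf_const _ _) (hgH j)
      have hdH : HInf (Bn d) (fun z => f j z - g j z) := by
        rw [hfg]
        exact HInf_add (hf j) hneg
      have hdχ : χ (HX (Bn d) (fun z => f j z - g j z)) = -χ (HX (Bn d) (g j)) := by
        rw [hfg, HX_add (hf j) hneg, map_add, hχf j, HX_mul (HInf_const _ _) (hgH j), HX_const,
          map_mul, AlgHom.commutes]
        simp
      obtain ⟨z, hz, h1, h2, -⟩ := GFin_star heq χ hχp ∅ (by simp) hdH
        (lt_min hε0 (hη0 j))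
      have h3 := hη j z hz (h1.trans_le (min_le_right _ _))
      have h4 := h2.trans_le (min_le_left _ _)
      rw [hdχ] at h4
      have h5 : χ (HX (Bn d) (g j)) =
          (f j z - g j z - -χ (HX (Bn d) (g j))) - (f j z - g j z) := by ring
      rw [h5]
      refine (norm_sub_le _ _).trans ?_
      linarith
    choose S hS1 hS2 using fun j => Gel_ctrl (fun u hu => hu.1) hF χ (hg j)
    choose ρ hρ0 hρ using fun j => hS2 j ε hε0
    -- common radius
    have hr : ∃ r > 0, ∀ j, r ≤ ρ j ∧ r ≤ η j := by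
      rcases isEmpty_or_nonempty (Fin k) with he | he
      · exact ⟨1, one_pos, fun j => he.elim j⟩
      · obtain ⟨j, hj⟩ := Finite.exists_min (fun j => min (ρ j) (η j))
        exact ⟨min (ρ j) (η j), lt_min (hρ0 j) (hη0 j), fun i =>
          ⟨(hj i).trans (min_le_left _ _), (hj i).trans (min_le_right _ _)⟩⟩
    obtain ⟨r, hr0, hr⟩ := hr
    set SS : Finset ((Fin d → ℂ) → ℂ) := Finset.univ.biUnion S with hSS
    have hSSG : ∀ u ∈ SS, GBp d p u := by
      intro u hu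
      obtain ⟨j, -, hj⟩ := Finset.mem_biUnion.1 hu
      exact hS1 j u hj
    obtain ⟨z, hz, h1, h2, h3⟩ := GFin_star heq χ hχp SS hSSG hF hr0
    have hfj : ∀ j, ‖f j z‖ ≤ 4 * ε := by
      intro j
      have a1 := hρ j z hz (fun u hu => (h3 u (Finset.mem_biUnion.2
        ⟨j, Finset.mem_univ _, hu⟩)).trans_le (hr j).1) (h2.trans_le (hr j).1)
      have a2 := hη j z hz (h1.trans_le (hr j).2)
      have a3 := hval j
      calc ‖f j z‖ = ‖(f j z - g j z) + (g j z - χ (HX (Bn d) (g j))) +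
            χ (HX (Bn d) (g j))‖ := by congr 1; ring
        _ ≤ ‖f j z - g j z‖ + ‖g j z - χ (HX (Bn d) (g j))‖ + ‖χ (HX (Bn d) (g j))‖ :=
          norm_add₃_le
        _ ≤ 4 * ε := by linarith
    have b1 := hb z hz
    have b2 : ∑ j, ‖f j z‖ ≤ k * (4 * ε) := by
      refine (Finset.sum_le_sum fun j _ => hfj j).trans ?_
      rw [Finset.sum_const, Finset.card_univ, Fintype.card_fin, nsmul_eq_mul]
    have b3 : (k : ℝ) * (4 * ε) < δ := by
      have h4 : ε * (8 * (k + 1)) = δ := by rw [hε]; field_simp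
      have h5 : (0 : ℝ) ≤ k := Nat.cast_nonneg k
      nlinarith
    linarith

end Cor
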