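import Pool.Agent.helper45.Ball2.Geo

/-!
Module B2-GM: members of the class `GBp d p`.

PROOF.  Notation `Z = bZ p z`, `S = bS p z`, `|c|^2 = ∑ |c i|^2`.
`GBp_phi` (`u z = h (bPhi p c₀ z)`, `|h| ≤ C`).  First condition: the point `bpt p 0 S` has
coordinates `0`, `S` (`Geo_S`, `Geo_Z`), `bPhi p c₀ (bpt p 0 S) = S + |c₀|^2`,
`bPhi p c₀ z = S - 2 ip c₀ Z + |c₀|^2`, the difference is at most `2 |c₀| |Z| ≤ 2 |c₀| sqrt (re S)`,
so by `HR_sp` `|u z - u (bpt p 0 S)| ≤ 4 C |c₀| / sqrt (re S) ≤ ε` for `re S ≥ Y`.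
Second condition: `π = bpt p c s'`, `s' = bPhi p c z + |c|^2 = S - 2 ip c Z + 2 |c|^2`
(`re s' > |c|^2` by `Geo_phi_re`), `bPhi p c₀ π = s' - 2 ip c₀ c + |c₀|^2`, and
`bPhi p c₀ π - bPhi p c₀ z = 2 ip (c₀ - c) (Z - c)`.  If `c₀ = c` this is `0`.  Otherwise
`re (bPhi p c₀ π) > |c - c₀|^2` (`Geo_phi_re` at `π`, `bZ p π = c`), and `HR_sp` gives
`|u z - u π| ≤ 4 C |Z - c| / |c - c₀|`.
`GBp_cont`: both points `z` and `bpt ...` are near `p` if `|S|` is large (`Geo_near`; for the second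
point use `Geo_S`: `|s' - S| = |2 ip c (Z - c)|` is bounded).
`GBp_RB`: first condition: `bpt p 0 S = fun i => ip p z * p i`, and `z` is near `p` if `re S` is
large.  Second condition: let `φ t = u (t p)`, `h s = φ ((s - 1) / (s + 1))` (`HR`), so
`u (fun i => ip p z * p i) = h S`; `|u z - h S| ≤ ε / 3`, and for `π` as above
`|u π - h s'| ≤ ε / 3` (`bS p π = s'`) if `|S|` is large; if `c = 0` then `s' = S`; otherwise
`|s' - S| = 2 |ip c (Z - c)| ≤ 2 |c| |Z - c|` and `re S > |Z|^2 ≥ |c|^2 / 4` if `|Z - c| ≤ |c| / 2`: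
`|h s' - h S| ≤ ε / 3` by `HR_sp` if `|Z - c|` is small.
-/

noncomputable section

open Set Metric

namespace Cor

theorem GM_ip_self {d : ℕ} (c : Fin d → ℂ) : ip c c = ∑ i, (‖c i‖ : ℂ) ^ 2 := by
  unfold ip
  refine Finset.sum_congr rfl fun i _ => ?_
  rw [Complex.mul_conj, Complex.normSq_eq_norm_sq]
  push_cast
  rfl

theorem GM_ip_sub_left {d : ℕ} (c₀ c v : Fin d → ℂ) :
    ip (fun i => c₀ i - c i) v = ip c₀ v - ip c v := by
  unfold ip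
  rw [← Finset.sum_sub_distrib]
  refine Finset.sum_congr rfl fun i _ => ?_
  rw [map_sub]
  ring

theorem GM_ip_zero {d : ℕ} (c : Fin d → ℂ) : ip c 0 = 0 := by
  unfold ip
  exact Finset.sum_eq_zero fun i _ => by simp

theorem GM_re_sum {d : ℕ} (c : Fin d → ℂ) :
    (∑ i, (‖c i‖ : ℂ) ^ 2).re = ∑ i, ‖c i‖ ^ 2 := by
  rw [Complex.re_sum]
  refine Finset.sum_congr rfl fun i _ => ?_
  rw [← Complex.ofReal_pow, Complex.ofReal_re]

theorem GM_nonneg {d : ℕ} (c : Fin d → ℂ) : 0 ≤ ∑ i, ‖c i‖ ^ 2 :=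
  Finset.sum_nonneg fun i _ => by positivity

/-- Schwarz-Pick with squares -/
theorem GM_sp {h : ℂ → ℂ} (hd : DifferentiableOn ℂ h RHP) {C : ℝ}
    (hC : ∀ w ∈ RHP, ‖h w‖ ≤ C) {a b : ℂ} (ha : a ∈ RHP) {A B ε : ℝ} (hε : 0 < ε) (hB : 0 < B)
    (hb : B ≤ b.re) (hA : ‖a - b‖ ^ 2 ≤ A) (h1 : 4 * C ^ 2 * A ≤ ε ^ 2 * B ^ 2) :
    ‖h a - h b‖ ≤ ε := by
  have hb0 : 0 < b.re := lt_of_lt_of_le hB hb
  have h2 := HR_sp hd hC ha (b := b) hb0
  refine h2.trans ?_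
  rw [div_le_iff₀ hb0]
  have h3 : (2 * C * ‖a - b‖) ^ 2 ≤ (ε * b.re) ^ 2 := by
    have h4 : 4 * C ^ 2 * ‖a - b‖ ^ 2 ≤ 4 * C ^ 2 * A :=
      mul_le_mul_of_nonneg_left hA (by positivity)
    have h5 : ε ^ 2 * B ^ 2 ≤ ε ^ 2 * b.re ^ 2 :=
      mul_le_mul_of_nonneg_left (pow_le_pow_left₀ hB.le hb 2) (by positivity)
    calc (2 * C * ‖a - b‖) ^ 2 = 4 * C ^ 2 * ‖a - b‖ ^ 2 := by ring
      _ ≤ ε ^ 2 * b.re ^ 2 := by linarith
      _ = (ε * b.re) ^ 2 := by ring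
  exact le_of_pow_le_pow_left₀ two_ne_zero (by positivity) h3

theorem GM_pos {d : ℕ} {p z : Fin d → ℂ} (hp : ∑ i, ‖p i‖ ^ 2 = 1) (hz : z ∈ Bn d) :
    0 < (bS p z).re := lt_of_le_of_lt (GM_nonneg _) (Geo_re hp hz)

/-- the second coordinate of the retraction -/
theorem GM_s {d : ℕ} {p z : Fin d → ℂ} (hp : ∑ i, ‖p i‖ ^ 2 = 1) (hz : z ∈ Bn d)
    (c : Fin d → ℂ) :
    ∑ i, ‖c i‖ ^ 2 < (bPhi p c z + ∑ i, (‖c i‖ : ℂ) ^ 2).re ∧
      (bPhi p c z + ∑ i, (‖c i‖ : ℂ) ^ 2) - bS p z =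
        -(2 * ip c (fun i => bZ p z i - c i)) := by
  constructor
  · rw [Complex.add_re, GM_re_sum]
    have h1 := Geo_phi_re hp hz c
    have h2 : 0 ≤ ∑ i, ‖bZ p z i - c i‖ ^ 2 := Finset.sum_nonneg fun i _ => by positivity
    linarith
  · rw [RB_ip_sub, GM_ip_self, bPhi]
    ring

theorem GM_s_norm {d : ℕ} {p z : Fin d → ℂ} (hp : ∑ i, ‖p i‖ ^ 2 = 1) (hz : z ∈ Bn d)
    (c : Fin d → ℂ) :
    ‖(bPhi p c z + ∑ i, (‖c i‖ : ℂ) ^ 2) - bS p z‖ ^ 2 ≤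
      4 * (∑ i, ‖c i‖ ^ 2) * ∑ i, ‖bZ p z i - c i‖ ^ 2 := by
  rw [(GM_s hp hz c).2, norm_neg, norm_mul, Complex.norm_two, mul_pow]
  have h1 := ip_le c (fun i => bZ p z i - c i)
  linarith

theorem GBp_phi {d : ℕ} {p : Fin d → ℂ} (hp : ∑ i, ‖p i‖ ^ 2 = 1) (c₀ : Fin d → ℂ) {h : ℂ → ℂ}
    (hh : HR h) : GBp d p (fun z => h (bPhi p c₀ z)) := by
  have hH := Geo_HR hp c₀ hh
  obtain ⟨hd, C', hC'⟩ := hh
  have hC : ∀ w ∈ RHP, ‖h w‖ ≤ |C'| := fun w hw => (hC' w hw).trans (le_abs_self _)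
  set C := |C'| with hCdef
  set N₀ := ∑ i, ‖c₀ i‖ ^ 2 with hN₀
  have hN₀0 : 0 ≤ N₀ := GM_nonneg c₀
  have hphi : ∀ z ∈ Bn d, bPhi p c₀ z ∈ RHP := fun z hz =>
    lt_of_le_of_lt (Finset.sum_nonneg fun i _ => by positivity) (Geo_phi_re hp hz c₀)
  have hp0 : ip p (0 : Fin d → ℂ) = 0 := GM_ip_zero p
  refine ⟨hH, fun ε hε => ⟨16 * C ^ 2 * N₀ / ε ^ 2, fun z hz hY => ?_⟩, fun c hc Y ε hε => ?_⟩
  · -- large real part
    have hS := GM_pos hp hz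
    have hre := Geo_re hp hz
    have e1 : bPhi p c₀ (bpt p 0 (bS p z)) = bS p z + ∑ i, (‖c₀ i‖ : ℂ) ^ 2 := by
      rw [bPhi, Geo_S hp hp0 hS, Geo_Z hp hp0 hS, GM_ip_zero]
      ring
    show ‖h (bPhi p c₀ z) - h (bPhi p c₀ (bpt p 0 (bS p z)))‖ ≤ ε
    rw [e1]
    refine GM_sp hd hC (hphi z hz) (A := 4 * (N₀ * (bS p z).re)) (B := (bS p z).re) hε hS
      ?_ ?_ ?_
    · rw [Complex.add_re, GM_re_sum]
      linarith
    · have e2 : bPhi p c₀ z - (bS p z + ∑ i, (‖c₀ i‖ : ℂ) ^ 2) = -(2 * ip c₀ (bZ p z)) := by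
        rw [bPhi]
        ring
      rw [e2, norm_neg, norm_mul, Complex.norm_two, mul_pow]
      have h1 := ip_le c₀ (bZ p z)
      have h2 : N₀ * ∑ i, ‖bZ p z i‖ ^ 2 ≤ N₀ * (bS p z).re :=
        mul_le_mul_of_nonneg_left hre.le hN₀0
      linarith
    · rw [div_le_iff₀ (by positivity)] at hY
      have h3 := mul_le_mul_of_nonneg_right hY hS.le
      linarith
  · by_cases hcc : c₀ = c
    · subst hcc
      refine ⟨1, 0, one_pos, fun z hz _ _ _ => ?_⟩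
      have h1 := GM_s hp hz c₀
      have hs : 0 < (bPhi p c₀ z + ∑ i, (‖c₀ i‖ : ℂ) ^ 2).re := lt_of_le_of_lt (GM_nonneg _) h1.1
      have e1 : bPhi p c₀ (bpt p c₀ (bPhi p c₀ z + ∑ i, (‖c₀ i‖ : ℂ) ^ 2)) = bPhi p c₀ z := by
        conv_lhs => rw [bPhi]
        rw [Geo_S hp hc hs, Geo_Z hp hc hs, GM_ip_self]
        ring
      show ‖h (bPhi p c₀ z) - h (bPhi p c₀ (bpt p c₀ (bPhi p c₀ z +
        ∑ i, (‖c₀ i‖ : ℂ) ^ 2)))‖ ≤ ε
      rw [e1, sub_self, norm_zero]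
      exact hε.le
    · set N₁ := ∑ i, ‖c₀ i - c i‖ ^ 2 with hN₁
      have hN₁0 : 0 < N₁ := by
        obtain ⟨i, hi⟩ := Function.ne_iff.1 hcc
        refine Finset.sum_pos' (fun i _ => by positivity) ⟨i, Finset.mem_univ i, ?_⟩
        have : 0 < ‖c₀ i - c i‖ := norm_pos_iff.2 (sub_ne_zero.2 hi)
        positivity
      refine ⟨ε ^ 2 * N₁ / (16 * C ^ 2 + 1), 0, by positivity, fun z hz _ _ hη => ?_⟩
      have h1 := GM_s hp hz c
      have hs : 0 < (bPhi p c z + ∑ i, (‖c i‖ : ℂ) ^ 2).re := lt_of_le_of_lt (GM_nonneg _) h1.1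
      have hπ := Geo_mem hp hc h1.1
      have e1 : bPhi p c₀ (bpt p c (bPhi p c z + ∑ i, (‖c i‖ : ℂ) ^ 2)) =
          bPhi p c₀ z + 2 * ip (fun i => c₀ i - c i) (fun i => bZ p z i - c i) := by
        conv_lhs => rw [bPhi]
        rw [Geo_S hp hc hs, Geo_Z hp hc hs, GM_ip_sub_left, RB_ip_sub, RB_ip_sub, GM_ip_self c,
          bPhi, bPhi]
        ring
      have h2 := Geo_phi_re hp hπ c₀
      rw [Geo_Z hp hc hs] at h2
      have h3 : ∑ i, ‖c i - c₀ i‖ ^ 2 = N₁ := by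
        rw [hN₁]
        exact Finset.sum_congr rfl fun i _ => by rw [norm_sub_rev]
      rw [h3] at h2
      show ‖h (bPhi p c₀ z) - h (bPhi p c₀ (bpt p c (bPhi p c z +
        ∑ i, (‖c i‖ : ℂ) ^ 2)))‖ ≤ ε
      refine GM_sp hd hC (hphi z hz) (A := 4 * (N₁ * (ε ^ 2 * N₁ / (16 * C ^ 2 + 1))))
        (B := N₁) hε hN₁0 h2.le ?_ ?_
      · rw [e1]
        have e2 : bPhi p c₀ z - (bPhi p c₀ z +
            2 * ip (fun i => c₀ i - c i) (fun i => bZ p z i - c i)) =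
            -(2 * ip (fun i => c₀ i - c i) (fun i => bZ p z i - c i)) := by ring
        rw [e2, norm_neg, norm_mul, Complex.norm_two, mul_pow]
        have h4 := ip_le (fun i => c₀ i - c i) (fun i => bZ p z i - c i)
        have h5 : N₁ * ∑ i, ‖bZ p z i - c i‖ ^ 2 ≤ N₁ * (ε ^ 2 * N₁ / (16 * C ^ 2 + 1)) :=
          mul_le_mul_of_nonneg_left hη.le hN₁0.le
        linarith
      · have h6 : 0 < 16 * C ^ 2 + 1 := by positivity
        have h7 : 4 * C ^ 2 * (4 * (N₁ * (ε ^ 2 * N₁ / (16 * C ^ 2 + 1)))) =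
            ε ^ 2 * N₁ ^ 2 * ((16 * C ^ 2) / (16 * C ^ 2 + 1)) := by
          field_simp
          ring
        rw [h7]
        have h8 : (16 * C ^ 2) / (16 * C ^ 2 + 1) ≤ 1 := by
          rw [div_le_one h6]
          linarith
        exact mul_le_of_le_one_right (by positivity) h8

/-- points with large first coordinate are near `p` -/
theorem GM_near {d : ℕ} {p z : Fin d → ℂ} (hp : ∑ i, ‖p i‖ ^ 2 = 1) (hz : z ∈ Bn d) {η : ℝ}
    (hη : 0 < η) (h : 4 / η + 2 ≤ ‖bS p z‖) : ∑ i, ‖z i - p i‖ ^ 2 < η := by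
  refine lt_of_le_of_lt (Geo_near hp hz) ?_
  have h1 : ‖bS p z‖ ≤ ‖bS p z + 1‖ + 1 := by
    have h2 := norm_sub_le (bS p z + 1) 1
    rw [add_sub_cancel_right, norm_one] at h2
    exact h2
  have h3 : 0 < 4 / η := by positivity
  have h4 : 4 / η < ‖bS p z + 1‖ := by linarith
  have h5 : 0 < ‖bS p z + 1‖ := by linarith
  rw [div_lt_iff₀ h5]
  rw [div_lt_iff₀ hη] at h4
  linarith

/-- the point of the retraction is near `p` -/
theorem GM_near' {d : ℕ} {p z : Fin d → ℂ} (hp : ∑ i, ‖p i‖ ^ 2 = 1) (hz : z ∈ Bn d)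
    {c : Fin d → ℂ} (hc : ip p c = 0) {η : ℝ} (hη : 0 < η)
    (h : 4 / η + 3 + ∑ i, ‖c i‖ ^ 2 ≤ ‖bS p z‖) (hZ : ∑ i, ‖bZ p z i - c i‖ ^ 2 < 1) :
    ∑ i, ‖bpt p c (bPhi p c z + ∑ i, (‖c i‖ : ℂ) ^ 2) i - p i‖ ^ 2 < η := by
  have h1 := GM_s hp hz c
  have hs : 0 < (bPhi p c z + ∑ i, (‖c i‖ : ℂ) ^ 2).re := lt_of_le_of_lt (GM_nonneg _) h1.1
  have hπ := Geo_mem hp hc h1.1
  refine GM_near hp hπ hη ?_
  rw [Geo_S hp hc hs]
  have h2 := GM_s_norm hp hz c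
  set s' := bPhi p c z + ∑ i, (‖c i‖ : ℂ) ^ 2 with hs'
  set N := ∑ i, ‖c i‖ ^ 2 with hN
  have hN0 : 0 ≤ N := GM_nonneg c
  have h3 : ‖s' - bS p z‖ ≤ 1 + N := by
    have h4 : ‖s' - bS p z‖ ^ 2 ≤ (1 + N) ^ 2 := by
      have h5 : N * ∑ i, ‖bZ p z i - c i‖ ^ 2 ≤ N * 1 := mul_le_mul_of_nonneg_left hZ.le hN0
      nlinarith [sq_nonneg (1 - N)]
    exact le_of_pow_le_pow_left₀ two_ne_zero (by positivity) h4
  have h6 : ‖bS p z‖ ≤ ‖s'‖ + ‖s' - bS p z‖ := by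
    have h7 := norm_sub_le s' (s' - bS p z)
    rw [sub_sub_cancel] at h7
    exact h7
  linarith

theorem GBp_cont {d : ℕ} {p : Fin d → ℂ} (hp : ∑ i, ‖p i‖ ^ 2 = 1) {u : (Fin d → ℂ) → ℂ}
    (hu : HInf (Bn d) u) (a : ℂ) (ha : ∀ ε : ℝ, 0 < ε → ∃ η : ℝ, 0 < η ∧ ∀ z ∈ Bn d,
      ∑ i, ‖z i - p i‖ ^ 2 < η → ‖u z - a‖ ≤ ε) : GBp d p u := by
  have hp0 : ip p (0 : Fin d → ℂ) = 0 := GM_ip_zero p
  refine ⟨hu, fun ε hε => ?_, fun c hc Y ε hε => ?_⟩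
  · obtain ⟨η, hη, hη'⟩ := ha (ε / 2) (by linarith)
    refine ⟨4 / η + 2, fun z hz hY => ?_⟩
    have hS := GM_pos hp hz
    have hπ : bpt p 0 (bS p z) ∈ Bn d := Geo_mem hp hp0 (by simpa using hS)
    have h1 : 4 / η + 2 ≤ ‖bS p z‖ := hY.trans (Complex.re_le_norm _)
    have h2 := hη' z hz (GM_near hp hz hη h1)
    have h3 := hη' _ hπ (GM_near hp hπ hη (by rw [Geo_S hp hp0 hS]; exact h1))
    have e1 : u z - u (bpt p 0 (bS p z)) = (u z - a) - (u (bpt p 0 (bS p z)) - a) := by ring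
    rw [e1]
    refine (norm_sub_le _ _).trans (by linarith)
  · obtain ⟨η, hη, hη'⟩ := ha (ε / 2) (by linarith)
    refine ⟨1, 4 / η + 3 + ∑ i, ‖c i‖ ^ 2, one_pos, fun z hz hR _ hZ => ?_⟩
    have hπ := Geo_mem hp hc (GM_s hp hz c).1
    have hN0 : 0 ≤ ∑ i, ‖c i‖ ^ 2 := GM_nonneg c
    have h2 := hη' z hz (GM_near hp hz hη (by linarith))
    have h3 := hη' _ hπ (GM_near' hp hz hc hη hR hZ)
    have e1 : u z - u (bpt p c (bPhi p c z + ∑ i, (‖c i‖ : ℂ) ^ 2)) =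
      (u z - a) - (u (bpt p c (bPhi p c z + ∑ i, (‖c i‖ : ℂ) ^ 2)) - a) := by ring
    rw [e1]
    refine (norm_sub_le _ _).trans (by linarith)

/-- the one variable function of the slice -/
theorem GM_slice {d : ℕ} {p : Fin d → ℂ} (hp : ∑ i, ‖p i‖ ^ 2 = 1) {u : (Fin d → ℂ) → ℂ}
    (hu : HInf (Bn d) u) : HR (fun s => u (fun i => (s - 1) / (s + 1) * p i)) := by
  obtain ⟨hd, C, hC⟩ := hu
  have hm : ∀ s ∈ RHP, (fun i => (s - 1) / (s + 1) * p i) ∈ Bn d := by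
    intro s hs
    have hs' : 0 < s.re := hs
    refine RB_slice hp ?_
    have h1 : s + 1 ≠ 0 := by
      intro h
      have := congrArg Complex.re h
      rw [Complex.add_re, Complex.one_re, Complex.zero_re] at this
      linarith
    rw [norm_div, div_lt_one (norm_pos_iff.2 h1)]
    have h2 : ‖s - 1‖ ^ 2 < ‖s + 1‖ ^ 2 := by
      rw [← Complex.normSq_eq_norm_sq, ← Complex.normSq_eq_norm_sq, Complex.normSq_apply,
        Complex.normSq_apply]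
      simp only [Complex.sub_re, Complex.add_re, Complex.one_re, Complex.sub_im, Complex.add_im,
        Complex.one_im]
      nlinarith
    exact lt_of_pow_lt_pow_left₀ 2 (norm_nonneg _) h2
  refine ⟨?_, C, fun s hs => hC _ (hm s hs)⟩
  refine DifferentiableOn.comp hd ?_ hm
  intro s hs
  have hs' : 0 < s.re := hs
  have h1 : s + 1 ≠ 0 := by
    intro h
    have := congrArg Complex.re h
    rw [Complex.add_re, Complex.one_re, Complex.zero_re] at this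
    linarith
  have h2 : DifferentiableAt ℂ (fun s : ℂ => fun i => (s - 1) / (s + 1) * p i) s := by
    rw [differentiableAt_pi]
    intro i
    have h3 : DifferentiableAt ℂ (fun s : ℂ => (s - 1) / (s + 1)) s :=
      (differentiableAt_id.sub_const (1 : ℂ)).div (differentiableAt_id.add_const (1 : ℂ)) h1
    exact h3.mul_const _
  exact h2.differentiableWithinAt

theorem GM_w {d : ℕ} {p z : Fin d → ℂ} (hp : ∑ i, ‖p i‖ ^ 2 = 1) (hz : z ∈ Bn d) :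
    (bS p z - 1) / (bS p z + 1) = ip p z := by
  have h1 : (1 : ℂ) - ip p z ≠ 0 := by
    intro h
    have h2 := ip_ball hp hz
    rw [← sub_eq_zero.1 h, norm_one] at h2
    exact lt_irrefl _ h2
  have h3 : bS p z - 1 = 2 * ip p z / (1 - ip p z) := by
    rw [bS]
    field_simp
    ring
  have h4 : bS p z + 1 = 2 / (1 - ip p z) := by
    rw [bS]
    field_simp
    ring
  rw [h3, h4]
  field_simp

theorem GBp_RB {d : ℕ} {p : Fin d → ℂ} (hp : ∑ i, ‖p i‖ ^ 2 = 1) {u : (Fin d → ℂ) → ℂ}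
    (hu : HInf (Bn d) u) (ha : ∀ ε : ℝ, 0 < ε → ∃ η : ℝ, 0 < η ∧ ∀ z ∈ Bn d,
      ∑ i, ‖z i - p i‖ ^ 2 < η → ‖u z - u (fun i => ip p z * p i)‖ ≤ ε) : GBp d p u := by
  have hp0 : ip p (0 : Fin d → ℂ) = 0 := GM_ip_zero p
  refine ⟨hu, fun ε hε => ?_, fun c hc Y ε hε => ?_⟩
  · obtain ⟨η, hη, hη'⟩ := ha ε hε
    refine ⟨4 / η + 2, fun z hz hY => ?_⟩
    have h1 : 4 / η + 2 ≤ ‖bS p z‖ := hY.trans (Complex.re_le_norm _)
    have h2 := hη' z hz (GM_near hp hz hη h1)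
    have e1 : bpt p 0 (bS p z) = fun i => ip p z * p i := by
      funext i
      rw [bpt, ← GM_w hp hz]
      simp only [Pi.zero_apply, mul_zero, add_zero]
      ring
    rw [e1]
    exact h2
  · obtain ⟨hd, C', hC'⟩ := GM_slice hp hu
    set h : ℂ → ℂ := fun s => u (fun i => (s - 1) / (s + 1) * p i) with hh
    have hC : ∀ w ∈ RHP, ‖h w‖ ≤ |C'| := fun w hw => (hC' w hw).trans (le_abs_self _)
    set C := |C'| with hCdef
    have hval : ∀ z ∈ Bn d, u (fun i => ip p z * p i) = h (bS p z) := by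
      intro z hz
      show _ = u (fun i => (bS p z - 1) / (bS p z + 1) * p i)
      rw [GM_w hp hz]
    obtain ⟨η, hη, hη'⟩ := ha (ε / 3) (by linarith)
    set N := ∑ i, ‖c i‖ ^ 2 with hN
    have hN0 : 0 ≤ N := GM_nonneg c
    -- the step in one variable
    have hstep : ∃ η₂ : ℝ, 0 < η₂ ∧ ∀ z ∈ Bn d, ∑ i, ‖bZ p z i - c i‖ ^ 2 < η₂ →
        ‖h (bPhi p c z + ∑ i, (‖c i‖ : ℂ) ^ 2) - h (bS p z)‖ ≤ ε / 3 := by
      rcases hN0.eq_or_lt with hN1 | hN1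
      · refine ⟨1, one_pos, fun z hz _ => ?_⟩
        have h1 := GM_s_norm hp hz c
        rw [← hN, ← hN1, mul_zero, zero_mul] at h1
        have h2 : (bPhi p c z + ∑ i, (‖c i‖ : ℂ) ^ 2) - bS p z = 0 := by
          rw [← norm_eq_zero]
          exact pow_eq_zero_iff two_ne_zero |>.1 (le_antisymm h1 (by positivity))
        rw [sub_eq_zero.1 h2, sub_self, norm_zero]
        linarith
      · refine ⟨min (N / 4) (ε ^ 2 * N / (2304 * C ^ 2 + 1)), lt_min (by positivity)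
          (by positivity), fun z hz hZ => ?_⟩
        have hZ1 := lt_of_lt_of_le hZ (min_le_left _ _)
        have hZ2 := lt_of_lt_of_le hZ (min_le_right _ _)
        have h1 := GM_s hp hz c
        have hs : 0 < (bPhi p c z + ∑ i, (‖c i‖ : ℂ) ^ 2).re :=
          lt_of_le_of_lt (GM_nonneg _) h1.1
        have hre := Geo_re hp hz
        have h2 : N ≤ 2 * ∑ i, ‖bZ p z i‖ ^ 2 + 2 * ∑ i, ‖bZ p z i - c i‖ ^ 2 := by
          rw [hN, Finset.mul_sum, Finset.mul_sum, ← Finset.sum_add_distrib]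
          refine Finset.sum_le_sum fun i _ => ?_
          have h3 : ‖c i‖ ≤ ‖bZ p z i‖ + ‖bZ p z i - c i‖ := by
            have h4 := norm_sub_le (bZ p z i) (bZ p z i - c i)
            rwa [sub_sub_cancel] at h4
          have h5 := pow_le_pow_left₀ (norm_nonneg _) h3 2
          nlinarith [sq_nonneg (‖bZ p z i‖ - ‖bZ p z i - c i‖)]
        refine GM_sp hd hC hs (A := 4 * (N * (ε ^ 2 * N / (2304 * C ^ 2 + 1))))
          (B := N / 4) (by linarith) (by linarith) (by linarith) ?_ ?_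
        · have h6 := GM_s_norm hp hz c
          rw [← hN] at h6
          have h7 : N * ∑ i, ‖bZ p z i - c i‖ ^ 2 ≤
              N * (ε ^ 2 * N / (2304 * C ^ 2 + 1)) := mul_le_mul_of_nonneg_left hZ2.le hN0
          linarith
        · have h6 : 0 < 2304 * C ^ 2 + 1 := by positivity
          have h7 : 4 * C ^ 2 * (4 * (N * (ε ^ 2 * N / (2304 * C ^ 2 + 1)))) =
              (ε / 3) ^ 2 * (N / 4) ^ 2 * ((2304 * C ^ 2) / (2304 * C ^ 2 + 1)) := by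
            field_simp
            ring
          rw [h7]
          have h8 : (2304 * C ^ 2) / (2304 * C ^ 2 + 1) ≤ 1 := by
            rw [div_le_one h6]
            linarith
          exact mul_le_of_le_one_right (by positivity) h8
    obtain ⟨η₂, hη₂, hη₂'⟩ := hstep
    refine ⟨min 1 η₂, 4 / η + 3 + N, lt_min one_pos hη₂, fun z hz hR _ hZ => ?_⟩
    have h1 := GM_s hp hz c
    have hs : 0 < (bPhi p c z + ∑ i, (‖c i‖ : ℂ) ^ 2).re := lt_of_le_of_lt (GM_nonneg _) h1.1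
    have hπ := Geo_mem hp hc h1.1
    have h2 := hη' z hz (GM_near hp hz hη (by linarith))
    have h3 := hη' _ hπ (GM_near' hp hz hc hη hR (lt_of_lt_of_le hZ (min_le_left _ _)))
    have h4 := hη₂' z hz (lt_of_lt_of_le hZ (min_le_right _ _))
    rw [hval z hz] at h2
    rw [hval _ hπ, Geo_S hp hc hs] at h3
    have e1 : u z - u (bpt p c (bPhi p c z + ∑ i, (‖c i‖ : ℂ) ^ 2)) =
      (u z - h (bS p z)) - (h (bPhi p c z + ∑ i, (‖c i‖ : ℂ) ^ 2) - h (bS p z)) -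
        (u (bpt p c (bPhi p c z + ∑ i, (‖c i‖ : ℂ) ^ 2)) -
          h (bPhi p c z + ∑ i, (‖c i‖ : ℂ) ^ 2)) := by ring
    rw [e1]
    refine (norm_sub_le _ _).trans ?_
    have h5 := norm_sub_le (u z - h (bS p z))
      (h (bPhi p c z + ∑ i, (‖c i‖ : ℂ) ^ 2) - h (bS p z))
    linarith

end Cor
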