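import Pool.Agent.helper45.Ball2.Defs

/-!
Module B2-GEO: geometry of the Siegel coordinates at a boundary point.

PROOF.  Write `w = ip p z`, `|w| < 1` (`ip_ball`).  `∑ |z_i - w p_i|^2 = ∑ |z_i|^2 - |w|^2`.
`Geo_re`: `|1 - w|^2 re (bS p z) = 1 - |w|^2`, `|1 - w|^2 ∑ |bZ p z i|^2 = ∑ |z_i|^2 - |w|^2`.
`Geo_self`: `s + 1 = 2 / (1 - w)`, `s - 1 = 2 w / (1 - w)`.
`Geo_mem`, `Geo_S`, `Geo_Z`: `ip p (bpt p c s) = (s - 1) / (s + 1)`,
`∑ |bpt p c s i|^2 = (|s - 1|^2 + 4 ∑ |c i|^2) / |s + 1|^2` and `|s + 1|^2 - |s - 1|^2 = 4 re s`.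
`Geo_phi_re`: `re (bPhi p c z) = re (bS p z) - 2 re (ip c Z) + ∑ |c|^2` and
`∑ |Z - c|^2 = ∑ |Z|^2 - 2 re (ip c Z) + ∑ |c|^2`.
`Geo_near`: `RB_near'` and `1 - ip p z = 2 / (bS p z + 1)`.
`HR_sp` (Schwarz-Pick lemma with a constant): for fixed `b` the function
`ζ ↦ h ((b + conj b ζ) / (1 - ζ))` is holomorphic on the unit disc, bounded by `C`, and
`ζ = (a - b) / (a + conj b)` is mapped to `h a`; use `Complex.dist_le_div_mul_dist_of_mapsTo_ball`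
(see `Thin_sp` in Cor/Thin.lean) and `|a + conj b| ≥ re b`.
`Geo_HV`: `|Z_i - c_i|^2 ≤ y`, `y = re (bPhi p c z)`, and `y e^{-2y} ≤ 1`.
-/

noncomputable section

open Set Metric

namespace Cor

variable {d : ℕ} {p c z : Fin d → ℂ}

/-- the denominator does not vanish -/
theorem Geo_ne (hp : ∑ i, ‖p i‖ ^ 2 = 1) (hz : z ∈ Bn d) : 1 - ip p z ≠ 0 := by
  intro h
  have h1 := ip_ball hp hz
  have h2 : ip p z = 1 := by linear_combination -h
  rw [h2, norm_one] at h1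
  exact lt_irrefl _ h1

theorem Geo_nsq (u : ℂ) : ‖u‖ ^ 2 = u.re ^ 2 + u.im ^ 2 := by
  rw [Complex.sq_norm, Complex.normSq_apply]
  ring

/-- `∑ |z_i - w p_i|^2 = ∑ |z_i|^2 - |w|^2` -/
theorem Geo_sum (hp : ∑ i, ‖p i‖ ^ 2 = 1) (z : Fin d → ℂ) :
    ∑ i, ‖z i - ip p z * p i‖ ^ 2 = ∑ i, ‖z i‖ ^ 2 - ‖ip p z‖ ^ 2 := by
  have h1 := RB_expand z (fun i => ip p z * p i)
  have h2 : ∑ i, ‖ip p z * p i‖ ^ 2 = ‖ip p z‖ ^ 2 := by
    have h2 : ∀ i, ‖ip p z * p i‖ ^ 2 = ‖ip p z‖ ^ 2 * ‖p i‖ ^ 2 := fun i => by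
      rw [norm_mul, mul_pow]
    rw [Finset.sum_congr rfl (fun i _ => h2 i), ← Finset.mul_sum, hp, mul_one]
  have h3 : ip (fun i => ip p z * p i) z = (starRingEnd ℂ) (ip p z) * ip p z := by
    conv_lhs => unfold ip
    conv_rhs => rw [show ip p z = ∑ i, z i * (starRingEnd ℂ) (p i) from rfl]
    rw [Finset.mul_sum]
    refine Finset.sum_congr rfl fun i _ => ?_
    rw [map_mul]
    ring
  have h4 : (ip (fun i => ip p z * p i) z).re = ‖ip p z‖ ^ 2 := by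
    rw [h3, mul_comm, Complex.mul_conj, Complex.ofReal_re, Complex.normSq_eq_norm_sq]
  rw [h1, h2, h4]
  ring

theorem Geo_bZ_sum (hp : ∑ i, ‖p i‖ ^ 2 = 1) (z : Fin d → ℂ) :
    ∑ i, ‖bZ p z i‖ ^ 2 = (∑ i, ‖z i‖ ^ 2 - ‖ip p z‖ ^ 2) / ‖1 - ip p z‖ ^ 2 := by
  rw [← Geo_sum hp z, Finset.sum_div]
  refine Finset.sum_congr rfl fun i _ => ?_
  unfold bZ
  rw [norm_div, div_pow]

theorem Geo_bS_re (p z : Fin d → ℂ) :
    (bS p z).re = (1 - ‖ip p z‖ ^ 2) / ‖1 - ip p z‖ ^ 2 := by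
  unfold bS
  rw [Complex.div_re, Complex.normSq_eq_norm_sq, ← add_div]
  congr 1
  rw [Geo_nsq]
  simp only [Complex.add_re, Complex.sub_re, Complex.add_im, Complex.sub_im, Complex.one_re,
    Complex.one_im]
  ring

theorem Geo_re (hp : ∑ i, ‖p i‖ ^ 2 = 1) (hz : z ∈ Bn d) : ∑ i, ‖bZ p z i‖ ^ 2 < (bS p z).re := by
  rw [Geo_bZ_sum hp, Geo_bS_re]
  have h1 : 0 < ‖1 - ip p z‖ ^ 2 := pow_pos (norm_pos_iff.2 (Geo_ne hp hz)) 2
  have h2 : ∑ i, ‖z i‖ ^ 2 < 1 := hz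
  exact div_lt_div_of_pos_right (by linarith) h1

theorem Geo_self (hp : ∑ i, ‖p i‖ ^ 2 = 1) (hz : z ∈ Bn d) : bpt p (bZ p z) (bS p z) = z := by
  have h := Geo_ne hp hz
  have h1 : bS p z + 1 = 2 / (1 - ip p z) := by
    unfold bS
    field_simp
    ring
  have h2 : bS p z - 1 = 2 * ip p z / (1 - ip p z) := by
    unfold bS
    field_simp
    ring
  funext i
  unfold bpt
  rw [h1, h2]
  unfold bZ
  field_simp
  ring

theorem Geo_perp (hp : ∑ i, ‖p i‖ ^ 2 = 1) : ip p (bZ p z) = 0 := by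
  have h1 : ip p (bZ p z) = (ip p z - ip p z * ip p p) / (1 - ip p z) := by
    have h2 : bZ p z = fun i => (1 - ip p z)⁻¹ * (z i - ip p z * p i) := by
      funext i
      unfold bZ
      rw [div_eq_inv_mul]
    rw [h2, RB_ip_smul, RB_ip_sub, RB_ip_smul, div_eq_inv_mul]
  rw [h1, RB_ip_self hp, mul_one, sub_self, zero_div]

/-- conjugate symmetry -/
theorem Geo_symm (p c : Fin d → ℂ) : ip c p = (starRingEnd ℂ) (ip p c) := by
  unfold ip
  rw [map_sum]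
  refine Finset.sum_congr rfl fun i _ => ?_
  rw [map_mul, Complex.conj_conj, mul_comm]

theorem Geo_s1 {s : ℂ} (hs : 0 < s.re) : s + 1 ≠ 0 := by
  intro h
  have h1 := congrArg Complex.re h
  rw [Complex.add_re, Complex.one_re, Complex.zero_re] at h1
  linarith

theorem Geo_ip (hp : ∑ i, ‖p i‖ ^ 2 = 1) (hc : ip p c = 0) (s : ℂ) :
    ip p (bpt p c s) = (s - 1) / (s + 1) := by
  have h2 : bpt p c s = fun i => (s + 1)⁻¹ * ((s - 1) * p i - (-2) * c i) := by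
    funext i
    unfold bpt
    rw [div_eq_inv_mul]
    ring
  rw [h2, RB_ip_smul, RB_ip_sub p (fun i => (s - 1) * p i) (fun i => (-2) * c i), RB_ip_smul,
    RB_ip_smul, hc, RB_ip_self hp, div_eq_inv_mul]
  ring

theorem Geo_mem (hp : ∑ i, ‖p i‖ ^ 2 = 1) (hc : ip p c = 0) {s : ℂ} (hs : ∑ i, ‖c i‖ ^ 2 < s.re) :
    bpt p c s ∈ Bn d := by
  have hs0 : 0 < s.re := lt_of_le_of_lt (Finset.sum_nonneg fun i _ => by positivity) hs
  show ∑ i, ‖bpt p c s i‖ ^ 2 < 1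
  have h0 : 0 < ‖s + 1‖ ^ 2 := pow_pos (norm_pos_iff.2 (Geo_s1 hs0)) 2
  have h1 : ∑ i, ‖bpt p c s i‖ ^ 2 =
      (∑ i, ‖(s - 1) * p i - (-2) * c i‖ ^ 2) / ‖s + 1‖ ^ 2 := by
    rw [Finset.sum_div]
    refine Finset.sum_congr rfl fun i _ => ?_
    unfold bpt
    rw [norm_div, div_pow]
    congr 3
    ring
  have h2 := RB_expand (fun i => (s - 1) * p i) (fun i => (-2) * c i)
  have h3 : ∑ i, ‖(s - 1) * p i‖ ^ 2 = ‖s - 1‖ ^ 2 := by
    have h2 : ∀ i, ‖(s - 1) * p i‖ ^ 2 = ‖s - 1‖ ^ 2 * ‖p i‖ ^ 2 := fun i => by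
      rw [norm_mul, mul_pow]
    rw [Finset.sum_congr rfl (fun i _ => h2 i), ← Finset.mul_sum, hp, mul_one]
  have h4 : ∑ i, ‖(-2 : ℂ) * c i‖ ^ 2 = 4 * ∑ i, ‖c i‖ ^ 2 := by
    rw [Finset.mul_sum]
    refine Finset.sum_congr rfl fun i _ => ?_
    rw [norm_mul, mul_pow]
    norm_num
  have h5 : ip (fun i => (-2 : ℂ) * c i) (fun i => (s - 1) * p i) = 0 := by
    rw [RB_ip_smul, Geo_symm, RB_ip_smul, hc]
    simp
  rw [h5, h3, h4] at h2
  rw [h1, h2, div_lt_one h0, Geo_nsq (s - 1), Geo_nsq (s + 1)]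
  simp only [Complex.add_re, Complex.sub_re, Complex.add_im, Complex.sub_im, Complex.one_re,
    Complex.one_im, Complex.zero_re]
  nlinarith

theorem Geo_S (hp : ∑ i, ‖p i‖ ^ 2 = 1) (hc : ip p c = 0) {s : ℂ} (hs : 0 < s.re) :
    bS p (bpt p c s) = s := by
  have h := Geo_s1 hs
  have h1 : 1 + (s - 1) / (s + 1) = 2 * s / (s + 1) := by
    field_simp
    ring
  have h2 : 1 - (s - 1) / (s + 1) = 2 / (s + 1) := by
    field_simp
    ring
  unfold bS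
  rw [Geo_ip hp hc, h1, h2]
  field_simp

theorem Geo_Z (hp : ∑ i, ‖p i‖ ^ 2 = 1) (hc : ip p c = 0) {s : ℂ} (hs : 0 < s.re) :
    bZ p (bpt p c s) = c := by
  have h := Geo_s1 hs
  have h2 : 1 - (s - 1) / (s + 1) = 2 / (s + 1) := by
    field_simp
    ring
  funext i
  unfold bZ
  rw [Geo_ip hp hc, h2]
  unfold bpt
  field_simp
  ring

theorem Geo_csum (c : Fin d → ℂ) : (∑ i, (‖c i‖ : ℂ) ^ 2).re = ∑ i, ‖c i‖ ^ 2 := by
  rw [Complex.re_sum]
  refine Finset.sum_congr rfl fun i _ => ?_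
  rw [← Complex.ofReal_pow, Complex.ofReal_re]

theorem Geo_phi_re (hp : ∑ i, ‖p i‖ ^ 2 = 1) (hz : z ∈ Bn d) (c : Fin d → ℂ) :
    ∑ i, ‖bZ p z i - c i‖ ^ 2 < (bPhi p c z).re := by
  have h1 := Geo_re hp hz
  have h2 : (bPhi p c z).re = (bS p z).re - 2 * (ip c (bZ p z)).re + ∑ i, ‖c i‖ ^ 2 := by
    unfold bPhi
    rw [Complex.add_re, Complex.sub_re, Geo_csum]
    simp
  rw [RB_expand, h2]
  linarith

theorem Geo_near (hp : ∑ i, ‖p i‖ ^ 2 = 1) (hz : z ∈ Bn d) :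
    ∑ i, ‖z i - p i‖ ^ 2 ≤ 4 / ‖bS p z + 1‖ := by
  have h := Geo_ne hp hz
  have h1 : bS p z + 1 = 2 / (1 - ip p z) := by
    unfold bS
    field_simp
    ring
  have h2 : 0 < ‖1 - ip p z‖ := norm_pos_iff.2 h
  have h3 : 4 / ‖bS p z + 1‖ = 2 * ‖1 - ip p z‖ := by
    rw [h1, norm_div, Complex.norm_ofNat]
    field_simp
    norm_num
  rw [h3]
  exact RB_near' hp hz

theorem Geo_zero (z : Fin d → ℂ) : bPhi p 0 z = bS p z := by
  unfold bPhi ip
  simp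

theorem Geo_div {f g : (Fin d → ℂ) → ℂ} {s : Set (Fin d → ℂ)} (hf : DifferentiableOn ℂ f s)
    (hg : DifferentiableOn ℂ g s) (h0 : ∀ z ∈ s, g z ≠ 0) :
    DifferentiableOn ℂ (fun z => f z / g z) s := by
  have h1 : (fun z => f z / g z) = fun z => f z * (g z)⁻¹ := by
    funext z
    rw [div_eq_mul_inv]
  rw [h1]
  exact hf.mul (hg.fun_inv h0)

theorem Geo_dS (hp : ∑ i, ‖p i‖ ^ 2 = 1) : DifferentiableOn ℂ (bS p) (Bn d) := by
  have h1 : DifferentiableOn ℂ (fun z : Fin d → ℂ => ip p z) (Bn d) :=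
    (RB_ip_diff p).differentiableOn
  have h2 : DifferentiableOn ℂ (fun z : Fin d → ℂ => (1 + ip p z) / (1 - ip p z)) (Bn d) :=
    Geo_div (h1.const_add 1) (h1.const_sub 1) (fun z hz => Geo_ne hp hz)
  exact h2

theorem Geo_dZ (hp : ∑ i, ‖p i‖ ^ 2 = 1) (i : Fin d) :
    DifferentiableOn ℂ (fun z => bZ p z i) (Bn d) := by
  have h1 : DifferentiableOn ℂ (fun z : Fin d → ℂ => ip p z) (Bn d) :=
    (RB_ip_diff p).differentiableOn
  have h3 : DifferentiableOn ℂ (fun z : Fin d → ℂ => z i) (Bn d) :=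
    fun z _ => (differentiableAt_apply i z).differentiableWithinAt
  have h2 : DifferentiableOn ℂ (fun z : Fin d → ℂ => (z i - ip p z * p i) / (1 - ip p z)) (Bn d) :=
    Geo_div (h3.sub (h1.mul_const (p i))) (h1.const_sub 1) (fun z hz => Geo_ne hp hz)
  exact h2

theorem Geo_dphi (hp : ∑ i, ‖p i‖ ^ 2 = 1) (c : Fin d → ℂ) :
    DifferentiableOn ℂ (bPhi p c) (Bn d) := by
  have h1 : DifferentiableOn ℂ (fun z : Fin d → ℂ => ip c (bZ p z)) (Bn d) := by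
    have h2 : (fun z : Fin d → ℂ => ip c (bZ p z)) =
        fun z => ∑ i, bZ p z i * (starRingEnd ℂ) (c i) := rfl
    rw [h2]
    exact DifferentiableOn.fun_sum fun i _ => (Geo_dZ hp i).mul_const _
  have h2 := ((Geo_dS hp).sub (h1.const_mul 2)).add_const (∑ i, (‖c i‖ : ℂ) ^ 2)
  exact h2

theorem Geo_phi_mem (hp : ∑ i, ‖p i‖ ^ 2 = 1) (hz : z ∈ Bn d) (c : Fin d → ℂ) :
    bPhi p c z ∈ RHP :=
  lt_of_le_of_lt (Finset.sum_nonneg fun i _ => by positivity) (Geo_phi_re hp hz c)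

theorem HR_sp {h : ℂ → ℂ} (hd : DifferentiableOn ℂ h RHP) {C : ℝ} (hC : ∀ w ∈ RHP, ‖h w‖ ≤ C)
    {a b : ℂ} (ha : a ∈ RHP) (hb : b ∈ RHP) : ‖h a - h b‖ ≤ 2 * C * ‖a - b‖ / b.re := by
  have ha' : 0 < a.re := ha
  have hb' : 0 < b.re := hb
  have hC0 : 0 ≤ C := (norm_nonneg _).trans (hC a ha)
  have hne : ∀ ζ ∈ ball (0 : ℂ) 1, (1 : ℂ) - ζ ≠ 0 := by
    intro ζ hζ h0
    rw [mem_ball_zero_iff] at hζ
    have h1 : ζ = 1 := by linear_combination -h0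
    rw [h1, norm_one] at hζ
    exact lt_irrefl _ hζ
  have hmaps : ∀ ζ ∈ ball (0 : ℂ) 1, (b + (starRingEnd ℂ) b * ζ) / (1 - ζ) ∈ RHP := by
    intro ζ hζ
    show 0 < ((b + (starRingEnd ℂ) b * ζ) / (1 - ζ)).re
    rw [Complex.div_re, ← add_div]
    have h1 : 0 < Complex.normSq (1 - ζ) := Complex.normSq_pos.2 (hne ζ hζ)
    refine div_pos ?_ h1
    rw [mem_ball_zero_iff] at hζ
    have h2 : ζ.re ^ 2 + ζ.im ^ 2 < 1 := by
      rw [← Geo_nsq]
      nlinarith [norm_nonneg ζ]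
    simp only [Complex.add_re, Complex.mul_re, Complex.add_im, Complex.mul_im, Complex.sub_re,
      Complex.sub_im, Complex.conj_re, Complex.conj_im, Complex.one_re, Complex.one_im]
    have h3 : (b.re + (b.re * ζ.re - -b.im * ζ.im)) * (1 - ζ.re) +
        (b.im + (b.re * ζ.im + -b.im * ζ.re)) * (0 - ζ.im) =
        b.re * (1 - (ζ.re ^ 2 + ζ.im ^ 2)) := by ring
    rw [h3]
    exact mul_pos hb' (by linarith)
  have hdd : DifferentiableOn ℂ (fun ζ => h ((b + (starRingEnd ℂ) b * ζ) / (1 - ζ)))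
      (ball 0 1) := by
    apply hd.comp _ hmaps
    apply DifferentiableOn.div
    · fun_prop
    · fun_prop
    · exact hne
  have hm : MapsTo (fun ζ => h ((b + (starRingEnd ℂ) b * ζ) / (1 - ζ))) (ball 0 1)
      (closedBall ((fun ζ => h ((b + (starRingEnd ℂ) b * ζ) / (1 - ζ))) 0) (2 * C)) := by
    intro ζ hζ
    rw [mem_closedBall, dist_eq_norm]
    have h1 := hC _ (hmaps ζ hζ)
    have h2 := hC _ (hmaps 0 (mem_ball_self one_pos))
    exact (norm_sub_le _ _).trans (by linarith)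
  have hden : a + (starRingEnd ℂ) b ≠ 0 := by
    intro h0
    have h1 := congrArg Complex.re h0
    rw [Complex.add_re, Complex.conj_re, Complex.zero_re] at h1
    linarith
  have hdp : 0 < ‖a + (starRingEnd ℂ) b‖ := norm_pos_iff.2 hden
  have hζ : (a - b) / (a + (starRingEnd ℂ) b) ∈ ball (0 : ℂ) 1 := by
    rw [mem_ball_zero_iff, norm_div, div_lt_one hdp]
    refine lt_of_pow_lt_pow_left₀ 2 hdp.le ?_
    rw [Geo_nsq, Geo_nsq]
    simp only [Complex.add_re, Complex.sub_re, Complex.add_im, Complex.sub_im, Complex.conj_re,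
      Complex.conj_im]
    nlinarith [mul_pos ha' hb']
  have key := Complex.dist_le_div_mul_dist_of_mapsTo_ball hdd hm hζ
  have e1 : (b + (starRingEnd ℂ) b * ((a - b) / (a + (starRingEnd ℂ) b))) /
      (1 - (a - b) / (a + (starRingEnd ℂ) b)) = a := by
    have h3 := hne _ hζ
    rw [div_eq_iff h3]
    field_simp
    ring
  simp only [e1, mul_zero, add_zero, sub_zero, div_one] at key
  rw [dist_eq_norm, dist_zero_right, norm_div] at key
  have h5 : b.re ≤ ‖a + (starRingEnd ℂ) b‖ := by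
    have h6 := Complex.re_le_norm (a + (starRingEnd ℂ) b)
    rw [Complex.add_re, Complex.conj_re] at h6
    linarith
  calc ‖h a - h b‖ ≤ 2 * C * (‖a - b‖ / ‖a + (starRingEnd ℂ) b‖) := key
    _ ≤ 2 * C * (‖a - b‖ / b.re) := by
        apply mul_le_mul_of_nonneg_left _ (by linarith)
        exact div_le_div_of_nonneg_left (norm_nonneg _) hb' h5
    _ = 2 * C * ‖a - b‖ / b.re := by ring

theorem Geo_HR (hp : ∑ i, ‖p i‖ ^ 2 = 1) (c : Fin d → ℂ) {h : ℂ → ℂ} (hh : HR h) :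
    HInf (Bn d) (fun z => h (bPhi p c z)) := by
  obtain ⟨hh1, C, hh2⟩ := hh
  exact ⟨hh1.comp (Geo_dphi hp c) (fun z hz => Geo_phi_mem hp hz c), C,
    fun z hz => hh2 _ (Geo_phi_mem hp hz c)⟩

theorem Geo_HV (hp : ∑ i, ‖p i‖ ^ 2 = 1) (c : Fin d → ℂ) (i : Fin d) :
    HInf (Bn d) (fun z => (bZ p z i - c i) * Complex.exp (-bPhi p c z)) := by
  refine ⟨?_, 1, fun z hz => ?_⟩
  · have h1 : DifferentiableOn ℂ (fun z => Complex.exp (-bPhi p c z)) (Bn d) :=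
      (Geo_dphi hp c).neg.cexp
    exact ((Geo_dZ hp i).sub_const (c i)).mul h1
  · have h1 := Geo_phi_re hp hz c
    have h2 : ‖bZ p z i - c i‖ ^ 2 ≤ ∑ i, ‖bZ p z i - c i‖ ^ 2 :=
      Finset.single_le_sum (f := fun i => ‖bZ p z i - c i‖ ^ 2) (fun _ _ => by positivity)
        (Finset.mem_univ i)
    show ‖(bZ p z i - c i) * Complex.exp (-bPhi p c z)‖ ≤ 1
    rw [norm_mul, Complex.norm_exp, Complex.neg_re]
    set y := (bPhi p c z).re with hy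
    have hy0 : 0 ≤ y := by
      have := Finset.sum_nonneg (s := Finset.univ) (f := fun i => ‖bZ p z i - c i‖ ^ 2)
        (fun i _ => by positivity)
      linarith
    have h3 : ‖bZ p z i - c i‖ ^ 2 ≤ y := by linarith
    have h4 : ‖bZ p z i - c i‖ ≤ 1 + y := by
      nlinarith [norm_nonneg (bZ p z i - c i), sq_nonneg (‖bZ p z i - c i‖ - 1)]
    have h5 : 1 + y ≤ Real.exp y := by
      have := Real.add_one_le_exp y
      linarith
    calc ‖bZ p z i - c i‖ * Real.exp (-y) ≤ Real.exp y * Real.exp (-y) :=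
          mul_le_mul_of_nonneg_right (h4.trans h5) (Real.exp_pos _).le
      _ = 1 := by rw [← Real.exp_add, add_neg_cancel, Real.exp_zero]

end Cor
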