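import Pool.Agent.helper45.Ball.Rho
import Pool.Agent.helper31.AZ.P5

/-!
Module B2-LEIB: division by the coordinates `z i`, `i ≠ l`, on the Siegel domain (Leibenson's
formula).

PROOF.  `Q i z = ∫ s in 0..1, (∂_i G) (s z', z l)` for `i ≠ l` (all coordinates of `z` except `z l`
are multiplied by `s`), `∂_i G y = deriv (fun t => G (update y i t)) (y i)`; `Q l = 0`.
Equation: `d/ds G (s z', z l) = ∑_{i ≠ l} z i * ∂_i G (s z', z l)` (chain rule for the complex
derivative `fderiv`; `G` is differentiable on the open set `Sg l`).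
Bound: let `r = sqrt (im (z l))`, `|z'| < r`.  For `z' = 0`: Cauchy estimate on the disc of radius
`r` in the direction `e_i`.  For `z' ≠ 0` write `e_i = (conj (z i) / |z'|^2) z' + τ`, `τ ⟂ z'`,
`|τ| ≤ 1`.  The first part contributes `(conj (z i) / |z'|^2) (G z - G (0, z l))`, bounded by
`(1 / |z'|) * min 2 (2 |z'| / r)` (Schwarz lemma on the disc `|ζ| < r / |z'|`,
`ζ ↦ G (ζ z', z l)`), so by `2 / r`.  Second part: `s z' + ζ τ` stays in the ball of radius `r` for
`|ζ|^2 < r^2 (1 - s^2)`, so `|D_τ G (s z', z l)| ≤ 1 / (r sqrt (1 - s^2))`, and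
`∫_0^1 ds / sqrt (1 - s^2) ≤ ∫_0^1 ds / sqrt (1 - s) = 2`.  So `C = 4` works.
Holomorphic: `osgood_open`; in one variable the integral is holomorphic (dominated convergence,
`hasDerivAt_integral_of_dominated_loc_of_deriv_le`; the integrand is bounded locally uniformly by a
multiple of `1 / sqrt (1 - s)`, even bounded locally, since `(s z', z l)`, `s ∈ [0, 1]`, is a
compact subset of `Sg l`; the derivative `∂_i G` is continuous on `Sg l` by the Cauchy formula).
It may be easier to prove the result first for `G` composed with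
`z ↦ (z l, the other coordinates)` in the form needed here.
-/

noncomputable section

open Set Finset MeasureTheory Metric

namespace Cor

theorem Leib_line {d : ℕ} {U : Set (Fin d → ℂ)} (hU : IsOpen U) {G : (Fin d → ℂ) → ℂ}
    (hG : DifferentiableOn ℂ G U) (y v : Fin d → ℂ) {ζ : ℂ} (h : y + ζ • v ∈ U) :
    HasDerivAt (fun ζ : ℂ => G (y + ζ • v)) (fderiv ℂ G (y + ζ • v) v) ζ := by
  have h1 : HasFDerivAt G (fderiv ℂ G (y + ζ • v)) (y + ζ • v) :=
    (hG.differentiableAt (hU.mem_nhds h)).hasFDerivAt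
  have h2 : HasDerivAt (fun ζ : ℂ => y + ζ • v) v ζ := by
    have := ((hasDerivAt_id ζ).smul_const v).const_add y
    simpa using this
  exact h1.comp_hasDerivAt ζ h2

theorem Leib_cauchy {d : ℕ} {U : Set (Fin d → ℂ)} (hU : IsOpen U) {G : (Fin d → ℂ) → ℂ}
    (hG : DifferentiableOn ℂ G U) (hb : ∀ z ∈ U, ‖G z‖ ≤ 1) (y v : Fin d → ℂ) {R : ℝ} (hR : 0 < R)
    (h : ∀ ζ : ℂ, ‖ζ‖ ≤ R → y + ζ • v ∈ U) : ‖fderiv ℂ G y v‖ ≤ 1 / R := by
  have h0 : deriv (fun ζ : ℂ => G (y + ζ • v)) 0 = fderiv ℂ G y v := by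
    have h1 := (Leib_line hU hG y v (h 0 (by simpa using hR.le))).deriv
    simpa using h1
  rw [← h0]
  refine Complex.norm_deriv_le_of_forall_mem_sphere_norm_le hR ?_ ?_
  · refine DifferentiableOn.diffContOnCl_ball (U := closedBall 0 R) ?_ le_rfl
    intro ζ hζ
    exact (Leib_line hU hG y v (h ζ (by simpa using hζ))).differentiableAt.differentiableWithinAt
  · intro ζ hζ
    exact hb _ (h ζ (by simpa using (mem_sphere_zero_iff_norm.1 hζ).le))

theorem Leib_hol {d : ℕ} {U : Set (Fin d → ℂ)} (hU : IsOpen U) {G : (Fin d → ℂ) → ℂ}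
    (hG : DifferentiableOn ℂ G U) (hb : ∀ z ∈ U, ‖G z‖ ≤ 1) (v : Fin d → ℂ) :
    DifferentiableOn ℂ (fun y => fderiv ℂ G y v) U := by
  intro y₀ hy₀
  apply DifferentiableAt.differentiableWithinAt
  obtain ⟨r, hr, hball⟩ := Metric.isOpen_iff.1 hU y₀ hy₀
  obtain ⟨ε, hε, hε1⟩ : ∃ ε > 0, ε * (1 + ‖v‖) < r := by
    refine ⟨r / 2 / (1 + ‖v‖), by positivity, ?_⟩
    rw [div_mul_cancel₀ _ (by positivity)]
    linarith
  have hmem : ∀ y ∈ ball y₀ ε, ∀ ζ : ℂ, ‖ζ‖ ≤ ε → y + ζ • v ∈ U := by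
    intro y hy ζ hζ
    apply hball
    rw [mem_ball, dist_eq_norm] at hy ⊢
    calc ‖y + ζ • v - y₀‖ = ‖(y - y₀) + ζ • v‖ := by congr 1; abel
      _ ≤ ‖y - y₀‖ + ‖ζ • v‖ := norm_add_le _ _
      _ ≤ ε + ε * ‖v‖ := by
          rw [norm_smul]
          exact add_le_add hy.le (mul_le_mul_of_nonneg_right hζ (norm_nonneg _))
      _ < r := by linarith
  have hV : IsOpen (ball y₀ ε) := isOpen_ball
  refine (osgood_open hV (C := 1 / ε) (fun y hy => Leib_cauchy hU hG hb y v hε (hmem y hy))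
    ?_).differentiableAt (hV.mem_nhds (mem_ball_self hε))
  intro y hy j
  set V : Set ℂ := {w | Function.update y j w ∈ ball y₀ ε} with hVdef
  have hupc : Continuous fun w : ℂ => Function.update y j w := continuous_const.update j continuous_id
  have hVo : IsOpen V := hV.preimage hupc
  have hyV : y j ∈ V := by
    change Function.update y j (y j) ∈ ball y₀ ε
    rw [Function.update_eq_self]
    exact hy
  have hupd : Differentiable ℂ fun w : ℂ => Function.update y j w := by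
    rw [differentiable_pi]
    intro i
    by_cases h : i = j
    · subst h
      simp only [Function.update_self]
      exact differentiable_id
    · simp only [Function.update_of_ne h]
      exact differentiable_const _
  have hrep : ∀ w ∈ V, fderiv ℂ G (Function.update y j w) v =
      (2 * Real.pi * Complex.I : ℂ)⁻¹ • ∫ θ in Ioc (0 : ℝ) (2 * Real.pi),
        deriv (circleMap 0 ε) θ • ((1 / (circleMap 0 ε θ - 0) ^ 2) •
          G (Function.update y j w + circleMap 0 ε θ • v)) := by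
    intro w hw
    have h0 : deriv (fun ζ : ℂ => G (Function.update y j w + ζ • v)) 0 =
        fderiv ℂ G (Function.update y j w) v := by
      have h1 := (Leib_line hU hG (Function.update y j w) v
        (hmem _ hw 0 (by simpa using hε.le))).deriv
      simpa using h1
    have h1 : DifferentiableOn ℂ (fun ζ : ℂ => G (Function.update y j w + ζ • v))
        (closedBall 0 ε) := fun ζ hζ => (Leib_line hU hG _ v (hmem _ hw ζ
          (by simpa using hζ))).differentiableAt.differentiableWithinAt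
    have h2 := h1.deriv_eq_smul_circleIntegral hε
    rw [circleIntegral, intervalIntegral.integral_of_le (by positivity), h0] at h2
    rw [h2, smul_smul, inv_mul_cancel₀ Complex.two_pi_I_ne_zero, one_smul]
  have hcm : Continuous (circleMap 0 ε) := continuous_circleMap 0 ε
  have hcn : ∀ θ, ‖circleMap 0 ε θ‖ = ε := fun θ => by
    rw [norm_circleMap_zero, abs_of_pos hε]
  have hcz : ∀ θ, (circleMap 0 ε θ - 0) ^ 2 ≠ 0 := by
    intro θ h
    rw [sub_zero] at h
    have h1 := hcn θ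
    rw [pow_eq_zero_iff (by norm_num)] at h
    rw [h, norm_zero] at h1
    linarith
  have hmain : DifferentiableOn ℂ (fun w => ∫ θ in Ioc (0 : ℝ) (2 * Real.pi),
        deriv (circleMap 0 ε) θ • ((1 / (circleMap 0 ε θ - 0) ^ 2) •
          G (Function.update y j w + circleMap 0 ε θ • v))) V := by
    refine Pool.Agent.helper31.AZ.differentiableOn_integral _ hVo _ ?_ ?_ ?_
    · intro w hw
      apply Continuous.aestronglyMeasurable
      refine Continuous.smul (f := fun θ => deriv (circleMap 0 ε) θ) ?_ ?_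
      · simp only [deriv_circleMap]
        exact hcm.mul continuous_const
      · refine Continuous.smul (continuous_const.div ((hcm.sub continuous_const).pow 2) hcz) ?_
        refine hG.continuousOn.comp_continuous
          (continuous_const.add (hcm.smul continuous_const)) fun θ => ?_
        exact hmem _ hw _ (hcn θ).le
    · intro θ w hw
      have h1 : DifferentiableAt ℂ G (Function.update y j w + circleMap 0 ε θ • v) :=
        hG.differentiableAt (hU.mem_nhds (hmem _ hw _ (hcn θ).le))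
      have h2 : DifferentiableAt ℂ
          (fun w => G (Function.update y j w + circleMap 0 ε θ • v)) w :=
        h1.comp w ((hupd w).add_const _)
      have h3 := (h2.const_smul (1 / (circleMap 0 ε θ - 0) ^ 2)).const_smul
        (deriv (circleMap 0 ε) θ)
      exact h3.differentiableWithinAt
    · intro w₀ hw₀
      refine ⟨1, one_pos, fun _ => ε * (1 / ε ^ 2 * 1), ?_, ?_⟩
      · exact integrable_const _
      · intro w _ hw θ
        rw [norm_smul, norm_smul, deriv_circleMap, norm_mul, Complex.norm_I, mul_one, hcn,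
          norm_div, norm_one, norm_pow, sub_zero, hcn]
        have h1 := hb _ (hmem _ hw _ (hcn θ).le)
        exact mul_le_mul_of_nonneg_left (mul_le_mul_of_nonneg_left h1 (by positivity)) hε.le
  have h3 : DifferentiableOn ℂ (fun w => fderiv ℂ G (Function.update y j w) v) V :=
    (hmain.const_smul ((2 * Real.pi * Complex.I : ℂ)⁻¹)).congr hrep
  exact h3.differentiableAt (hVo.mem_nhds hyV)


/-- the point of the geodesic `z' = 0` with the same `z l` -/
def lax {d : ℕ} (l : Fin d) (z : Fin d → ℂ) : Fin d → ℂ := fun i => if i = l then z l else 0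

/-- squared norm of the coordinates different from `l` -/
def Leib_P {d : ℕ} (l : Fin d) (z : Fin d → ℂ) : ℝ := ∑ i ∈ Finset.univ.erase l, ‖z i‖ ^ 2

/-- contraction towards `lax l z` -/
def Leib_s {d : ℕ} (l : Fin d) (s : ℂ) (z : Fin d → ℂ) : Fin d → ℂ :=
  fun i => if i = l then z l else s * z i

/-- the vector of the coordinates different from `l` -/
def Leib_z {d : ℕ} (l : Fin d) (z : Fin d → ℂ) : Fin d → ℂ := fun i => if i = l then 0 else z i

theorem Leib_P_nonneg {d : ℕ} (l : Fin d) (z : Fin d → ℂ) : 0 ≤ Leib_P l z :=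
  Finset.sum_nonneg fun i _ => by positivity

theorem Leib_mem {d : ℕ} {l : Fin d} {z : Fin d → ℂ} : z ∈ Sg l ↔ Leib_P l z < (z l).im := Iff.rfl

theorem Leib_exp {d : ℕ} {l i : Fin d} (hi : i ≠ l) (c ζ : ℂ) (z : Fin d → ℂ) :
    ∑ j ∈ Finset.univ.erase l, ‖c * z j + (if j = i then ζ else 0)‖ ^ 2 =
      ‖c‖ ^ 2 * Leib_P l z + (2 * (c * z i * (starRingEnd ℂ) ζ).re + ‖ζ‖ ^ 2) := by
  have h1 : ∀ j ∈ Finset.univ.erase l, ‖c * z j + (if j = i then ζ else 0)‖ ^ 2 =
      ‖c‖ ^ 2 * ‖z j‖ ^ 2 +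
        (if j = i then 2 * (c * z i * (starRingEnd ℂ) ζ).re + ‖ζ‖ ^ 2 else 0) := by
    intro j _
    by_cases h : j = i
    · rw [if_pos h, if_pos h, h, Complex.sq_norm, Complex.normSq_add, Complex.normSq_mul,
        Complex.sq_norm, Complex.sq_norm, Complex.sq_norm]
      ring
    · rw [if_neg h, if_neg h, add_zero, add_zero, norm_mul, mul_pow]
  rw [Finset.sum_congr rfl h1, Finset.sum_add_distrib, ← Finset.mul_sum, Finset.sum_ite_eq',
    if_pos (Finset.mem_erase.2 ⟨hi, Finset.mem_univ _⟩)]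
  rfl

/-- the point `σ_s z + ζ (e_i - a z')` -/
theorem Leib_pt {d : ℕ} {l i : Fin d} (hi : i ≠ l) (s a ζ : ℂ) (z : Fin d → ℂ) :
    Leib_s l s z + ζ • (Pi.single i (1 : ℂ) - a • Leib_z l z) ∈ Sg l ↔
      ‖s - ζ * a‖ ^ 2 * Leib_P l z +
        (2 * ((s - ζ * a) * z i * (starRingEnd ℂ) ζ).re + ‖ζ‖ ^ 2) < (z l).im := by
  rw [Leib_mem, ← Leib_exp hi]
  have h1 : (Leib_s l s z + ζ • (Pi.single i (1 : ℂ) - a • Leib_z l z) : Fin d → ℂ) l = z l := by
    simp [Leib_s, Leib_z, Pi.single_eq_of_ne hi.symm]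
  have h2 : Leib_P l (Leib_s l s z + ζ • (Pi.single i (1 : ℂ) - a • Leib_z l z)) =
      ∑ j ∈ Finset.univ.erase l, ‖(s - ζ * a) * z j + (if j = i then ζ else 0)‖ ^ 2 := by
    refine Finset.sum_congr rfl fun j hj => ?_
    have hj' : j ≠ l := Finset.ne_of_mem_erase hj
    congr 2
    by_cases h : j = i
    · subst h
      simp [Leib_s, Leib_z, hj']
      ring
    · simp [Leib_s, Leib_z, hj', h]
      ring
  rw [h1, h2]

theorem Leib_sq_le {d : ℕ} {l i : Fin d} (hi : i ≠ l) (z : Fin d → ℂ) :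
    ‖z i‖ ^ 2 ≤ Leib_P l z :=
  Finset.single_le_sum (f := fun j => ‖z j‖ ^ 2) (fun j _ => by positivity)
    (Finset.mem_erase.2 ⟨hi, Finset.mem_univ _⟩)

/-- first membership: small discs in the direction `e_i` -/
theorem Leib_mem1 {d : ℕ} {l i : Fin d} (hi : i ≠ l) {s : ℝ} (hs0 : 0 ≤ s) (hs1 : s ≤ 1) {ζ : ℂ}
    {z : Fin d → ℂ} (hz : z ∈ Sg l)
    (hζ : ‖ζ‖ < Real.sqrt (z l).im - Real.sqrt (Leib_P l z)) :
    Leib_s l s z + ζ • (Pi.single i (1 : ℂ)) ∈ Sg l := by
  have h0 := Leib_pt hi s 0 ζ z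
  rw [zero_smul, sub_zero, mul_zero, sub_zero] at h0
  rw [h0]
  have hP := Leib_P_nonneg l z
  have him : 0 < (z l).im := lt_of_le_of_lt hP hz
  have h1 : ((s : ℂ) * z i * (starRingEnd ℂ) ζ).re ≤ Real.sqrt (Leib_P l z) * ‖ζ‖ := by
    refine (Complex.re_le_norm _).trans ?_
    rw [norm_mul, norm_mul, Complex.norm_real, Real.norm_of_nonneg hs0, RCLike.norm_conj]
    have h2 : ‖z i‖ ≤ Real.sqrt (Leib_P l z) := Real.le_sqrt_of_sq_le (Leib_sq_le hi z)
    refine mul_le_mul_of_nonneg_right ?_ (norm_nonneg _)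
    calc s * ‖z i‖ ≤ 1 * ‖z i‖ := mul_le_mul_of_nonneg_right hs1 (norm_nonneg _)
      _ = ‖z i‖ := one_mul _
      _ ≤ _ := h2
  have h3 : ‖(s : ℂ)‖ ^ 2 * Leib_P l z ≤ Leib_P l z := by
    rw [Complex.norm_real, Real.norm_of_nonneg hs0]
    exact mul_le_of_le_one_left hP (pow_le_one₀ hs0 hs1)
  have h4 : Real.sqrt (Leib_P l z) ^ 2 = Leib_P l z := Real.sq_sqrt hP
  have h5 : (Real.sqrt (Leib_P l z) + ‖ζ‖) ^ 2 < Real.sqrt (z l).im ^ 2 := by
    refine pow_lt_pow_left₀ (by linarith) (by positivity) (by norm_num)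
  rw [Real.sq_sqrt him.le] at h5
  nlinarith

/-- second membership: large discs in the direction `e_i - a z'` -/
theorem Leib_mem2 {d : ℕ} {l i : Fin d} (hi : i ≠ l) {t : ℝ} (ht0 : 0 ≤ t) (ht1 : t < 1) {ζ : ℂ}
    {z : Fin d → ℂ} (hz : z ∈ Sg l) (hζ : ‖ζ‖ ≤ Real.sqrt (z l).im * (1 - t) / 2) :
    Leib_s l (2 * t - t ^ 2 : ℝ) z + ζ • (Pi.single i (1 : ℂ) -
      ((starRingEnd ℂ) (z i) / (Leib_P l z : ℂ)) • Leib_z l z) ∈ Sg l := by
  rw [Leib_pt hi]
  have hP := Leib_P_nonneg l z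
  have him : 0 < (z l).im := lt_of_le_of_lt hP hz
  have hPim : Leib_P l z < (z l).im := hz
  obtain ⟨s, hs⟩ : ∃ s : ℝ, s = 2 * t - t ^ 2 := ⟨_, rfl⟩
  have hs1 : 1 - s = (1 - t) ^ 2 := by rw [hs]; ring
  have hs0 : 0 ≤ s := by rw [hs]; nlinarith
  have hslt : s < 1 := by nlinarith [sq_pos_of_pos (show 0 < 1 - t by linarith)]
  rw [← hs]
  have hζ2 : ‖ζ‖ ^ 2 ≤ (z l).im * (1 - s) / 4 := by
    have h1 : ‖ζ‖ ^ 2 ≤ (Real.sqrt (z l).im * (1 - t) / 2) ^ 2 :=
      pow_le_pow_left₀ (norm_nonneg _) hζ 2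
    rw [div_pow, mul_pow, Real.sq_sqrt him.le, ← hs1] at h1
    linarith
  have key : ‖(s : ℂ) - ζ * ((starRingEnd ℂ) (z i) / (Leib_P l z : ℂ))‖ ^ 2 * Leib_P l z +
      (2 * (((s : ℂ) - ζ * ((starRingEnd ℂ) (z i) / (Leib_P l z : ℂ))) * z i *
        (starRingEnd ℂ) ζ).re + ‖ζ‖ ^ 2) ≤ s ^ 2 * Leib_P l z + ‖ζ‖ ^ 2 := by
    rcases hP.eq_or_lt with h | h
    · have hzi : z i = 0 := by
        have := Leib_sq_le hi z
        rw [← h] at this
        have h2 : ‖z i‖ ^ 2 = 0 := le_antisymm this (by positivity)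
        simpa using h2
      rw [← h, hzi]
      simp
    · obtain ⟨p, hp⟩ : ∃ p, p = Leib_P l z := ⟨_, rfl⟩
      rw [← hp] at h ⊢
      have e1 : ‖(s : ℂ) - ζ * ((starRingEnd ℂ) (z i) / (p : ℂ))‖ ^ 2 * p +
          (2 * (((s : ℂ) - ζ * ((starRingEnd ℂ) (z i) / (p : ℂ))) * z i *
            (starRingEnd ℂ) ζ).re + ‖ζ‖ ^ 2) =
          s ^ 2 * p + ‖ζ‖ ^ 2 - ((z i).re ^ 2 + (z i).im ^ 2) * (ζ.re ^ 2 + ζ.im ^ 2) / p := by
        rw [Complex.sq_norm, Complex.sq_norm, Complex.normSq_apply, Complex.normSq_apply]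
        simp only [Complex.sub_re, Complex.sub_im, Complex.mul_re, Complex.mul_im,
          Complex.div_ofReal_re, Complex.div_ofReal_im, Complex.conj_re, Complex.conj_im,
          Complex.ofReal_re, Complex.ofReal_im]
        field_simp
        ring
      rw [e1]
      have e2 : 0 ≤ ((z i).re ^ 2 + (z i).im ^ 2) * (ζ.re ^ 2 + ζ.im ^ 2) / p := by positivity
      linarith
  have h6 : s ^ 2 * Leib_P l z ≤ s * (z l).im := by nlinarith
  nlinarith


theorem Leib_s_mem {d : ℕ} {l : Fin d} {s : ℝ} (hs0 : 0 ≤ s) (hs1 : s ≤ 1) {z : Fin d → ℂ}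
    (hz : z ∈ Sg l) : Leib_s l s z ∈ Sg l := by
  have h1 : Leib_P l (Leib_s l s z) = s ^ 2 * Leib_P l z := by
    unfold Leib_P
    rw [Finset.mul_sum]
    refine Finset.sum_congr rfl fun j hj => ?_
    unfold Leib_s
    rw [if_neg (Finset.ne_of_mem_erase hj), norm_mul, mul_pow, Complex.norm_real,
      Real.norm_of_nonneg hs0]
  have h2 : Leib_s l s z l = z l := if_pos rfl
  rw [Leib_mem, h1, h2]
  exact lt_of_le_of_lt (mul_le_of_le_one_left (Leib_P_nonneg l z) (pow_le_one₀ hs0 hs1)) hz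

/-- the parametrisation -/
theorem Leib_par {t : ℝ} (ht : t ∈ Icc (0 : ℝ) 1) : 0 ≤ 2 * t - t ^ 2 ∧ 2 * t - t ^ 2 ≤ 1 := by
  obtain ⟨h0, h1⟩ := ht
  constructor <;> nlinarith

theorem Leib_s_cont {d : ℕ} (l : Fin d) (z : Fin d → ℂ) :
    Continuous fun t : ℝ => Leib_s l ((2 * t - t ^ 2 : ℝ) : ℂ) z := by
  refine continuous_pi fun i => ?_
  unfold Leib_s
  split_ifs
  · exact continuous_const
  · exact (Complex.continuous_ofReal.comp (by fun_prop)).mul continuous_const

section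

variable {d : ℕ} {l : Fin d} {G : (Fin d → ℂ) → ℂ} (hG : DifferentiableOn ℂ G (Sg l))
  (hb : ∀ z ∈ Sg l, ‖G z‖ ≤ 1)

include hG hb

theorem Leib_fc (v : Fin d → ℂ) {z : Fin d → ℂ} (hz : z ∈ Sg l) :
    ContinuousOn (fun t : ℝ => ((2 * (1 - t) : ℝ) : ℂ) *
      fderiv ℂ G (Leib_s l ((2 * t - t ^ 2 : ℝ) : ℂ) z) v) (Icc 0 1) := by
  refine ContinuousOn.mul (Complex.continuous_ofReal.comp (by fun_prop)).continuousOn ?_
  exact (Leib_hol (Sg_open l) hG hb v).continuousOn.comp (Leib_s_cont l z).continuousOn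
    fun t ht => Leib_s_mem (Leib_par ht).1 (Leib_par ht).2 hz

theorem Leib_fi (v : Fin d → ℂ) {z : Fin d → ℂ} (hz : z ∈ Sg l) :
    IntervalIntegrable (fun t : ℝ => ((2 * (1 - t) : ℝ) : ℂ) *
      fderiv ℂ G (Leib_s l ((2 * t - t ^ 2 : ℝ) : ℂ) z) v) volume 0 1 := by
  refine ContinuousOn.intervalIntegrable ?_
  rw [Set.uIcc_of_le zero_le_one]
  exact Leib_fc hG hb v hz

theorem Leib_ftc {z : Fin d → ℂ} (hz : z ∈ Sg l) :
    ∫ t in (0 : ℝ)..1, ((2 * (1 - t) : ℝ) : ℂ) *
      fderiv ℂ G (Leib_s l ((2 * t - t ^ 2 : ℝ) : ℂ) z) (Leib_z l z) = G z - G (lax l z) := by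
  have h1 : ∀ t ∈ uIcc (0 : ℝ) 1, HasDerivAt (fun t : ℝ => G (Leib_s l ((2 * t - t ^ 2 : ℝ) : ℂ) z))
      (((2 * (1 - t) : ℝ) : ℂ) *
        fderiv ℂ G (Leib_s l ((2 * t - t ^ 2 : ℝ) : ℂ) z) (Leib_z l z)) t := by
    intro t ht
    rw [Set.uIcc_of_le zero_le_one] at ht
    have e0 : ∀ s : ℂ, Leib_s l s z = lax l z + s • Leib_z l z := by
      intro s
      ext i
      by_cases h : i = l
      · simp [Leib_s, lax, Leib_z, h]
      · simp [Leib_s, lax, Leib_z, h]
    have hm := Leib_s_mem (Leib_par ht).1 (Leib_par ht).2 hz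
    rw [e0] at hm
    have h2 := Leib_line (Sg_open l) hG (lax l z) (Leib_z l z) hm
    have h3 : HasDerivAt (fun t : ℝ => ((2 * t - t ^ 2 : ℝ) : ℂ)) ((2 * (1 - t) : ℝ) : ℂ) t := by
      have h4 : HasDerivAt (fun t : ℝ => 2 * t - t ^ 2) (2 * (1 - t)) t := by
        have h5 := ((hasDerivAt_id' t).const_mul 2).sub (hasDerivAt_pow 2 t)
        refine h5.congr_deriv ?_
        norm_num
        ring
      exact h4.ofReal_comp
    have h7 := HasDerivAt.comp t h2 h3
    have e1 : (fun t : ℝ => G (Leib_s l ((2 * t - t ^ 2 : ℝ) : ℂ) z)) =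
        (fun ζ : ℂ => G (lax l z + ζ • Leib_z l z)) ∘ fun t : ℝ => ((2 * t - t ^ 2 : ℝ) : ℂ) := by
      ext t
      simp only [Function.comp_apply, e0]
    rw [e1, e0, mul_comm]
    exact h7
  have h2 := intervalIntegral.integral_eq_sub_of_hasDerivAt h1 (Leib_fi hG hb _ hz)
  rw [h2]
  congr 2
  · ext i
    norm_num [Leib_s]
    intro h
    rw [h]
  · ext i
    simp [Leib_s, lax]

theorem Leib_b2 {i : Fin d} (hi : i ≠ l) {z : Fin d → ℂ} (hz : z ∈ Sg l) {v : Fin d → ℂ}
    (hv : v = Pi.single i (1 : ℂ) - ((starRingEnd ℂ) (z i) / (Leib_P l z : ℂ)) • Leib_z l z) :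
    ‖∫ t in (0 : ℝ)..1, ((2 * (1 - t) : ℝ) : ℂ) *
      fderiv ℂ G (Leib_s l ((2 * t - t ^ 2 : ℝ) : ℂ) z) v‖ ≤ 4 / Real.sqrt (z l).im := by
  have him : 0 < (z l).im := lt_of_le_of_lt (Leib_P_nonneg l z) hz
  have hr : 0 < Real.sqrt (z l).im := Real.sqrt_pos.2 him
  have key : ∀ t : ℝ, 0 ≤ t → t < 1 →
      ‖fderiv ℂ G (Leib_s l ((2 * t - t ^ 2 : ℝ) : ℂ) z) v‖ ≤
        1 / (Real.sqrt (z l).im * (1 - t) / 2) := by
    intro t ht0 ht1
    refine Leib_cauchy (Sg_open l) hG hb _ v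
      (div_pos (mul_pos hr (by linarith)) two_pos) ?_
    intro ζ hζ
    have h := Leib_mem2 hi ht0 ht1 hz hζ
    rw [← hv] at h
    exact h
  have h1 := intervalIntegral.norm_integral_le_of_norm_le_const (a := (0 : ℝ)) (b := 1)
    (C := 4 / Real.sqrt (z l).im) (f := fun t : ℝ => ((2 * (1 - t) : ℝ) : ℂ) *
      fderiv ℂ G (Leib_s l ((2 * t - t ^ 2 : ℝ) : ℂ) z) v) ?_
  · simpa using h1
  · intro t ht
    rw [uIoc_of_le zero_le_one] at ht
    rcases ht.2.eq_or_lt with h | h
    · rw [h, sub_self, mul_zero, Complex.ofReal_zero, zero_mul, norm_zero]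
      positivity
    · have h3 : 0 < 1 - t := by linarith
      have h4 : 0 ≤ 2 * (1 - t) := by linarith
      rw [norm_mul, Complex.norm_real, Real.norm_of_nonneg h4]
      have h5 := mul_le_mul_of_nonneg_left (key t ht.1.le h) h4
      refine h5.trans (le_of_eq ?_)
      field_simp
      norm_num

theorem Leib_b1 {i : Fin d} (hi : i ≠ l) {z : Fin d → ℂ} (hz : z ∈ Sg l) :
    ‖((starRingEnd ℂ) (z i) / (Leib_P l z : ℂ)) * (G z - G (lax l z))‖ ≤
      3 / Real.sqrt (z l).im := by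
  have hP := Leib_P_nonneg l z
  have him : 0 < (z l).im := lt_of_le_of_lt hP hz
  have hr : 0 < Real.sqrt (z l).im := Real.sqrt_pos.2 him
  rcases hP.eq_or_lt with h | h
  · rw [← h]
    simp
    positivity
  obtain ⟨ρ, hρ⟩ : ∃ ρ, ρ = Real.sqrt (Leib_P l z) := ⟨_, rfl⟩
  have hρ0 : 0 < ρ := by rw [hρ]; exact Real.sqrt_pos.2 h
  have hρ2 : ρ ^ 2 = Leib_P l z := by rw [hρ]; exact Real.sq_sqrt hP
  have hρr : ρ < Real.sqrt (z l).im := by
    rw [hρ]
    exact Real.sqrt_lt_sqrt hP hz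
  have e0 : ∀ s : ℂ, Leib_s l s z = lax l z + s • Leib_z l z := by
    intro s
    ext i
    by_cases h : i = l
    · simp [Leib_s, lax, Leib_z, h]
    · simp [Leib_s, lax, Leib_z, h]
  have hm : ∀ ζ : ℂ, ‖ζ‖ < Real.sqrt (z l).im / ρ → lax l z + ζ • Leib_z l z ∈ Sg l := by
    intro ζ hζ
    rw [← e0]
    have h1 : Leib_P l (Leib_s l ζ z) = ‖ζ‖ ^ 2 * Leib_P l z := by
      unfold Leib_P
      rw [Finset.mul_sum]
      refine Finset.sum_congr rfl fun j hj => ?_
      unfold Leib_s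
      rw [if_neg (Finset.ne_of_mem_erase hj), norm_mul, mul_pow]
    have h2 : Leib_s l ζ z l = z l := if_pos rfl
    rw [Leib_mem, h1, h2, ← hρ2, ← mul_pow, ← Real.sq_sqrt him.le]
    refine pow_lt_pow_left₀ ?_ (by positivity) (by norm_num)
    rwa [lt_div_iff₀ hρ0] at hζ
  have h1ball : (1 : ℂ) ∈ ball (0 : ℂ) (Real.sqrt (z l).im / ρ) := by
    rw [mem_ball_zero_iff, norm_one, lt_div_iff₀ hρ0, one_mul]
    exact hρr
  have h2 := Complex.dist_le_div_mul_dist_of_mapsTo_ball (c := (0 : ℂ)) (z := (1 : ℂ))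
    (R₁ := Real.sqrt (z l).im / ρ) (R₂ := 2) (f := fun ζ : ℂ => G (lax l z + ζ • Leib_z l z))
    (fun ζ hζ => (Leib_line (Sg_open l) hG _ _ (hm ζ
      (mem_ball_zero_iff.1 hζ))).differentiableAt.differentiableWithinAt) (fun ζ hζ => by
        rw [mem_closedBall, dist_eq_norm]
        have e1 := hb _ (hm ζ (mem_ball_zero_iff.1 hζ))
        have e2 := hb _ (hm 0 (by rw [norm_zero]; positivity))
        calc ‖_ - _‖ ≤ _ := norm_sub_le _ _
          _ ≤ 1 + 1 := add_le_add e1 e2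
          _ = 2 := by norm_num) h1ball
  have e1 : lax l z + (1 : ℂ) • Leib_z l z = z := by
    rw [← e0]
    ext i
    by_cases h : i = l
    · simp [Leib_s, h]
    · simp [Leib_s, h]
  rw [dist_eq_norm] at h2
  simp only [e1, zero_smul, add_zero, dist_zero_right, norm_one, mul_one] at h2
  rw [norm_mul, norm_div, RCLike.norm_conj, Complex.norm_real, Real.norm_of_nonneg hP]
  have h3 : ‖z i‖ ≤ ρ := by
    rw [hρ]
    exact Real.le_sqrt_of_sq_le (Leib_sq_le hi z)
  have h4 : ‖z i‖ / Leib_P l z ≤ 1 / ρ := by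
    rw [← hρ2, div_le_div_iff₀ (by positivity) hρ0]
    nlinarith
  calc ‖z i‖ / Leib_P l z * ‖G z - G (lax l z)‖ ≤ 1 / ρ * (2 / (Real.sqrt (z l).im / ρ)) :=
        mul_le_mul h4 h2 (norm_nonneg _) (by positivity)
    _ = 2 / Real.sqrt (z l).im := by field_simp
    _ ≤ 3 / Real.sqrt (z l).im := by gcongr; norm_num

/-- the coefficient -/
def Leib_Q (l : Fin d) (G : (Fin d → ℂ) → ℂ) (i : Fin d) (z : Fin d → ℂ) : ℂ :=
  ∫ t in (0 : ℝ)..1, ((2 * (1 - t) : ℝ) : ℂ) *
      fderiv ℂ G (Leib_s l ((2 * t - t ^ 2 : ℝ) : ℂ) z) (Pi.single i (1 : ℂ))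

theorem Leib_Q_bound {i : Fin d} (hi : i ≠ l) {z : Fin d → ℂ} (hz : z ∈ Sg l) :
    ‖Leib_Q l G i z‖ ≤ 7 / Real.sqrt (z l).im := by
  obtain ⟨v, hv⟩ : ∃ v : Fin d → ℂ, v = Pi.single i (1 : ℂ) -
    ((starRingEnd ℂ) (z i) / (Leib_P l z : ℂ)) • Leib_z l z := ⟨_, rfl⟩
  have hv' : (Pi.single i (1 : ℂ) : Fin d → ℂ) =
      v + ((starRingEnd ℂ) (z i) / (Leib_P l z : ℂ)) • Leib_z l z := by
    rw [hv, sub_add_cancel]
  have h1 : Leib_Q l G i z = (∫ t in (0 : ℝ)..1, ((2 * (1 - t) : ℝ) : ℂ) *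
      fderiv ℂ G (Leib_s l ((2 * t - t ^ 2 : ℝ) : ℂ) z) v) +
      ((starRingEnd ℂ) (z i) / (Leib_P l z : ℂ)) * (G z - G (lax l z)) := by
    rw [← Leib_ftc hG hb hz, ← intervalIntegral.integral_const_mul,
      ← intervalIntegral.integral_add (Leib_fi hG hb v hz)
        ((Leib_fi hG hb (Leib_z l z) hz).const_mul _)]
    unfold Leib_Q
    refine intervalIntegral.integral_congr fun t _ => ?_
    rw [hv', map_add, map_smul, smul_eq_mul]
    ring
  rw [h1]
  have him : 0 < (z l).im := lt_of_le_of_lt (Leib_P_nonneg l z) hz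
  refine (norm_add_le _ _).trans ?_
  have h2 := Leib_b2 hG hb hi hz hv
  have h3 := Leib_b1 hG hb hi hz
  have h4 : 7 / Real.sqrt (z l).im = 4 / Real.sqrt (z l).im + 3 / Real.sqrt (z l).im := by
    rw [← add_div]
    norm_num
  rw [h4]
  exact add_le_add h2 h3

theorem Leib_Q_eq {z : Fin d → ℂ} (hz : z ∈ Sg l) :
    G z - G (lax l z) = ∑ i ∈ Finset.univ.erase l, z i * Leib_Q l G i z := by
  rw [← Leib_ftc hG hb hz]
  unfold Leib_Q
  simp_rw [← intervalIntegral.integral_const_mul]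
  rw [← intervalIntegral.integral_finsetSum fun i _ =>
    (Leib_fi hG hb (Pi.single i (1 : ℂ)) hz).const_mul (z i)]
  refine intervalIntegral.integral_congr fun t _ => ?_
  have h1 : Leib_z l z = ∑ i ∈ Finset.univ.erase l, z i • (Pi.single i (1 : ℂ) : Fin d → ℂ) := by
    ext j
    rw [Finset.sum_apply]
    simp only [Pi.smul_apply, Pi.single_apply, smul_eq_mul, mul_ite, mul_one, mul_zero]
    rw [Finset.sum_ite_eq]
    by_cases h : j = l
    · simp [Leib_z, h]
    · simp [Leib_z, h]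
  change _ * fderiv ℂ G _ (Leib_z l z) = _
  rw [h1, map_sum, Finset.mul_sum]
  refine Finset.sum_congr rfl fun i _ => ?_
  rw [map_smul, smul_eq_mul]
  ring

theorem Leib_Q_hol {i : Fin d} (hi : i ≠ l) : DifferentiableOn ℂ (Leib_Q l G i) (Sg l) := by
  intro z₀ hz₀
  apply DifferentiableAt.differentiableWithinAt
  have him : 0 < (z₀ l).im := lt_of_le_of_lt (Leib_P_nonneg l z₀) hz₀
  obtain ⟨η, hη, hη1⟩ : ∃ η > 0, η < (z₀ l).im := ⟨(z₀ l).im / 2, by positivity, by linarith⟩
  set U : Set (Fin d → ℂ) := Sg l ∩ {z | η < (z l).im} with hUdef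
  have hU : IsOpen U := (Sg_open l).inter
    (isOpen_lt continuous_const (Complex.continuous_im.comp (continuous_apply l)))
  have hz₀U : z₀ ∈ U := ⟨hz₀, hη1⟩
  refine (osgood_open hU (C := 7 / Real.sqrt η) ?_ ?_).differentiableAt (hU.mem_nhds hz₀U)
  · intro z hz
    refine (Leib_Q_bound hG hb hi hz.1).trans ?_
    have h1 : Real.sqrt η ≤ Real.sqrt (z l).im := Real.sqrt_le_sqrt (le_of_lt hz.2)
    have h2 : 0 < Real.sqrt η := Real.sqrt_pos.2 hη
    gcongr
  · intro z hz j
    set V : Set ℂ := {w | Function.update z j w ∈ U} with hVdef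
    have hupc : Continuous fun w : ℂ => Function.update z j w :=
      continuous_const.update j continuous_id
    have hVo : IsOpen V := hU.preimage hupc
    have hyV : z j ∈ V := by
      change Function.update z j (z j) ∈ U
      rw [Function.update_eq_self]
      exact hz
    have hupd : Differentiable ℂ fun w : ℂ => Function.update z j w := by
      rw [differentiable_pi]
      intro i
      by_cases h : i = j
      · subst h
        simp only [Function.update_self]
        exact differentiable_id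
      · simp only [Function.update_of_ne h]
        exact differentiable_const _
    have hPc : Continuous fun w : ℂ => Leib_P l (Function.update z j w) :=
      continuous_finsetSum _ fun i _ => ((continuous_apply i).comp hupc).norm.pow 2
    have hlc : Continuous fun w : ℂ => (Function.update z j w l).im :=
      Complex.continuous_im.comp ((continuous_apply l).comp hupc)
    obtain ⟨F, hF⟩ : ∃ F : ℂ → ℝ → ℂ, F = fun w t => if t ∈ Icc (0 : ℝ) 1 then
      ((2 * (1 - t) : ℝ) : ℂ) * fderiv ℂ G (Leib_s l ((2 * t - t ^ 2 : ℝ) : ℂ)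
        (Function.update z j w)) (Pi.single i (1 : ℂ)) else 0 := ⟨_, rfl⟩
    have hrep : ∀ w ∈ V, Leib_Q l G i (Function.update z j w) = ∫ t in Ioc (0 : ℝ) 1, F w t := by
      intro w _
      unfold Leib_Q
      rw [intervalIntegral.integral_of_le zero_le_one]
      refine setIntegral_congr_fun measurableSet_Ioc fun t ht => ?_
      rw [hF]
      simp only
      rw [if_pos (Set.Ioc_subset_Icc_self ht)]
    have hmain : DifferentiableOn ℂ (fun w => ∫ t in Ioc (0 : ℝ) 1, F w t) V := by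
      refine Pool.Agent.helper31.AZ.differentiableOn_integral _ hVo F ?_ ?_ ?_
      · intro w hw
        have h1 := (Leib_fc hG hb (Pi.single i (1 : ℂ)) hw.1).aestronglyMeasurable
          (μ := volume) measurableSet_Icc
        refine (h1.mono_measure (Measure.restrict_mono Set.Ioc_subset_Icc_self le_rfl)).congr ?_
        rw [Filter.EventuallyEq, ae_restrict_iff' measurableSet_Ioc]
        refine Filter.Eventually.of_forall fun t ht => ?_
        rw [hF]
        simp only
        rw [if_pos (Set.Ioc_subset_Icc_self ht)]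
      · intro t w hw
        rw [hF]
        by_cases ht : t ∈ Icc (0 : ℝ) 1
        · simp only [if_pos ht]
          have hm := Leib_s_mem (Leib_par ht).1 (Leib_par ht).2 hw.1
          have h1 : DifferentiableAt ℂ (fun y => fderiv ℂ G y (Pi.single i (1 : ℂ)))
              (Leib_s l ((2 * t - t ^ 2 : ℝ) : ℂ) (Function.update z j w)) :=
            (Leib_hol (Sg_open l) hG hb (Pi.single i (1 : ℂ))).differentiableAt
              ((Sg_open l).mem_nhds hm)
          have h2 : DifferentiableAt ℂ (fun w => Leib_s l ((2 * t - t ^ 2 : ℝ) : ℂ)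
              (Function.update z j w)) w := by
            rw [differentiableAt_pi]
            intro a
            have h3 : ∀ b, DifferentiableAt ℂ (fun w => Function.update z j w b) w :=
              differentiableAt_pi.1 (hupd w)
            unfold Leib_s
            by_cases ha : a = l
            · simp only [if_pos ha]
              exact h3 l
            · simp only [if_neg ha]
              exact (h3 a).const_mul _
          have h4 := (h1.comp w h2).const_mul ((2 * (1 - t) : ℝ) : ℂ)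
          exact h4.differentiableWithinAt
        · simp only [if_neg ht]
          exact differentiableWithinAt_const _
      · intro w₀ hw₀
        have hφc : Continuous fun w : ℂ => Real.sqrt (Function.update z j w l).im -
            Real.sqrt (Leib_P l (Function.update z j w)) :=
          (Real.continuous_sqrt.comp hlc).sub (Real.continuous_sqrt.comp hPc)
        have hφ0 : 0 < Real.sqrt (Function.update z j w₀ l).im -
            Real.sqrt (Leib_P l (Function.update z j w₀)) := by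
          rw [sub_pos]
          exact Real.sqrt_lt_sqrt (Leib_P_nonneg l _) hw₀.1
        obtain ⟨δ, hδ, hδ1⟩ : ∃ δ > 0, δ < Real.sqrt (Function.update z j w₀ l).im -
            Real.sqrt (Leib_P l (Function.update z j w₀)) := ⟨_, half_pos hφ0, half_lt_self hφ0⟩
        obtain ⟨ε, hε, hball⟩ := Metric.isOpen_iff.1 (isOpen_lt continuous_const hφc) w₀ hδ1
        refine ⟨ε, hε, fun _ => 2 * (1 / δ), integrable_const _, ?_⟩
        intro w hw hwV t
        rw [hF]
        by_cases ht : t ∈ Icc (0 : ℝ) 1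
        · simp only [if_pos ht]
          have h1 : ‖fderiv ℂ G (Leib_s l ((2 * t - t ^ 2 : ℝ) : ℂ) (Function.update z j w))
              (Pi.single i (1 : ℂ))‖ ≤ 1 / δ := by
            refine Leib_cauchy (Sg_open l) hG hb _ _ hδ fun ζ hζ => ?_
            exact Leib_mem1 hi (Leib_par ht).1 (Leib_par ht).2 hwV.1
              (lt_of_le_of_lt hζ (hball hw))
          have h2 : ‖((2 * (1 - t) : ℝ) : ℂ)‖ ≤ 2 := by
            rw [Complex.norm_real, Real.norm_of_nonneg (by linarith [ht.2])]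
            linarith [ht.1]
          rw [norm_mul]
          exact mul_le_mul h2 h1 (norm_nonneg _) (by norm_num)
        · simp only [if_neg ht, norm_zero]
          positivity
    have h3 : DifferentiableOn ℂ (fun w => Leib_Q l G i (Function.update z j w)) V :=
      hmain.congr hrep
    exact h3.differentiableAt (hVo.mem_nhds hyV)

end

theorem leib {d : ℕ} (l : Fin d) : ∃ C : ℝ, 0 ≤ C ∧ ∀ G : (Fin d → ℂ) → ℂ,
    DifferentiableOn ℂ G (Sg l) → (∀ z ∈ Sg l, ‖G z‖ ≤ 1) →
    ∃ Q : Fin d → (Fin d → ℂ) → ℂ, (∀ i, DifferentiableOn ℂ (Q i) (Sg l)) ∧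
      (∀ i, ∀ z ∈ Sg l, ‖Q i z‖ ≤ C / Real.sqrt (z l).im) ∧
      ∀ z ∈ Sg l, G z - G (lax l z) = ∑ i ∈ Finset.univ.erase l, z i * Q i z := by
  refine ⟨7, by norm_num, fun G hG hb => ?_⟩
  refine ⟨fun i => if i = l then fun _ => 0 else Leib_Q l G i, fun i => ?_, fun i z hz => ?_,
    fun z hz => ?_⟩
  · by_cases h : i = l
    · simp only [h, if_true]
      exact differentiableOn_const _
    · simp only [h, if_false]
      exact Leib_Q_hol hG hb h
  · by_cases h : i = l
    · simp only [h, if_true, norm_zero]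
      positivity
    · simp only [h, if_false]
      exact Leib_Q_bound hG hb h hz
  · rw [Leib_Q_eq hG hb hz]
    refine Finset.sum_congr rfl fun i hi => ?_
    simp only [if_neg (Finset.ne_of_mem_erase hi)]

end Cor
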